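import Pool.Agent.Helper96.MP.Defs

/-!
# MP_bde085_nt: the amplification block

Exact statements `ST_X` of the modules which replace DIMB, HS, SCARD, CHEB, TOT and sharpen the final
bound to `exp(C ψ(N) log p)` for every prime `p ∤ N`.  Proofs: `/team-store/h9_amp.md`.
-/

set_option autoImplicit false

namespace Pool.Agent.Helper96.MP

open Complex MeasureTheory Filter Topology
open scoped MatrixGroups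

/-! ## Cosets, the box, the norm -/

theorem cls_uni (N : ℕ) (h : SL(2, ℤ)) : Uni N (h 1 0) (h 1 1) := by
  have hdet : h 0 0 * h 1 1 - h 0 1 * h 1 0 = 1 := by
    have := h.2
    rw [Matrix.det_fin_two] at this
    exact this
  have hc : IsCoprime (h 1 0) (h 1 1) := ⟨-(h 0 1), h 0 0, by linarith⟩
  have h1 : Int.gcd (h 1 0) (h 1 1) = 1 := Int.isCoprime_iff_gcd_eq_one.mp hc
  unfold Uni
  rw [h1]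
  simp

/-- class of the bottom row in the projective line over `ℤ/N` -/
def cls (N : ℕ) (h : SL(2, ℤ)) : PN N := Quotient.mk (sPN N) ⟨(h 1 0, h 1 1), cls_uni N h⟩

/-- a matrix with given class of the bottom row -/
noncomputable def rep (N : ℕ) (x : PN N) : SL(2, ℤ) := by
  classical
  exact if h : ∃ g, cls N g = x then Classical.choose h else 1

/-- the box `|Re z| ≤ 1/2`, `Im z ≥ 4/5` -/
def SB : Set ℂ := {z | |z.re| ≤ 1 / 2 ∧ 4 / 5 ≤ z.im}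

/-- `|g|_h (z)|²` for `g = qs b` -/
noncomputable def gsq (b : ℕ → ℂ) (h : SL(2, ℤ)) (z : ℂ) : ℝ := ‖qs b (mob h z)‖ ^ 2 / ‖jj h z‖ ^ 4

/-- the norm: sum over the cosets of `Γ₀(N)` of the integrals over the box -/
noncomputable def nrm (N : ℕ) (b : ℕ → ℂ) : ℝ := ∑ᶠ x : PN N, ∫ z in SB, gsq b (rep N x) z

/-- COS: right cosets of `Γ₀(N)` are the points of the projective line -/
def ST_COS : Prop := ∀ N : ℕ, 1 ≤ N → (∀ x : PN N, cls N (rep N x) = x) ∧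
  ∀ h h' : SL(2, ℤ), cls N h = cls N h' ↔ h' * h⁻¹ ∈ CongruenceSubgroup.Gamma0 N

/-- NRM: basic facts on `gsq` and the box -/
def ST_NRM : Prop :=
  (∀ (N : ℕ) (b : ℕ → ℂ), 1 ≤ N → Cusp N b → ∀ h : SL(2, ℤ),
    ContinuousOn (gsq b h) UH ∧ IntegrableOn (gsq b h) SB ∧ 0 ≤ ∫ z in SB, gsq b h z ∧
    ∀ γ ∈ CongruenceSubgroup.Gamma0 N, ∀ z ∈ UH, gsq b (γ * h) z = gsq b h z) ∧
  (∀ z ∈ UH, ∃ g : SL(2, ℤ), mob g z ∈ SB) ∧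
  (∀ Y : ℝ, 4 / 5 ≤ Y → IntegrableOn (fun z : ℂ => (z.im ^ 2)⁻¹) (SB ∩ {z | Y ≤ z.im}) ∧
    ∫ z in SB ∩ {z | Y ≤ z.im}, (z.im ^ 2)⁻¹ = Y⁻¹)

/-- FOLD: integrals over regions with bounded overlap modulo `Γ₀(N)` -/
def ST_FOLD : Prop := ∀ (N : ℕ) (b : ℕ → ℂ), 1 ≤ N → Cusp N b →
  ∀ (ι : Type) [Fintype ι] (K : ι → Set ℂ) (m : ℕ), (∀ i, MeasurableSet (K i)) → (∀ i, K i ⊆ UH) →
  (∀ z ∈ UH, {u : SL(2, ℤ) × ι | u.1 ∈ CongruenceSubgroup.Gamma0 N ∧ mob u.1 z ∈ K u.2}.Finite ∧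
    {u : SL(2, ℤ) × ι | u.1 ∈ CongruenceSubgroup.Gamma0 N ∧ mob u.1 z ∈ K u.2}.ncard ≤ m) →
  (∀ i, IntegrableOn (fun z => ‖qs b z‖ ^ 2) (K i)) ∧
  ∑ i, ∫ z in K i, ‖qs b z‖ ^ 2 ≤ m * nrm N b

/-- MV: mean value inequality on discs -/
def ST_MV : Prop := ∀ (f : ℂ → ℂ) (c : ℂ) (r : ℝ), 0 < r → DifferentiableOn ℂ f (Metric.ball c r) →
  IntegrableOn (fun z => ‖f z‖ ^ 2) (Metric.ball c r) →
  ‖f c‖ ^ 2 * (Real.pi * r ^ 2) ≤ ∫ z in Metric.ball c r, ‖f z‖ ^ 2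

/-- STRIP: width of a cusp, overlap of a horizontal strip of that width -/
def ST_STRIP : Prop := ∀ N : ℕ, 1 ≤ N → ∀ h : SL(2, ℤ), ∃ w : ℕ, 1 ≤ w ∧
  h * ModularGroup.T ^ w * h⁻¹ ∈ CongruenceSubgroup.Gamma0 N ∧
  ∀ z ∈ UH,
    {g : SL(2, ℤ) | g ∈ CongruenceSubgroup.Gamma0 N ∧
      mob g z ∈ mob h '' {u : ℂ | 0 ≤ u.re ∧ u.re < w ∧ 1 / 2 < u.im}}.Finite ∧
    {g : SL(2, ℤ) | g ∈ CongruenceSubgroup.Gamma0 N ∧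
      mob g z ∈ mob h '' {u : ℂ | 0 ≤ u.re ∧ u.re < w ∧ 1 / 2 < u.im}}.ncard ≤ 6

/-- UB: uniform pointwise bound by the norm, cusps included -/
def ST_UB : Prop := ∃ C : ℝ, 0 < C ∧ ∀ (N : ℕ) (b : ℕ → ℂ), 1 ≤ N → Cusp N b →
  ∀ h : SL(2, ℤ), ∀ z : ℂ, 4 / 5 ≤ z.im → gsq b h z * z.im ^ 2 ≤ C * nrm N b

/-! ## Hecke points -/

/-- primitive upper triangular matrices of determinant `p ^ j`, as triples `(a,b,d)` -/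
def Pj (p j : ℕ) : Finset (ℕ × ℕ × ℕ) :=
  (Tn (p ^ j)).filter (fun t => Nat.gcd (Nat.gcd t.1 t.2.1) t.2.2 = 1)

/-- `z ↦ (a z + b) / d` -/
noncomputable def act (t : ℕ × ℕ × ℕ) (z : ℂ) : ℂ := ((t.1 : ℂ) * z + (t.2.1 : ℂ)) / (t.2.2 : ℂ)

/-- eigenvalues of the sums over `Pj` -/
noncomputable def bet (p : ℕ) (α : ℝ) : ℕ → ℝ
  | 0 => 1
  | 1 => α
  | 2 => α ^ 2 - (p + 1)
  | (j + 3) => α * bet p α (j + 2) - p * bet p α (j + 1)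

/-- HPC: the spheres in the tree -/
def ST_HPC : Prop := ∀ p j : ℕ, p.Prime →
  ((Pj p j).card : ℝ) ≤ 2 * (p : ℝ) ^ j ∧ Pj p 1 = Tn p ∧
  (1 ≤ j → ∀ G : ℂ → ℂ, (∀ z ∈ UH, G (z + 1) = G z) → ∀ z ∈ UH,
    ∑ t ∈ Pj p j, ∑ t' ∈ Pj p 1, G (act t' (act t z)) =
      ∑ t ∈ Pj p (j + 1), G (act t z) +
        (if j = 1 then ((p : ℂ) + 1) else (p : ℂ)) * ∑ t ∈ Pj p (j - 1), G (act t z))

/-- HPE: the Hecke relation at primitive Hecke points -/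
def ST_HPE : Prop := ∀ (N p : ℕ) (b : ℕ → ℂ) (α : ℝ), 1 ≤ N → p.Prime → Cusp N b →
  (∀ n, Tl p b n = (α : ℂ) * b n) → ∀ j : ℕ, ∀ z ∈ UH,
  ∑ t ∈ Pj p j, ((act t z).im : ℂ) * qs b (act t z) = (bet p α j : ℂ) * ((z.im : ℂ) * qs b z)

/-- SUMB: the amplifier is large for every `α` -/
def ST_SUMB : Prop := ∀ (p J : ℕ) (α : ℝ), 2 ≤ p →
  (J : ℝ) / 16 ≤ ∑ j ∈ Finset.range (J + 1), bet p α j ^ 2 / (p : ℝ) ^ j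

/-- some non scalar integral matrix `(A,B;C,D)`, `N ∣ C`, of determinant `p ^ i`, `i ≤ 2 J`, moves a
point near `z0` to a point near `z0` -/
def Bad (N p J : ℕ) (z0 : ℂ) : Prop := ∃ i : ℕ, i ≤ 2 * J ∧ ∃ A B C D : ℤ,
  A * D - B * C = (p : ℤ) ^ i ∧ (N : ℤ) ∣ C ∧ ¬ (B = 0 ∧ C = 0 ∧ A = D) ∧
  ∃ ξ ∈ Metric.ball z0 (z0.im / 10), ∃ ξ' ∈ Metric.ball z0 (z0.im / 10), mo A B C D ξ = ξ'

/-- SEP: separation of the Hecke points of a good point -/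
def ST_SEP : Prop := ∀ N p J : ℕ, 1 ≤ N → p.Prime → ∀ z0 ∈ UH, ¬ Bad N p J z0 → ∀ ζ ∈ UH,
  {u : SL(2, ℤ) × (ℕ × ℕ × ℕ) | u.1 ∈ CongruenceSubgroup.Gamma0 N ∧ (∃ j ≤ J, u.2 ∈ Pj p j) ∧
    mob u.1 ζ ∈ Metric.ball (act u.2 z0) ((act u.2 z0).im / 10)}.Finite ∧
  {u : SL(2, ℤ) × (ℕ × ℕ × ℕ) | u.1 ∈ CongruenceSubgroup.Gamma0 N ∧ (∃ j ≤ J, u.2 ∈ Pj p j) ∧
    mob u.1 ζ ∈ Metric.ball (act u.2 z0) ((act u.2 z0).im / 10)}.ncard ≤ 2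

/-- AMPZ: amplified pointwise bound at good points -/
def ST_AMPZ : Prop := ∃ C : ℝ, 0 < C ∧ ∀ (N p J : ℕ) (b : ℕ → ℂ) (α : ℝ), 1 ≤ N → p.Prime →
  Cusp N b → (∀ n, Tl p b n = (α : ℂ) * b n) → ∀ z0 ∈ UH, ¬ Bad N p J z0 →
  (J : ℝ) * (z0.im ^ 2 * ‖qs b z0‖ ^ 2) ≤ C * nrm N b

/-! ## Counting bad points -/

/-- ENT: entries of a matrix moving a point near `z` to a point near `z` -/
def ST_ENT : Prop := ∀ (n A B C D : ℤ) (z η η' : ℂ), A * D - B * C = n → 1 ≤ n → z ∈ SB →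
  ‖η - z‖ ≤ z.im / 4 → ‖η' - z‖ ≤ z.im / 4 → mo A B C D η = η' →
  |(A : ℝ)| ≤ 9 * Real.sqrt n * z.im ∧ |(B : ℝ)| ≤ 9 * Real.sqrt n * z.im ∧
  |(C : ℝ)| ≤ 9 * Real.sqrt n * z.im ∧ |(D : ℝ)| ≤ 9 * Real.sqrt n * z.im

/-- NBAD: number of bad cosets above a point of the box -/
def ST_NBAD : Prop := ∃ C : ℝ, 0 < C ∧ ∀ (N p J : ℕ) (Y : ℝ), 1 ≤ N → p.Prime → ¬ p ∣ N → 1 ≤ Y →
  ∀ z ∈ SB, z.im ≤ Y →
  ({x : PN N | Bad N p J (mob (rep N x) z)}.ncard : ℝ) ≤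
    C * ((p : ℝ) ^ J * Y) ^ 5 * (N : ℝ) ^ (5 / 8 : ℝ)

/-! ## The dimension bound -/

/-- DIMK: dimension bounded by the integral of a pointwise bound -/
def ST_DIMK : Prop := ∀ (P : Type) [Fintype P] (V : Type) [AddCommGroup V] [Module ℂ V]
  [FiniteDimensional ℂ V] (Φ : V →ₗ[ℂ] (P → ℂ → ℂ)) (A : Set ℂ) (κ : P → ℂ → ℝ), MeasurableSet A →
  (∀ v x, ContinuousOn (Φ v x) A) → (∀ v x, IntegrableOn (fun z => ‖Φ v x z‖ ^ 2) A) →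
  (∀ x, IntegrableOn (κ x) A) → (∀ x, ∀ z ∈ A, 0 ≤ κ x z) →
  (∀ v, (∀ x, ∀ z ∈ A, Φ v x z = 0) → v = 0) →
  (∀ v x, ∀ z ∈ A, ‖Φ v x z‖ ^ 2 ≤ κ x z * ∑ y, ∫ u in A, ‖Φ v y u‖ ^ 2) →
  (Module.finrank ℂ V : ℝ) ≤ ∑ x, ∫ z in A, κ x z

/-- AMPD: dimension of an eigenspace of one Hecke operator -/
def ST_AMPD : Prop := ∃ C : ℝ, 0 < C ∧ ∀ (N p : ℕ) (α : ℝ), 1 ≤ N → p.Prime → ¬ p ∣ N →
  ∀ S : Submodule ℂ (ℕ → ℂ), (∀ b, b ∈ S ↔ (Cusp N b ∧ ∀ n, Tl p b n = (α : ℂ) * b n)) →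
  (Module.finrank ℂ S : ℝ) ≤ C * psi N * Real.log p / Real.log (N + 1)

/-! ## Symbols -/

/-- SYM: a Manin symbol comes from a cusp form, with its Hecke eigenvalues -/
def ST_SYM : Prop := ∀ N : ℕ, 1 ≤ N → ∀ v : PN N → ℝ,
  (∀ c d : ℤ, Uni N c d → ev v c d + ev v d (-c) = 0) →
  (∀ c d : ℤ, Uni N c d → ev v c d + ev v (c + d) (-c) + ev v d (-c - d) = 0) →
  ∃ b : ℕ → ℂ, Cusp N b ∧ ∀ (l : ℕ) (α : ℝ), l.Prime → ¬ l ∣ N → HRow N l α v →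
    (∀ n, Tl l b n = (α : ℂ) * b n) ∧
    (α ^ 2 ≠ ((l : ℝ) + 1) ^ 2 → ∀ p x q y : ℤ, p * y - x * q = 1 →
      ev v q y = (FC b p q - FC b x y).re)

/-- TRF: transfer of the dimension bound to symbols -/
def ST_TRF : Prop := ∀ (N p : ℕ) (α : ℝ), 1 ≤ N → p.Prime → ¬ p ∣ N → α ^ 2 ≠ ((p : ℝ) + 1) ^ 2 →
  ∀ S : Submodule ℂ (ℕ → ℂ), (∀ b, b ∈ S ↔ (Cusp N b ∧ ∀ n, Tl p b n = (α : ℂ) * b n)) →
  ∀ E : Submodule ℝ (PN N → ℝ),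
  (∀ v ∈ E, (∀ c d : ℤ, Uni N c d → ev v c d + ev v d (-c) = 0) ∧
    (∀ c d : ℤ, Uni N c d → ev v c d + ev v (c + d) (-c) + ev v d (-c - d) = 0) ∧
    HRow N p α v) →
  Module.finrank ℝ E ≤ 2 * Module.finrank ℂ S

/-- TOT2: a small integral generator of the line -/
def ST_TOT2 : Prop := ∃ C : ℝ, 0 < C ∧ ∀ (N p : ℕ) (a : ℕ → ℤ) (ε : ℤ), 1 ≤ N → p.Prime → ¬ p ∣ N →
  (ε = 1 ∨ ε = -1) → (∀ l : ℕ, l.Prime → ¬ l ∣ N → |a l| ≤ l + 1) → (a p) ^ 2 ≠ ((p : ℤ) + 1) ^ 2 →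
  ∀ E : Submodule ℝ (PN N → ℝ), (∀ v, v ∈ E ↔ Eall N a ε v) → Module.finrank ℝ E = 1 →
  ∃ v : PN N → ℤ, v ≠ 0 ∧ (fun x => (v x : ℝ)) ∈ E ∧
    ∀ x, |(v x : ℝ)| ≤ Real.exp (C * psi N * Real.log p)

/-- MAIN2: the main theorem in terms of cusps, for every prime `ℓ ∤ N` -/
def ST_MAIN2 : Prop := ∃ C : ℝ, 0 < C ∧ ∀ (N : ℕ) (a : ℕ → ℤ), 1 ≤ N → Newform N a →
  ∀ ℓ : ℕ, ℓ.Prime → ¬ ℓ ∣ N →
  ∀ (p1 r1 p2 r2 : ℤ) (q1 s1 q2 s2 : ℤ) (Ω₁ Ω₂ : ℂ), G0 N p1 q1 r1 s1 → G0 N p2 q2 r2 s2 →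
  Ω₁ = FC (fun k => (a k : ℂ)) p1 r1 → Ω₂ = FC (fun k => (a k : ℂ)) p2 r2 →
  Ω₁.im = 0 → 0 < Ω₁.re → 0 < Ω₂.im → 0 ≤ Ω₂.re → Ω₂.re < Ω₁.re →
  ∀ p q r s : ℤ, G0 N p q r s → ∀ m n : ℤ,
    FC (fun k => (a k : ℂ)) p r = (m : ℂ) * Ω₁ + (n : ℂ) * Ω₂ →
    |(m : ℝ)| ≤ (1 + Real.log (1 + |(r : ℝ)|)) * Real.exp (C * psi N * Real.log ℓ) ∧
    |(n : ℝ)| ≤ (1 + Real.log (1 + |(r : ℝ)|)) * Real.exp (C * psi N * Real.log ℓ)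

end Pool.Agent.Helper96.MP
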