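import Pool.Agent.Helper9.MP.Lib

set_option autoImplicit false

namespace Pool.Agent.Helper96.MP

open Complex MeasureTheory Filter Topology
open scoped MatrixGroups

theorem cos_surj (hS : ST_SURJ) (N : ℕ) (hN : 1 ≤ N) (x : PN N) : ∃ g : SL(2, ℤ), cls N g = x := by
  induction x using Quotient.inductionOn with
  | _ u =>
    obtain ⟨⟨c, d⟩, hu⟩ := u
    obtain ⟨c', d', ⟨u', v', huv⟩, hc, hd⟩ := (hS N hN).1 c d hu
    refine ⟨⟨!![v', -u'; c', d'], ?_⟩, ?_⟩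
    · rw [Matrix.det_fin_two]
      simp only [Matrix.of_apply, Matrix.cons_val', Matrix.cons_val_zero, Matrix.cons_val_one]
      linarith
    · refine Quotient.sound ?_
      show eqv N _ _ c d
      refine ⟨1, isCoprime_one_left, ?_, ?_⟩
      · show (N : ℤ) ∣ c - 1 * c'
        rw [one_mul]
        exact (dvd_sub_comm).mp hc
      · show (N : ℤ) ∣ d - 1 * d'
        rw [one_mul]
        exact (dvd_sub_comm).mp hd

theorem cos_low (h h' : SL(2, ℤ)) : (h' * h⁻¹) 1 0 = h' 1 0 * h 1 1 - h' 1 1 * h 1 0 := by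
  rw [Lib.mul10]
  have h1 : (h⁻¹) 0 0 = h 1 1 := by simp [Matrix.SpecialLinearGroup.coe_inv, Matrix.adjugate_fin_two]
  have h2 : (h⁻¹) 1 0 = - h 1 0 := by simp [Matrix.SpecialLinearGroup.coe_inv, Matrix.adjugate_fin_two]
  rw [h1, h2]; ring

theorem cos_iff (N : ℕ) (h h' : SL(2, ℤ)) :
    cls N h = cls N h' ↔ h' * h⁻¹ ∈ CongruenceSubgroup.Gamma0 N := by
  constructor
  · intro he
    have he' : eqv N (h 1 0) (h 1 1) (h' 1 0) (h' 1 1) := Quotient.exact he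
    obtain ⟨l, _, hc, hd⟩ := he'
    apply Lib.mem_of_dvd
    rw [cos_low]
    have : h' 1 0 * h 1 1 - h' 1 1 * h 1 0 = (h' 1 0 - l * h 1 0) * h 1 1 - (h' 1 1 - l * h 1 1) * h 1 0 := by
      ring
    rw [this]
    exact dvd_sub (Dvd.dvd.mul_right hc _) (Dvd.dvd.mul_right hd _)
  · intro hm
    obtain ⟨hdet, hdvd⟩ := Lib.g0_of_mem hm
    set γ := h' * h⁻¹ with hγ
    have hh : h' = γ * h := by rw [hγ]; group
    refine Quotient.sound ?_
    show eqv N (h 1 0) (h 1 1) (h' 1 0) (h' 1 1)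
    refine ⟨γ 1 1, ?_, ?_, ?_⟩
    · obtain ⟨k, hk⟩ := hdvd
      refine ⟨γ 0 0, -(γ 0 1) * k, ?_⟩
      rw [hk] at hdet
      linear_combination hdet
    · rw [hh, Lib.mul10]
      have : γ 1 0 * h 0 0 + γ 1 1 * h 1 0 - γ 1 1 * h 1 0 = γ 1 0 * h 0 0 := by ring
      rw [this]; exact Dvd.dvd.mul_right hdvd _
    · rw [hh, Lib.mul11]
      have : γ 1 0 * h 0 1 + γ 1 1 * h 1 1 - γ 1 1 * h 1 1 = γ 1 0 * h 0 1 := by ring
      rw [this]; exact Dvd.dvd.mul_right hdvd _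

theorem st_COS (hS : ST_SURJ) : ST_COS := by
  intro N hN
  refine ⟨?_, cos_iff N⟩
  intro x
  have hx := cos_surj hS N hN x
  unfold rep
  rw [dif_pos hx]
  exact Classical.choose_spec hx

end Pool.Agent.Helper96.MP
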