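import Pool.Agent.Helper9.MP.Lat

/-!
# MP_bde085_nt, block D: the lattice of a newform (module DISCF)
-/

set_option autoImplicit false

namespace Pool.Agent.Helper96.MP

open Complex MeasureTheory Filter Topology
open scoped MatrixGroups

theorem discf_iter (hK : ST_KERN) (V : Type) [AddCommGroup V] [Module ℝ V] [FiniteDimensional ℝ V]
    (ip B : V →ₗ[ℝ] V →ₗ[ℝ] ℝ) (L : AddSubgroup V) (A : ℕ → V →ₗ[ℝ] V) (U : Submodule ℝ V) (m : ℕ)
    (e : Fin m → V) (c : ℝ) (hc : 1 ≤ c) (he : ZB (L : Set V) U m e)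
    (hsymm : ∀ x y, ip x y = ip y x) (hpos : ∀ x, x ≠ 0 → 0 < ip x x)
    (hB : ∀ x ∈ L, ∀ y ∈ L, ∃ k : ℤ, B x y = k)
    (hdet : (Matrix.of fun i j => B (e i) (e j)).det ≠ 0)
    (hcomm : ∀ l l' x, A l (A l' x) = A l' (A l x)) (F : Finset ℕ) :
    (∀ l ∈ F, ∀ x ∈ L, A l x ∈ L) → (∀ l ∈ F, ∀ x ∈ U, A l x ∈ U) →
    (∀ l ∈ F, ∀ x ∈ U, ∀ y ∈ U, ip (A l x) y = ip x (A l y)) →
    (∀ l ∈ F, ∀ x ∈ U, ∀ y ∈ U, B (A l x) y = B x (A l y)) →
    (∀ l ∈ F, ∀ x ∈ U, ip (A l x) (A l x) ≤ c ^ 2 * ip x x) →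
    ∃ (K : Submodule ℝ V) (m' : ℕ) (e' : Fin m' → V),
      (∀ v, v ∈ K ↔ v ∈ U ∧ ∀ l ∈ F, A l v = 0) ∧ m' ≤ m ∧
      ZB (L : Set V) K m' e' ∧ (Matrix.of fun i j => B (e' i) (e' j)).det ≠ 0 ∧
      |(Matrix.of fun i j => B (e' i) (e' j)).det| ≤
        |(Matrix.of fun i j => B (e i) (e j)).det| * c ^ (2 * (m - m')) := by
  classical
  induction F using Finset.induction_on with
  | empty =>
    intro _ _ _ _ _
    refine ⟨U, m, e, ?_, le_rfl, he, hdet, ?_⟩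
    · intro v; simp
    · simp
  | insert l F hl ih =>
    intro hAL hAU hAi hAB hAn
    obtain ⟨K, m1, e1, hK1, hm1, he1, hd1, hb1⟩ := ih
      (fun l' hl' => hAL l' (Finset.mem_insert_of_mem hl'))
      (fun l' hl' => hAU l' (Finset.mem_insert_of_mem hl'))
      (fun l' hl' => hAi l' (Finset.mem_insert_of_mem hl'))
      (fun l' hl' => hAB l' (Finset.mem_insert_of_mem hl'))
      (fun l' hl' => hAn l' (Finset.mem_insert_of_mem hl'))
    have hlm : l ∈ insert l F := Finset.mem_insert_self _ _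
    have hKU : ∀ x ∈ K, x ∈ U := fun x hx => ((hK1 x).1 hx).1
    obtain ⟨m2, e2, hm2, he2, hd2, hb2⟩ := hK V ip B L (A l) K (K ⊓ LinearMap.ker (A l)) m1 e1 c hc
      he1 hsymm hpos (hAL l hlm)
      (by
        intro x hx
        rw [hK1] at hx ⊢
        refine ⟨hAU l hlm x hx.1, fun l' hl' => ?_⟩
        rw [hcomm l' l x, hx.2 l' hl', map_zero])
      (fun x hx y hy => hAi l hlm x (hKU x hx) y (hKU y hy))
      (fun x hx y hy => hAB l hlm x (hKU x hx) y (hKU y hy))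
      (fun x hx => hAn l hlm x (hKU x hx)) hB hd1
      (by
        intro v
        rw [Submodule.mem_inf, LinearMap.mem_ker])
    refine ⟨K ⊓ LinearMap.ker (A l), m2, e2, ?_, hm2.trans hm1, he2, hd2, ?_⟩
    · intro v
      rw [Submodule.mem_inf, LinearMap.mem_ker, hK1]
      constructor
      · rintro ⟨⟨h1, h2⟩, h3⟩
        refine ⟨h1, fun l' hl' => ?_⟩
        rcases Finset.mem_insert.1 hl' with h | h
        · rw [h]; exact h3
        · exact h2 l' h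
      · rintro ⟨h1, h2⟩
        exact ⟨⟨h1, fun l' hl' => h2 l' (Finset.mem_insert_of_mem hl')⟩, h2 l hlm⟩
    · refine hb2.trans ?_
      have hc0 : 0 ≤ c := by linarith
      calc |(Matrix.of fun i j => B (e1 i) (e1 j)).det| * c ^ (2 * (m1 - m2))
          ≤ (|(Matrix.of fun i j => B (e i) (e j)).det| * c ^ (2 * (m - m1))) *
              c ^ (2 * (m1 - m2)) := mul_le_mul_of_nonneg_right hb1 (pow_nonneg hc0 _)
        _ = |(Matrix.of fun i j => B (e i) (e j)).det| * c ^ (2 * (m - m2)) := by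
            rw [mul_assoc, ← pow_add]
            congr 2
            omega

/-- commutation of Hecke operators, on coefficients -/
theorem discf_Tcomm (l l' : ℕ) (hl : l.Prime) (hl' : l'.Prime) (b : ℕ → ℂ) (n : ℕ) :
    Tl l (Tl l' b) n = Tl l' (Tl l b) n := by
  by_cases h : l = l'
  · rw [h]
  have hco : Nat.Coprime l l' := (Nat.coprime_primes hl hl').2 h
  have hl0 : 0 < l := hl.pos
  have hl0' : 0 < l' := hl'.pos
  unfold Tl
  have e1 : l' ∣ l * n ↔ l' ∣ n := ⟨fun h1 => (Nat.Coprime.dvd_of_dvd_mul_left hco.symm h1),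
    fun h1 => Dvd.dvd.mul_left h1 l⟩
  have e2 : l ∣ l' * n ↔ l ∣ n := ⟨fun h1 => (Nat.Coprime.dvd_of_dvd_mul_left hco h1),
    fun h1 => Dvd.dvd.mul_left h1 l'⟩
  have e0 : b (l' * (l * n)) = b (l * (l' * n)) := by
    congr 1; ring
  by_cases hd : l ∣ n
  · by_cases hd' : l' ∣ n
    · obtain ⟨k, hk⟩ := hd
      have hk' : l' ∣ k := by
        rw [hk] at hd'
        exact Nat.Coprime.dvd_of_dvd_mul_left hco.symm hd'
      obtain ⟨j, hj⟩ := hk'
      have hn : n = l * (l' * j) := by rw [hk, hj]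
      have hn' : n = l' * (l * j) := by rw [hn]; ring
      have d1 : n / l = l' * j := by rw [hn]; exact Nat.mul_div_cancel_left _ hl0
      have d2 : n / l' = l * j := by rw [hn']; exact Nat.mul_div_cancel_left _ hl0'
      have d3 : l * n / l' = l * (l * j) := by
        rw [hn']; rw [show l * (l' * (l * j)) = l' * (l * (l * j)) by ring]
        exact Nat.mul_div_cancel_left _ hl0'
      have d4 : l' * n / l = l' * (l' * j) := by
        rw [hn]; rw [show l' * (l * (l' * j)) = l * (l' * (l' * j)) by ring]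
        exact Nat.mul_div_cancel_left _ hl0
      have hdn : l ∣ n := ⟨l' * j, hn⟩
      have hdn' : l' ∣ n := ⟨l * j, hn'⟩
      have hA : l' ∣ l * n := e1.2 hdn'
      have hB : l ∣ l' * n := e2.2 hdn
      have hC : l' ∣ l' * j := dvd_mul_right _ _
      have hD : l ∣ l * j := dvd_mul_right _ _
      have d5 : l' * j / l' = j := Nat.mul_div_cancel_left _ hl0'
      have d6 : l * j / l = j := Nat.mul_div_cancel_left _ hl0
      rw [if_pos hA, if_pos hdn, if_pos hB, if_pos hdn', d1, d2, d3, d4, if_pos hC, if_pos hD,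
        d5, d6, e0]
      rw [show l' * (l' * j) = l' * (l' * j) from rfl]
      ring
    · have hA : ¬ l' ∣ l * n := fun h1 => hd' (e1.1 h1)
      have hB : l ∣ l' * n := e2.2 hd
      obtain ⟨k, hk⟩ := hd
      have d1 : n / l = k := by rw [hk]; exact Nat.mul_div_cancel_left _ hl0
      have d4 : l' * n / l = l' * k := by
        rw [hk]; rw [show l' * (l * k) = l * (l' * k) by ring]
        exact Nat.mul_div_cancel_left _ hl0
      have hC : ¬ l' ∣ k := fun h1 => hd' (by rw [hk]; exact Dvd.dvd.mul_left h1 l)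
      have hdn : l ∣ n := ⟨k, hk⟩
      rw [if_neg hA, if_pos hdn, if_pos hB, if_neg hd', d1, d4, if_neg hC, e0]
      ring
  · by_cases hd' : l' ∣ n
    · have hA : l' ∣ l * n := e1.2 hd'
      have hB : ¬ l ∣ l' * n := fun h1 => hd (e2.1 h1)
      obtain ⟨k, hk⟩ := hd'
      have d2 : n / l' = k := by rw [hk]; exact Nat.mul_div_cancel_left _ hl0'
      have d3 : l * n / l' = l * k := by
        rw [hk]; rw [show l * (l' * k) = l' * (l * k) by ring]
        exact Nat.mul_div_cancel_left _ hl0'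
      have hD : ¬ l ∣ k := fun h1 => hd (by rw [hk]; exact Dvd.dvd.mul_left h1 l')
      have hdn : l' ∣ n := ⟨k, hk⟩
      rw [if_pos hA, if_neg hd, if_neg hB, if_pos hdn, d2, d3, if_neg hD, e0]
      ring
    · have hA : ¬ l' ∣ l * n := fun h1 => hd' (e1.1 h1)
      have hB : ¬ l ∣ l' * n := fun h1 => hd (e2.1 h1)
      rw [if_neg hA, if_neg hd, if_neg hB, if_neg hd', e0]

section concrete

variable {N : ℕ} {S : Submodule ℂ (ℕ → ℂ)}

/-- Hecke operator minus its eigenvalue, on cusp forms -/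
noncomputable def discf_A (hH : ST_HECKE) (hN : 1 ≤ N) (hS : ∀ b, b ∈ S ↔ Cusp N b) (a : ℕ → ℤ)
    (l : ℕ) : S →ₗ[ℂ] S := by
  classical
  exact if h : l.Prime ∧ ¬ l ∣ N then
    { toFun := fun b => ⟨fun n => Tl l (b : ℕ → ℂ) n - (a l : ℂ) * (b : ℕ → ℂ) n, by
        have h1 : Cusp N (Tl l (b : ℕ → ℂ)) := hH N l _ hN h.1 h.2 ((hS _).1 b.2)
        have h2 : Tl l (b : ℕ → ℂ) ∈ S := (hS _).2 h1
        exact S.sub_mem h2 (S.smul_mem (a l : ℂ) b.2)⟩
      map_add' := by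
        intro x y
        apply Subtype.ext
        funext n
        simp only [Submodule.coe_add, Pi.add_apply, Tl]
        split_ifs <;> ring
      map_smul' := by
        intro c x
        apply Subtype.ext
        funext n
        simp only [SetLike.val_smul, Pi.smul_apply, smul_eq_mul, Tl, RingHom.id_apply]
        split_ifs <;> ring }
  else 0

theorem discf_A_apply (hH : ST_HECKE) (hN : 1 ≤ N) (hS : ∀ b, b ∈ S ↔ Cusp N b) (a : ℕ → ℤ)
    (l : ℕ) (h1 : l.Prime) (h2 : ¬ l ∣ N) (b : S) :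
    ((discf_A hH hN hS a l b : S) : ℕ → ℂ) =
      fun n => Tl l (b : ℕ → ℂ) n - (a l : ℂ) * (b : ℕ → ℂ) n := by
  classical
  unfold discf_A
  rw [dif_pos ⟨h1, h2⟩]
  rfl

theorem discf_A_zero (hH : ST_HECKE) (hN : 1 ≤ N) (hS : ∀ b, b ∈ S ↔ Cusp N b) (a : ℕ → ℤ)
    (l : ℕ) (h : ¬ (l.Prime ∧ ¬ l ∣ N)) : discf_A hH hN hS a l = 0 := by
  classical
  unfold discf_A
  rw [dif_neg h]

theorem discf_A_ker (hH : ST_HECKE) (hN : 1 ≤ N) (hS : ∀ b, b ∈ S ↔ Cusp N b) (a : ℕ → ℤ)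
    (l : ℕ) (h1 : l.Prime) (h2 : ¬ l ∣ N) (b : S) :
    discf_A hH hN hS a l b = 0 ↔ ∀ n, Tl l (b : ℕ → ℂ) n = (a l : ℂ) * (b : ℕ → ℂ) n := by
  constructor
  · intro h n
    have h3 := congrArg (fun x : S => (x : ℕ → ℂ) n) h
    simp only [discf_A_apply hH hN hS a l h1 h2 b, Submodule.coe_zero, Pi.zero_apply] at h3
    exact sub_eq_zero.1 h3
  · intro h
    apply Subtype.ext
    rw [discf_A_apply hH hN hS a l h1 h2 b]
    funext n
    rw [h n]
    simp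

theorem discf_A_comm (hH : ST_HECKE) (hN : 1 ≤ N) (hS : ∀ b, b ∈ S ↔ Cusp N b) (a : ℕ → ℤ)
    (l l' : ℕ) (b : S) : discf_A hH hN hS a l (discf_A hH hN hS a l' b) =
      discf_A hH hN hS a l' (discf_A hH hN hS a l b) := by
  by_cases h : l.Prime ∧ ¬ l ∣ N
  · by_cases h' : l'.Prime ∧ ¬ l' ∣ N
    · apply Subtype.ext
      rw [discf_A_apply hH hN hS a l h.1 h.2, discf_A_apply hH hN hS a l' h'.1 h'.2,
        discf_A_apply hH hN hS a l' h'.1 h'.2, discf_A_apply hH hN hS a l h.1 h.2]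
      funext n
      have hc := discf_Tcomm l l' h.1 h'.1 (b : ℕ → ℂ) n
      have e1 : Tl l (fun n => Tl l' (b : ℕ → ℂ) n - (a l' : ℂ) * (b : ℕ → ℂ) n) n =
          Tl l (Tl l' (b : ℕ → ℂ)) n - (a l' : ℂ) * Tl l (b : ℕ → ℂ) n := by
        simp only [Tl]
        split_ifs <;> ring
      have e2 : Tl l' (fun n => Tl l (b : ℕ → ℂ) n - (a l : ℂ) * (b : ℕ → ℂ) n) n =
          Tl l' (Tl l (b : ℕ → ℂ)) n - (a l : ℂ) * Tl l' (b : ℕ → ℂ) n := by
        simp only [Tl]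
        split_ifs <;> ring
      rw [e1, e2, hc]
      ring
    · rw [discf_A_zero hH hN hS a l' h']
      simp
  · rw [discf_A_zero hH hN hS a l h]
    simp

theorem discf_pet_add (hP : ST_PET) (hN : 1 ≤ N) (W : ℂ → ℝ) (hW : WOK N W) (x y z : ℕ → ℂ)
    (hx : Cusp N x) (hy : Cusp N y) (hz : Cusp N z) :
    pet W (fun n => x n + y n) z = pet W x z + pet W y z := by
  obtain ⟨C0, hC0, hP⟩ := hP
  exact (hP N W hN hW _ _ _ hx hy hz).2.1

theorem discf_pet_smul (hP : ST_PET) (hN : 1 ≤ N) (W : ℂ → ℝ) (hW : WOK N W) (x y : ℕ → ℂ)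
    (hx : Cusp N x) (hy : Cusp N y) (c : ℂ) :
    pet W (fun n => c * x n) y = c * pet W x y := by
  obtain ⟨C0, hC0, hP⟩ := hP
  exact (hP N W hN hW _ _ _ hx hy hy).2.2.1 c

theorem discf_pet_conj (hP : ST_PET) (hN : 1 ≤ N) (W : ℂ → ℝ) (hW : WOK N W) (x y : ℕ → ℂ)
    (hx : Cusp N x) (hy : Cusp N y) :
    pet W y x = (starRingEnd ℂ) (pet W x y) := by
  obtain ⟨C0, hC0, hP⟩ := hP
  exact (hP N W hN hW _ _ _ hx hy hy).2.2.2.1

theorem discf_pet_add' (hP : ST_PET) (hF : ST_FCL) (hN : 1 ≤ N) (W : ℂ → ℝ) (hW : WOK N W)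
    (x y z : ℕ → ℂ) (hx : Cusp N x) (hy : Cusp N y) (hz : Cusp N z) :
    pet W x (fun n => y n + z n) = pet W x y + pet W x z := by
  have hyz := (hF N y z 1 hN hy hz).1
  rw [discf_pet_conj hP hN W hW _ _ hyz hx, discf_pet_add hP hN W hW _ _ _ hy hz hx, map_add,
    ← discf_pet_conj hP hN W hW _ _ hy hx, ← discf_pet_conj hP hN W hW _ _ hz hx]

theorem discf_pet_smul' (hP : ST_PET) (hF : ST_FCL) (hN : 1 ≤ N) (W : ℂ → ℝ) (hW : WOK N W)
    (x y : ℕ → ℂ) (hx : Cusp N x) (hy : Cusp N y) (r : ℝ) :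
    pet W x (fun n => (r : ℂ) * y n) = (r : ℂ) * pet W x y := by
  have hy' := (hF N y y (r : ℂ) hN hy hy).2.1
  rw [discf_pet_conj hP hN W hW _ _ hy' hx, discf_pet_smul hP hN W hW _ _ hy hx, map_mul,
    ← discf_pet_conj hP hN W hW _ _ hy hx, Complex.conj_ofReal]

theorem discf_coe_smul (r : ℝ) (x : S) :
    ((r • x : S) : ℕ → ℂ) = fun n => (r : ℂ) * (x : ℕ → ℂ) n := by
  funext n
  show r • (x : ℕ → ℂ) n = _
  rw [Complex.real_smul]

/-- a real linear functional of the Petersson product, as a bilinear form -/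
noncomputable def discf_pet (hP : ST_PET) (hF : ST_FCL) (hN : 1 ≤ N) (hS : ∀ b, b ∈ S ↔ Cusp N b)
    (W : ℂ → ℝ) (hW : WOK N W) (θ : ℂ →ₗ[ℝ] ℝ) : S →ₗ[ℝ] S →ₗ[ℝ] ℝ :=
  LinearMap.mk₂ ℝ (fun b b' => θ (pet W (b : ℕ → ℂ) (b' : ℕ → ℂ)))
    (by
      intro x y z
      have h := discf_pet_add hP hN W hW _ _ _ ((hS _).1 x.2) ((hS _).1 y.2) ((hS _).1 z.2)
      have e : ((x + y : S) : ℕ → ℂ) = fun n => (x : ℕ → ℂ) n + (y : ℕ → ℂ) n := rfl
      rw [e, h, map_add])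
    (by
      intro r x y
      have h := discf_pet_smul hP hN W hW _ _ ((hS _).1 x.2) ((hS _).1 y.2) (r : ℂ)
      rw [discf_coe_smul, h, ← Complex.real_smul, map_smul])
    (by
      intro x y z
      have h := discf_pet_add' hP hF hN W hW _ _ _ ((hS _).1 x.2) ((hS _).1 y.2) ((hS _).1 z.2)
      have e : ((y + z : S) : ℕ → ℂ) = fun n => (y : ℕ → ℂ) n + (z : ℕ → ℂ) n := rfl
      rw [e, h, map_add])
    (by
      intro r x y
      have h := discf_pet_smul' hP hF hN W hW _ _ ((hS _).1 x.2) ((hS _).1 y.2) r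
      rw [discf_coe_smul, h, ← Complex.real_smul, map_smul])

theorem discf_pet_apply (hP : ST_PET) (hF : ST_FCL) (hN : 1 ≤ N) (hS : ∀ b, b ∈ S ↔ Cusp N b)
    (W : ℂ → ℝ) (hW : WOK N W) (θ : ℂ →ₗ[ℝ] ℝ) (x y : S) :
    discf_pet hP hF hN hS W hW θ x y = θ (pet W (x : ℕ → ℂ) (y : ℕ → ℂ)) := rfl

/-- the Hecke operators are symmetric and bounded -/
theorem discf_A_pet (hH : ST_HECKE) (hP : ST_PET) (hF : ST_FCL) (hA : ST_PADJ) (hN : 1 ≤ N)
    (hS : ∀ b, b ∈ S ↔ Cusp N b) (W : ℂ → ℝ) (hW : WOK N W) (a : ℕ → ℤ) (l : ℕ) (h1 : l.Prime)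
    (h2 : ¬ l ∣ N) (x y : S) :
    pet W ((discf_A hH hN hS a l x : S) : ℕ → ℂ) (y : ℕ → ℂ) =
      pet W (x : ℕ → ℂ) ((discf_A hH hN hS a l y : S) : ℕ → ℂ) := by
  have hx := (hS _).1 x.2
  have hy := (hS _).1 y.2
  have hTx := hH N l _ hN h1 h2 hx
  have hTy := hH N l _ hN h1 h2 hy
  have e1 : ((discf_A hH hN hS a l x : S) : ℕ → ℂ) =
      fun n => Tl l (x : ℕ → ℂ) n + (fun n => ((-(a l : ℝ) : ℝ) : ℂ) * (x : ℕ → ℂ) n) n := by
    rw [discf_A_apply hH hN hS a l h1 h2]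
    funext n
    push_cast
    ring
  have e2 : ((discf_A hH hN hS a l y : S) : ℕ → ℂ) =
      fun n => Tl l (y : ℕ → ℂ) n + (fun n => ((-(a l : ℝ) : ℝ) : ℂ) * (y : ℕ → ℂ) n) n := by
    rw [discf_A_apply hH hN hS a l h1 h2]
    funext n
    push_cast
    ring
  have hcx := (hF N _ _ ((-(a l : ℝ) : ℝ) : ℂ) hN hx hx).2.1
  have hcy := (hF N _ _ ((-(a l : ℝ) : ℝ) : ℂ) hN hy hy).2.1
  rw [e1, e2, discf_pet_add hP hN W hW _ _ _ hTx hcx hy, discf_pet_add' hP hF hN W hW _ _ _ hx hTy hcy,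
    (hA N l W hN hW h1 h2 _ _ hx hy).1, discf_pet_smul hP hN W hW _ _ hx hy,
    discf_pet_smul' hP hF hN W hW _ _ hx hy]

theorem discf_pet_sq (hP : ST_PET) (hF : ST_FCL) (hN : 1 ≤ N) (W : ℂ → ℝ) (hW : WOK N W)
    (x y : ℕ → ℂ) (hx : Cusp N x) (hy : Cusp N y) (r : ℝ) :
    (pet W (fun n => x n + (fun n => (r : ℂ) * y n) n)
      (fun n => x n + (fun n => (r : ℂ) * y n) n)).re =
      (pet W x x).re + 2 * r * (pet W x y).re + r ^ 2 * (pet W y y).re := by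
  have hry := (hF N _ _ (r : ℂ) hN hy hy).2.1
  have hs := (hF N _ _ 1 hN hx hry).1
  rw [discf_pet_add hP hN W hW _ _ _ hx hry hs, discf_pet_add' hP hF hN W hW _ _ _ hx hx hry,
    discf_pet_add' hP hF hN W hW _ _ _ hry hx hry, discf_pet_smul hP hN W hW _ _ hy hx,
    discf_pet_smul' hP hF hN W hW _ _ hx hy, discf_pet_smul' hP hF hN W hW _ _ hry hy,
    discf_pet_smul hP hN W hW _ _ hy hy, discf_pet_conj hP hN W hW _ _ hx hy]
  simp only [Complex.add_re, Complex.mul_re, Complex.ofReal_re, Complex.ofReal_im, zero_mul,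
    sub_zero, Complex.conj_re, Complex.mul_im, add_zero]
  ring

theorem discf_pet_nonneg (hP : ST_PET) (hN : 1 ≤ N) (W : ℂ → ℝ) (hW : WOK N W) (x : ℕ → ℂ)
    (hx : Cusp N x) : 0 ≤ (pet W x x).re := by
  obtain ⟨C0, hC0, hP⟩ := hP
  exact (hP N W hN hW _ _ _ hx hx hx).2.2.2.2.2.1

theorem discf_pet_pos (hP : ST_PET) (hN : 1 ≤ N) (W : ℂ → ℝ) (hW : WOK N W) (x : ℕ → ℂ)
    (hx : Cusp N x) (n : ℕ) (hn : x n ≠ 0) : 0 < (pet W x x).re := by
  obtain ⟨C0, hC0, hP⟩ := hP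
  have h := hP N W hN hW _ _ _ hx hx hx
  rcases h.2.2.2.2.2.1.lt_or_eq with h1 | h1
  · exact h1
  · exact absurd (h.2.2.2.2.2.2.1 h1.symm n) hn

theorem discf_Tf (a : ℕ → ℤ) (ha : Newform N a) (l : ℕ) (h1 : l.Prime) (h2 : ¬ l ∣ N) (n : ℕ) :
    Tl l (fun k => (a k : ℂ)) n = (a l : ℂ) * (a n : ℂ) := by
  have h := ha.hecke l h1 h2 n
  have h3 := congrArg (fun z : ℤ => (z : ℂ)) h
  simp only [Tl]
  push_cast at h3
  rw [← h3]

theorem discf_al (hP : ST_PET) (hF : ST_FCL) (hA : ST_PADJ) (hN : 1 ≤ N) (W : ℂ → ℝ) (hW : WOK N W)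
    (a : ℕ → ℤ) (ha : Newform N a) (l : ℕ) (h1 : l.Prime) (h2 : ¬ l ∣ N) :
    (a l : ℝ) ^ 2 ≤ ((l : ℝ) + 1) ^ 2 := by
  have hf := ha.cusp
  have h3 := (hA N l W hN hW h1 h2 _ _ hf hf).2
  have e : Tl l (fun k => (a k : ℂ)) = fun n => ((a l : ℝ) : ℂ) * (fun k => (a k : ℂ)) n := by
    funext n
    rw [discf_Tf a ha l h1 h2 n]
    push_cast
    ring
  have hcf := (hF N _ _ ((a l : ℝ) : ℂ) hN hf hf).2.1
  rw [e, discf_pet_smul hP hN W hW _ _ hf hcf, discf_pet_smul' hP hF hN W hW _ _ hf hf] at h3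
  have hpos : 0 < (pet W (fun k => (a k : ℂ)) (fun k => (a k : ℂ))).re :=
    discf_pet_pos hP hN W hW _ hf 1 (by simp [ha.one])
  have e2 : (((a l : ℝ) : ℂ) * (((a l : ℝ) : ℂ) *
      pet W (fun k => (a k : ℂ)) (fun k => (a k : ℂ)))).re =
      (a l : ℝ) ^ 2 * (pet W (fun k => (a k : ℂ)) (fun k => (a k : ℂ))).re := by
    simp only [Complex.mul_re, Complex.ofReal_re, Complex.ofReal_im, zero_mul, sub_zero]
    ring
  rw [e2] at h3
  exact le_of_mul_le_mul_right h3 hpos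

theorem discf_A_norm (hH : ST_HECKE) (hP : ST_PET) (hF : ST_FCL) (hA : ST_PADJ) (hN : 1 ≤ N)
    (hS : ∀ b, b ∈ S ↔ Cusp N b) (W : ℂ → ℝ) (hW : WOK N W) (a : ℕ → ℤ) (ha : Newform N a) (l : ℕ)
    (h1 : l.Prime) (h2 : ¬ l ∣ N) (c : ℝ) (hc : 2 * ((l : ℝ) + 1) ≤ c) (x : S) :
    (pet W ((discf_A hH hN hS a l x : S) : ℕ → ℂ) ((discf_A hH hN hS a l x : S) : ℕ → ℂ)).re ≤
      c ^ 2 * (pet W (x : ℕ → ℂ) (x : ℕ → ℂ)).re := by
  have hx := (hS _).1 x.2
  have hTx := hH N l _ hN h1 h2 hx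
  have e1 : ((discf_A hH hN hS a l x : S) : ℕ → ℂ) =
      fun n => Tl l (x : ℕ → ℂ) n + (fun n => ((-(a l : ℝ) : ℝ) : ℂ) * (x : ℕ → ℂ) n) n := by
    rw [discf_A_apply hH hN hS a l h1 h2]
    funext n
    push_cast
    ring
  have q1 := discf_pet_sq hP hF hN W hW _ _ hTx hx (-(a l : ℝ))
  have q2 := discf_pet_sq hP hF hN W hW _ _ hTx hx (a l : ℝ)
  have hax := (hF N _ _ ((a l : ℝ) : ℂ) hN hx hx).2.1
  have hn := discf_pet_nonneg hP hN W hW _ ((hF N _ _ 1 hN hTx hax).1)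
  rw [q2] at hn
  have hb := (hA N l W hN hW h1 h2 _ _ hx hx).2
  have hal := discf_al hP hF hA hN W hW a ha l h1 h2
  have hxx := discf_pet_nonneg hP hN W hW _ hx
  rw [e1, q1]
  have hl0 : (0 : ℝ) ≤ l := Nat.cast_nonneg l
  have hcc : 4 * ((l : ℝ) + 1) ^ 2 ≤ c ^ 2 := by nlinarith
  have h5 : (a l : ℝ) ^ 2 * (pet W (x : ℕ → ℂ) (x : ℕ → ℂ)).re ≤
      ((l : ℝ) + 1) ^ 2 * (pet W (x : ℕ → ℂ) (x : ℕ → ℂ)).re := mul_le_mul_of_nonneg_right hal hxx
  have h6 : 4 * ((l : ℝ) + 1) ^ 2 * (pet W (x : ℕ → ℂ) (x : ℕ → ℂ)).re ≤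
      c ^ 2 * (pet W (x : ℕ → ℂ) (x : ℕ → ℂ)).re := mul_le_mul_of_nonneg_right hcc hxx
  nlinarith

theorem discf_mo_mem (A B C D : ℤ) (h : 0 < A * D - B * C) (z : ℂ) (hz : z ∈ UH) :
    mo A B C D z ∈ UH := by
  have hne : (C : ℂ) * z + (D : ℂ) ≠ 0 := by
    intro h0
    have him : ((C : ℂ) * z + (D : ℂ)).im = 0 := by rw [h0]; simp
    have hre : ((C : ℂ) * z + (D : ℂ)).re = 0 := by rw [h0]; simp
    simp at him hre
    rcases him with h1 | h1
    · rw [h1] at hre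
      simp at hre
      rw [h1, hre] at h
      simp at h
    · exact absurd h1 (ne_of_gt hz)
  show 0 < (mo A B C D z).im
  rw [Lib.mo_im A B C D z hne]
  have h1 : (0 : ℝ) < ((A * D - B * C : ℤ) : ℝ) := by exact_mod_cast h
  have h2 : (0 : ℝ) < ‖(C : ℂ) * z + (D : ℂ)‖ := norm_pos_iff.2 hne
  have hz' : 0 < z.im := hz
  positivity

theorem discf_UD_pos (hN : 1 ≤ N) (Q : ℕ) (hQ : Q ∈ UD N) : 1 ≤ Q := by
  have h1 : Q ∣ N := (Nat.mem_divisors.1 (Finset.mem_filter.1 hQ).1).1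
  exact Nat.pos_of_dvd_of_pos h1 hN

theorem discf_EW_add (hF : ST_FCL) (hN : 1 ≤ N) (χ : ℕ → ℝ) (x y : ℕ → ℂ) (hx : Cusp N x)
    (hy : Cusp N y) (h1 : EW N χ x) (h2 : EW N χ y) : EW N χ (fun n => x n + y n) := by
  intro Q hQ A B C D hT z hz
  have hQ1 := discf_UD_pos hN Q hQ
  have hdet : 0 < A * D - B * C := by
    rw [hT.1]
    have : (1 : ℤ) ≤ Q := by exact_mod_cast hQ1
    linarith
  have hm := discf_mo_mem A B C D hdet z hz
  have e1 := h1 Q hQ A B C D hT z hz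
  have e2 := h2 Q hQ A B C D hT z hz
  have hcx := (hF N x x (χ Q : ℂ) hN hx hx).2.1
  have hcy := (hF N y y (χ Q : ℂ) hN hy hy).2.1
  have e3 := (hF N _ _ 1 hN hcx hcy).2.2.2.2.1 z hz
  have e4 := (hF N _ _ 1 hN hx hy).2.2.2.2.1 _ hm
  have e5 : (fun n => (χ Q : ℂ) * (x n + y n)) =
      fun n => (fun n => (χ Q : ℂ) * x n) n + (fun n => (χ Q : ℂ) * y n) n := by
    funext n; ring
  show qs (fun n => (χ Q : ℂ) * (x n + y n)) z = _
  rw [e5, e3, e1, e2, e4]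
  ring

theorem discf_EW_smul (hF : ST_FCL) (hN : 1 ≤ N) (χ : ℕ → ℝ) (x : ℕ → ℂ) (hx : Cusp N x)
    (h1 : EW N χ x) (c : ℂ) : EW N χ (fun n => c * x n) := by
  intro Q hQ A B C D hT z hz
  have hQ1 := discf_UD_pos hN Q hQ
  have hdet : 0 < A * D - B * C := by
    rw [hT.1]
    have : (1 : ℤ) ≤ Q := by exact_mod_cast hQ1
    linarith
  have hm := discf_mo_mem A B C D hdet z hz
  have e1 := h1 Q hQ A B C D hT z hz
  have hcx := (hF N x x (χ Q : ℂ) hN hx hx).2.1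
  have e3 := (hF N _ _ c hN hcx hcx).2.2.2.2.2 z hz
  have e4 := (hF N _ _ c hN hx hx).2.2.2.2.2 _ hm
  have e5 : (fun n => (χ Q : ℂ) * (c * x n)) = fun n => c * (fun n => (χ Q : ℂ) * x n) n := by
    funext n; ring
  show qs (fun n => (χ Q : ℂ) * (c * x n)) z = _
  rw [e5, e3, e1, e4]
  ring

theorem discf_EW_T (hF : ST_FCL) (hT : ST_WTL) (hN : 1 ≤ N) (χ : ℕ → ℝ) (x : ℕ → ℂ)
    (hx : Cusp N x) (h : EW N χ x) (l : ℕ) (h1 : l.Prime) (h2 : ¬ l ∣ N) : EW N χ (Tl l x) := by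
  intro Q hQ
  have hcx := (hF N x x (χ Q : ℂ) hN hx hx).2.1
  have h3 := hT N Q l x _ hN hQ h1 h2 hx hcx (h Q hQ)
  have e : (fun n => (χ Q : ℂ) * Tl l x n) = Tl l (fun n => (χ Q : ℂ) * x n) := by
    funext n
    simp only [Tl]
    split_ifs <;> ring
  rw [e]
  exact h3

theorem discf_EW_A (hH : ST_HECKE) (hF : ST_FCL) (hT : ST_WTL) (hN : 1 ≤ N)
    (hS : ∀ b, b ∈ S ↔ Cusp N b) (a : ℕ → ℤ) (χ : ℕ → ℝ) (x : S) (h : EW N χ (x : ℕ → ℂ)) (l : ℕ)
    (h1 : l.Prime) (h2 : ¬ l ∣ N) : EW N χ ((discf_A hH hN hS a l x : S) : ℕ → ℂ) := by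
  have hx := (hS _).1 x.2
  have hTx := hH N l _ hN h1 h2 hx
  have e1 : ((discf_A hH hN hS a l x : S) : ℕ → ℂ) =
      fun n => Tl l (x : ℕ → ℂ) n + (fun n => ((-(a l : ℝ) : ℝ) : ℂ) * (x : ℕ → ℂ) n) n := by
    rw [discf_A_apply hH hN hS a l h1 h2]
    funext n
    push_cast
    ring
  rw [e1]
  have hax := (hF N _ _ ((-(a l : ℝ) : ℝ) : ℂ) hN hx hx).2.1
  exact discf_EW_add hF hN χ _ _ hTx hax (discf_EW_T hF hT hN χ _ hx h l h1 h2)
    (discf_EW_smul hF hN χ _ hx h _)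

theorem discf_Lc_add (hF : ST_FCL) (hN : 1 ≤ N) (x y : ℕ → ℂ) (hx : x ∈ Lc N) (hy : y ∈ Lc N) :
    (fun n => x n + y n) ∈ Lc N := by
  have h := hF N x y 1 hN hx.1 hy.1
  refine ⟨h.1, fun p q r s hG => ?_⟩
  obtain ⟨k, hk⟩ := hx.2 p q r s hG
  obtain ⟨j, hj⟩ := hy.2 p q r s hG
  refine ⟨k + j, ?_⟩
  rw [h.2.2.1, h.2.2.1]
  push_cast
  rw [← hk, ← hj]
  simp only [Complex.sub_re, Complex.add_re]
  ring

theorem discf_Lc_int (hF : ST_FCL) (hN : 1 ≤ N) (x : ℕ → ℂ) (hx : x ∈ Lc N) (m : ℤ) :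
    (fun n => (m : ℂ) * x n) ∈ Lc N := by
  have h := hF N x x (m : ℂ) hN hx.1 hx.1
  refine ⟨h.2.1, fun p q r s hG => ?_⟩
  obtain ⟨k, hk⟩ := hx.2 p q r s hG
  refine ⟨m * k, ?_⟩
  rw [h.2.2.2.1, h.2.2.2.1, ← mul_sub]
  push_cast
  rw [← hk]
  simp

/-- the lattice of cusp forms with integral real periods -/
noncomputable def discf_L (S : Submodule ℂ (ℕ → ℂ)) (hF : ST_FCL) (hN : 1 ≤ N)
    (f : ℕ → ℂ) (hf : Cusp N f) : AddSubgroup S where
  carrier := {b : S | (b : ℕ → ℂ) ∈ Lc N}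
  add_mem' := by
    intro x y hx hy
    exact discf_Lc_add hF hN _ _ hx hy
  zero_mem' := by
    show ((0 : S) : ℕ → ℂ) ∈ Lc N
    have h := hF N f f 0 hN hf hf
    have e : ((0 : S) : ℕ → ℂ) = fun n => (0 : ℂ) * f n := by
      funext n; simp
    rw [e]
    refine ⟨h.2.1, fun p q r s _ => ⟨0, ?_⟩⟩
    rw [h.2.2.2.1, h.2.2.2.1]
    simp
  neg_mem' := by
    intro x hx
    show ((-x : S) : ℕ → ℂ) ∈ Lc N
    have e : ((-x : S) : ℕ → ℂ) = fun n => (((-1 : ℤ) : ℤ) : ℂ) * (x : ℕ → ℂ) n := by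
      funext n
      simp
    rw [e]
    exact discf_Lc_int hF hN _ hx (-1)

theorem discf_Lc_A (hH : ST_HECKE) (hF : ST_FCL) (hL : ST_WLC) (hN : 1 ≤ N)
    (hS : ∀ b, b ∈ S ↔ Cusp N b) (a : ℕ → ℤ) (x : S) (h : (x : ℕ → ℂ) ∈ Lc N) (l : ℕ)
    (h1 : l.Prime) (h2 : ¬ l ∣ N) : ((discf_A hH hN hS a l x : S) : ℕ → ℂ) ∈ Lc N := by
  have hT := hL.2 N l _ hN h1 h2 h
  have e1 : ((discf_A hH hN hS a l x : S) : ℕ → ℂ) =
      fun n => Tl l (x : ℕ → ℂ) n + (fun n => ((-(a l) : ℤ) : ℂ) * (x : ℕ → ℂ) n) n := by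
    rw [discf_A_apply hH hN hS a l h1 h2]
    funext n
    push_cast
    ring
  rw [e1]
  exact discf_Lc_add hF hN _ _ hT (discf_Lc_int hF hN _ h _)

/-- real eigenspace of the Atkin-Lehner operators -/
noncomputable def discf_U (hF : ST_FCL) (hN : 1 ≤ N) (hS : ∀ b, b ∈ S ↔ Cusp N b)
    (χ : ℕ → ℝ) (f : ℕ → ℂ) (hf : Cusp N f) (hχ : EW N χ f) : Submodule ℝ S where
  carrier := {b : S | EW N χ (b : ℕ → ℂ)}
  add_mem' := by
    intro x y hx hy
    exact discf_EW_add hF hN χ _ _ ((hS _).1 x.2) ((hS _).1 y.2) hx hy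
  zero_mem' := by
    show EW N χ ((0 : S) : ℕ → ℂ)
    have e : ((0 : S) : ℕ → ℂ) = fun n => (0 : ℂ) * f n := by
      funext n; simp
    rw [e]
    exact discf_EW_smul hF hN χ f hf hχ 0
  smul_mem' := by
    intro r x hx
    show EW N χ ((r • x : S) : ℕ → ℂ)
    rw [discf_coe_smul]
    exact discf_EW_smul hF hN χ _ ((hS _).1 x.2) hx _

/-- complex eigenspace of the Atkin-Lehner operators and of `T_p` -/
theorem discf_UC (hF : ST_FCL) (hN : 1 ≤ N) (χ : ℕ → ℝ) (f : ℕ → ℂ) (hf : Cusp N f)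
    (hχ : EW N χ f) : ∃ S1 : Submodule ℂ (ℕ → ℂ), ∀ b, b ∈ S1 ↔ (Cusp N b ∧ EW N χ b) := by
  refine ⟨{ carrier := {b | Cusp N b ∧ EW N χ b}
            add_mem' := ?_
            zero_mem' := ?_
            smul_mem' := ?_ }, fun b => Iff.rfl⟩
  · intro x y hx hy
    exact ⟨(hF N x y 1 hN hx.1 hy.1).1, discf_EW_add hF hN χ _ _ hx.1 hy.1 hx.2 hy.2⟩
  · show Cusp N (0 : ℕ → ℂ) ∧ EW N χ (0 : ℕ → ℂ)
    have e : (0 : ℕ → ℂ) = fun n => (0 : ℂ) * f n := by
      funext n; simp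
    rw [e]
    exact ⟨(hF N f f 0 hN hf hf).2.1, discf_EW_smul hF hN χ f hf hχ 0⟩
  · intro c x hx
    exact ⟨(hF N x x c hN hx.1 hx.1).2.1, discf_EW_smul hF hN χ x hx.1 hx.2 c⟩

theorem discf_UCp (hF : ST_FCL) (hN : 1 ≤ N) (χ : ℕ → ℝ) (f : ℕ → ℂ) (hf : Cusp N f)
    (hχ : EW N χ f) (p : ℕ) (α : ℝ) : ∃ S1 : Submodule ℂ (ℕ → ℂ),
    ∀ b, b ∈ S1 ↔ (Cusp N b ∧ EW N χ b ∧ ∀ n, Tl p b n = (α : ℂ) * b n) := by
  refine ⟨{ carrier := {b | Cusp N b ∧ EW N χ b ∧ ∀ n, Tl p b n = (α : ℂ) * b n}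
            add_mem' := ?_
            zero_mem' := ?_
            smul_mem' := ?_ }, fun b => Iff.rfl⟩
  · intro x y hx hy
    refine ⟨(hF N x y 1 hN hx.1 hy.1).1, discf_EW_add hF hN χ _ _ hx.1 hy.1 hx.2.1 hy.2.1,
      fun n => ?_⟩
    have h1 := hx.2.2 n
    have h2 := hy.2.2 n
    have e : Tl p (x + y) n = Tl p x n + Tl p y n := by
      simp only [Tl, Pi.add_apply]
      split_ifs <;> ring
    rw [e, h1, h2, Pi.add_apply]
    ring
  · show Cusp N (0 : ℕ → ℂ) ∧ EW N χ (0 : ℕ → ℂ) ∧ _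
    have e : (0 : ℕ → ℂ) = fun n => (0 : ℂ) * f n := by
      funext n; simp
    refine ⟨?_, ?_, fun n => ?_⟩
    · rw [e]; exact (hF N f f 0 hN hf hf).2.1
    · rw [e]; exact discf_EW_smul hF hN χ f hf hχ 0
    · simp [Tl]
  · intro c x hx
    refine ⟨(hF N x x c hN hx.1 hx.1).2.1, discf_EW_smul hF hN χ x hx.1 hx.2.1 c, fun n => ?_⟩
    have h1 := hx.2.2 n
    have e : Tl p (c • x) n = c * Tl p x n := by
      simp only [Tl, Pi.smul_apply, smul_eq_mul]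
      split_ifs <;> ring
    rw [e, h1, Pi.smul_apply, smul_eq_mul]
    ring

/-- real rank of a family contained in a complex subspace -/
theorem discf_rank [FiniteDimensional ℂ S] (S1 : Submodule ℂ (ℕ → ℂ)) (hS1 : S1 ≤ S) (m : ℕ)
    (e : Fin m → S) (he : LinearIndependent ℝ e) (hm : ∀ i, (e i : ℕ → ℂ) ∈ S1) :
    m ≤ 2 * Module.finrank ℂ S1 := by
  have : FiniteDimensional ℂ S1 := Submodule.finiteDimensional_of_le hS1
  have : Module.Finite ℝ S1 := Module.Finite.trans ℂ S1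
  have h1 : Module.finrank ℝ ℂ * Module.finrank ℂ S1 = Module.finrank ℝ S1 :=
    Module.finrank_mul_finrank ℝ ℂ S1
  rw [Complex.finrank_real_complex] at h1
  rw [h1]
  let g : Fin m → S1 := fun i => ⟨(e i : ℕ → ℂ), hm i⟩
  have hg : LinearIndependent ℝ g := by
    rw [Fintype.linearIndependent_iff] at he ⊢
    intro k hk
    apply he k
    apply Subtype.ext
    have h2 := congrArg (fun x : S1 => (x : ℕ → ℂ)) hk
    funext n
    have h3 := congrFun h2 n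
    simpa [g] using h3
  simpa using hg.fintype_card_le_finrank

end concrete

theorem discf_num (C0 x D0 D1 D2 : ℝ) (m0 m1 m2 N p k : ℕ) (hC0 : 0 < C0) (hx : 0 ≤ x)
    (hp : 2 ≤ p) (hN : 1 ≤ N) (h0 : |D0| ≤ (2 * ((2 ^ k : ℕ) : ℝ)) ^ m0)
    (h1 : |D1| ≤ |D0| * (2 * ((p : ℝ) + 1)) ^ (2 * (m0 - m1)))
    (h2 : |D2| ≤ |D1| * (2 * ((N : ℝ) ^ 6 + 1)) ^ (2 * (m1 - m2)))
    (hm0 : (m0 : ℝ) ≤ 2 * (C0 * x))
    (hm1 : (m1 : ℝ) ≤ 2 * (C0 * x * Real.log p / Real.log (N + 1))) :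
    |D2| ≤ Real.exp (44 * C0 * x * (1 + k + Real.log p)) := by
  have hp' : (2 : ℝ) ≤ p := by exact_mod_cast hp
  have hN' : (1 : ℝ) ≤ N := by exact_mod_cast hN
  have hlp : 0 ≤ Real.log p := Real.log_nonneg (by linarith)
  have hlN : 0 < Real.log ((N : ℝ) + 1) := Real.log_pos (by linarith)
  -- first factor
  have b0 : (2 * ((2 ^ k : ℕ) : ℝ)) ^ m0 ≤ Real.exp (m0 * (1 + k)) := by
    have e1 : (2 : ℝ) ≤ Real.exp 1 := by
      have := Real.add_one_le_exp (1 : ℝ); linarith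
    have e2 : (2 * ((2 ^ k : ℕ) : ℝ)) ≤ Real.exp (1 + k) := by
      push_cast
      calc (2 : ℝ) * 2 ^ k = 2 ^ (k + 1) := by ring
        _ ≤ (Real.exp 1) ^ (k + 1) := pow_le_pow_left₀ (by norm_num) e1 _
        _ = Real.exp (1 + k) := by
            rw [← Real.exp_nat_mul]; congr 1; push_cast; ring
    calc (2 * ((2 ^ k : ℕ) : ℝ)) ^ m0 ≤ (Real.exp (1 + k)) ^ m0 :=
          pow_le_pow_left₀ (by positivity) e2 _
      _ = Real.exp (m0 * (1 + k)) := by rw [← Real.exp_nat_mul]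
  have b1 : (2 * ((p : ℝ) + 1)) ^ (2 * (m0 - m1)) ≤ Real.exp (6 * m0 * Real.log p) := by
    have e2 : 2 * ((p : ℝ) + 1) ≤ (p : ℝ) ^ 3 := by nlinarith [sq_nonneg ((p : ℝ) - 2)]
    have e3 : (1 : ℝ) ≤ 2 * ((p : ℝ) + 1) := by linarith
    calc (2 * ((p : ℝ) + 1)) ^ (2 * (m0 - m1)) ≤ (2 * ((p : ℝ) + 1)) ^ (2 * m0) :=
          pow_le_pow_right₀ e3 (by omega)
      _ ≤ ((p : ℝ) ^ 3) ^ (2 * m0) := pow_le_pow_left₀ (by positivity) e2 _
      _ = Real.exp (6 * m0 * Real.log p) := by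
          rw [← pow_mul, ← Real.exp_log (show (0 : ℝ) < p by linarith), ← Real.exp_nat_mul]
          rw [Real.log_exp]
          congr 1
          push_cast
          ring
  have b2 : (2 * ((N : ℝ) ^ 6 + 1)) ^ (2 * (m1 - m2)) ≤
      Real.exp (16 * m1 * Real.log ((N : ℝ) + 1)) := by
    have e2 : 2 * ((N : ℝ) ^ 6 + 1) ≤ ((N : ℝ) + 1) ^ 8 := by
      have f1 : (N : ℝ) ^ 6 ≤ ((N : ℝ) + 1) ^ 6 := pow_le_pow_left₀ (by linarith) (by linarith) _
      have f2 : (1 : ℝ) ≤ ((N : ℝ) + 1) ^ 6 := one_le_pow₀ (by linarith)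
      have f3 : (4 : ℝ) ≤ ((N : ℝ) + 1) ^ 2 := by nlinarith
      have f4 : ((N : ℝ) + 1) ^ 8 = ((N : ℝ) + 1) ^ 6 * ((N : ℝ) + 1) ^ 2 := by ring
      rw [f4]
      nlinarith
    have e3 : (1 : ℝ) ≤ 2 * ((N : ℝ) ^ 6 + 1) := by
      have : (0 : ℝ) ≤ (N : ℝ) ^ 6 := by positivity
      linarith
    calc (2 * ((N : ℝ) ^ 6 + 1)) ^ (2 * (m1 - m2)) ≤ (2 * ((N : ℝ) ^ 6 + 1)) ^ (2 * m1) :=
          pow_le_pow_right₀ e3 (by omega)
      _ ≤ (((N : ℝ) + 1) ^ 8) ^ (2 * m1) := pow_le_pow_left₀ (by positivity) e2 _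
      _ = Real.exp (16 * m1 * Real.log ((N : ℝ) + 1)) := by
          rw [← pow_mul]
          have e4 : (N : ℝ) + 1 = Real.exp (Real.log ((N : ℝ) + 1)) :=
            (Real.exp_log (by linarith)).symm
          calc ((N : ℝ) + 1) ^ (8 * (2 * m1)) =
                (Real.exp (Real.log ((N : ℝ) + 1))) ^ (8 * (2 * m1)) := by rw [← e4]
            _ = Real.exp (16 * m1 * Real.log ((N : ℝ) + 1)) := by
                rw [← Real.exp_nat_mul]
                congr 1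
                push_cast
                ring
  have hmain : |D2| ≤ Real.exp (m0 * (1 + k)) * Real.exp (6 * m0 * Real.log p) *
      Real.exp (16 * m1 * Real.log ((N : ℝ) + 1)) := by
    calc |D2| ≤ |D1| * (2 * ((N : ℝ) ^ 6 + 1)) ^ (2 * (m1 - m2)) := h2
      _ ≤ (|D0| * (2 * ((p : ℝ) + 1)) ^ (2 * (m0 - m1))) *
            (2 * ((N : ℝ) ^ 6 + 1)) ^ (2 * (m1 - m2)) :=
          mul_le_mul_of_nonneg_right h1 (by positivity)
      _ ≤ _ := by
          apply mul_le_mul _ b2 (by positivity) (by positivity)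
          exact mul_le_mul (h0.trans b0) b1 (by positivity) (by positivity)
  refine hmain.trans ?_
  rw [← Real.exp_add, ← Real.exp_add]
  apply Real.exp_le_exp.2
  have t1 : (m0 : ℝ) * (1 + k) ≤ 2 * (C0 * x) * (1 + k) :=
    mul_le_mul_of_nonneg_right hm0 (by positivity)
  have t2 : 6 * (m0 : ℝ) * Real.log p ≤ 6 * (2 * (C0 * x)) * Real.log p :=
    mul_le_mul_of_nonneg_right (by linarith) hlp
  have t3 : 16 * (m1 : ℝ) * Real.log ((N : ℝ) + 1) ≤ 32 * (C0 * x * Real.log p) := by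
    have t4 : (m1 : ℝ) * Real.log ((N : ℝ) + 1) ≤ 2 * (C0 * x * Real.log p) := by
      calc (m1 : ℝ) * Real.log ((N : ℝ) + 1) ≤
            2 * (C0 * x * Real.log p / Real.log (N + 1)) * Real.log ((N : ℝ) + 1) :=
            mul_le_mul_of_nonneg_right hm1 hlN.le
        _ = 2 * (C0 * x * Real.log p) := by field_simp
    linarith
  have hCx : 0 ≤ C0 * x := mul_nonneg hC0.le hx
  have t5 : 0 ≤ C0 * x * (1 + k) := mul_nonneg hCx (by positivity)
  nlinarith [mul_nonneg hCx hlp]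

/-- DISCF -/
theorem st_DISCF (hL : ST_LATC) (hC : ST_CHI) (hK : ST_KERN) (hPW : ST_PIW) (hSG : ST_SGN)
    (hI : ST_INT) (hHab : ST_HAB) (hP : ST_PET) (hA : ST_PADJ) (hWL : ST_WLC) (hF : ST_FCL)
    (hWT : ST_WT) (hFD : ST_FD) (hH : ST_HECKE) (hM : ST_MONE) (hD : ST_AMDW) (hUD : ST_UDC)
    (hT : ST_WTL) : ST_DISCF := by
  classical
  obtain ⟨C0, hC0, hD⟩ := hD
  obtain ⟨c, hc⟩ := hHab
  refine ⟨44 * C0, by positivity, ?_⟩
  intro N p a hN hp hpN ha
  obtain ⟨S, hS, hSfin⟩ := hFD N hN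
  obtain ⟨W, hW⟩ := hWT N hN
  obtain ⟨χ, hχ, hχf⟩ := hSG N a hN ha
  have hf := ha.cusp
  have hSR : Module.Finite ℝ S := Module.Finite.trans ℂ S
  obtain ⟨m00, e00, he00⟩ := hL N S hN hS
  obtain ⟨P, hP1, hP2, hP3, hP4⟩ := hPW N χ S hN hχ hS
  -- the two forms
  set B := discf_pet hP hF hN hS W hW ((2 * c) • Complex.imLm) with hBdef
  set ip := discf_pet hP hF hN hS W hW Complex.reLm with hipdef
  have hBapp : ∀ x y : S, B x y = 2 * c * (pet W (x : ℕ → ℂ) (y : ℕ → ℂ)).im := fun x y => rfl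
  have hipapp : ∀ x y : S, ip x y = (pet W (x : ℕ → ℂ) (y : ℕ → ℂ)).re := fun x y => rfl
  have hBc : ∀ x y : S, B x y = 2 * Bc N (x : ℕ → ℂ) (y : ℕ → ℂ) := by
    intro x y
    rw [hBapp, hc N W hN hW _ _ ((hS _).1 x.2) ((hS _).1 y.2)]
    ring
  set L := discf_L S hF hN _ hf with hLdef
  have hLmem : ∀ x : S, x ∈ L ↔ (x : ℕ → ℂ) ∈ Lc N := fun x => Iff.rfl
  set U := discf_U hF hN hS χ _ hf hχf with hUdef
  have hUmem : ∀ x : S, x ∈ U ↔ EW N χ (x : ℕ → ℂ) := fun x => Iff.rfl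
  have hn1 : 1 ≤ (UD N).card := by
    rw [hUD N hN]; exact Nat.one_le_two_pow
  -- the isotypic sublattice
  have hBint : ∀ x ∈ L, ∀ y ∈ L, ∃ k : ℤ, B x y = k := by
    intro x hx y hy
    rw [hBc]
    exact (hI N hN).1 _ hx _ hy
  obtain ⟨m0, e0, he0, hd0, hb0⟩ := hC S B L (P.restrictScalars ℝ) U (UD N).card m00 e00 hn1 he00
    (fun x hx => hP3 x hx) (fun x => hP1 x)
    (by
      intro x hx
      have h := hP2 x hx
      show P x = _
      rw [h]
      apply Subtype.ext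
      rw [discf_coe_smul]
      funext n
      simp)
    (by
      intro x y
      show B (P x) y = B x (P y)
      rw [hBapp, hBapp, hP4 W hW x y])
    hBint
    (by
      intro y hy
      have h := (hI N hN).2 (y : ℕ → ℂ) ((hS _).1 y.2) (by
        intro b hb
        obtain ⟨k, hk⟩ := hy ⟨b, (hS _).2 hb.1⟩ hb
        refine ⟨k, ?_⟩
        rw [← hk, hBc])
      show (((2 : ℝ) • y : S) : ℕ → ℂ) ∈ Lc N
      rw [discf_coe_smul]
      simpa using h)
  -- Hecke operators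
  set A : ℕ → S →ₗ[ℝ] S := fun l => (discf_A hH hN hS a l).restrictScalars ℝ with hAdef
  have hAapp : ∀ l x, A l x = discf_A hH hN hS a l x := fun l x => rfl
  have hsymm : ∀ x y, ip x y = ip y x := by
    intro x y
    rw [hipapp, hipapp, discf_pet_conj hP hN W hW _ _ ((hS _).1 x.2) ((hS _).1 y.2),
      Complex.conj_re]
  have hpos : ∀ x, x ≠ 0 → 0 < ip x x := by
    intro x hx
    have : ∃ n, (x : ℕ → ℂ) n ≠ 0 := by
      by_contra h
      push Not at h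
      exact hx (Subtype.ext (funext h))
    obtain ⟨n, hn⟩ := this
    exact discf_pet_pos hP hN W hW _ ((hS _).1 x.2) n hn
  have hcomm : ∀ l l' x, A l (A l' x) = A l' (A l x) :=
    fun l l' x => discf_A_comm hH hN hS a l l' x
  have hAip : ∀ l : ℕ, l.Prime → ¬ l ∣ N → ∀ x y, ip (A l x) y = ip x (A l y) := by
    intro l h1 h2 x y
    rw [hipapp, hipapp, hAapp, hAapp, discf_A_pet hH hP hF hA hN hS W hW a l h1 h2]
  have hAB : ∀ l : ℕ, l.Prime → ¬ l ∣ N → ∀ x y, B (A l x) y = B x (A l y) := by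
    intro l h1 h2 x y
    rw [hBapp, hBapp, hAapp, hAapp, discf_A_pet hH hP hF hA hN hS W hW a l h1 h2]
  -- first step: the prime `p`
  obtain ⟨K1, m1, e1, hK1, hm1, he1, hd1, hb1⟩ := discf_iter hK S ip B L A U m0 e0
    (2 * ((p : ℝ) + 1)) (by have : (0 : ℝ) ≤ p := Nat.cast_nonneg p
                            linarith) he0 hsymm hpos hBint hd0 hcomm {p}
    (by
      intro l hl x hx
      rw [Finset.mem_singleton] at hl
      subst hl
      exact discf_Lc_A hH hF hWL hN hS a x hx l hp hpN)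
    (by
      intro l hl x hx
      rw [Finset.mem_singleton] at hl
      subst hl
      exact discf_EW_A hH hF hT hN hS a χ x hx l hp hpN)
    (by
      intro l hl x _ y _
      rw [Finset.mem_singleton] at hl
      subst hl
      exact hAip l hp hpN x y)
    (by
      intro l hl x _ y _
      rw [Finset.mem_singleton] at hl
      subst hl
      exact hAB l hp hpN x y)
    (by
      intro l hl x _
      rw [Finset.mem_singleton] at hl
      subst hl
      exact discf_A_norm hH hP hF hA hN hS W hW a ha l hp hpN _ le_rfl x)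
  -- second step: all primes up to `N ^ 6`
  set F : Finset ℕ := (Finset.range (N ^ 6 + 1)).filter (fun l => l.Prime ∧ ¬ l ∣ N) with hFdef
  have hFm : ∀ l ∈ F, l.Prime ∧ ¬ l ∣ N ∧ l ≤ N ^ 6 := by
    intro l hl
    rw [hFdef, Finset.mem_filter, Finset.mem_range] at hl
    exact ⟨hl.2.1, hl.2.2, by omega⟩
  obtain ⟨K2, m2, e2, hK2, hm2, he2, hd2, hb2⟩ := discf_iter hK S ip B L A K1 m1 e1
    (2 * ((N : ℝ) ^ 6 + 1)) (by have : (0 : ℝ) ≤ (N : ℝ) ^ 6 := by positivity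
                                linarith) he1 hsymm hpos hBint hd1 hcomm F
    (fun l hl x hx => discf_Lc_A hH hF hWL hN hS a x hx l (hFm l hl).1 (hFm l hl).2.1)
    (by
      intro l hl x hx
      rw [hK1] at hx ⊢
      refine ⟨discf_EW_A hH hF hT hN hS a χ x hx.1 l (hFm l hl).1 (hFm l hl).2.1,
        fun l' hl' => ?_⟩
      rw [hcomm, hx.2 l' hl', map_zero])
    (fun l hl x _ y _ => hAip l (hFm l hl).1 (hFm l hl).2.1 x y)
    (fun l hl x _ y _ => hAB l (hFm l hl).1 (hFm l hl).2.1 x y)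
    (fun l hl x _ => discf_A_norm hH hP hF hA hN hS W hW a ha l (hFm l hl).1 (hFm l hl).2.1 _
      (by
        have : (l : ℝ) ≤ (N : ℝ) ^ 6 := by exact_mod_cast (hFm l hl).2.2
        linarith) x)
  -- the final space
  set f : S := ⟨fun k => (a k : ℂ), (hS _).2 hf⟩ with hfdef
  have hK2' : ∀ x : S, x ∈ K2 ↔ ∃ κ : ℂ, x = κ • f := by
    intro x
    rw [hK2, hK1]
    constructor
    · rintro ⟨⟨h1, h2⟩, h3⟩
      obtain ⟨κ, hκ⟩ := hM N a hN ha (x : ℕ → ℂ) ((hS _).1 x.2) (by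
        intro l hl hlN hl6 n
        have h4 : l ∈ F := by
          rw [hFdef, Finset.mem_filter, Finset.mem_range]
          exact ⟨by omega, hl, hlN⟩
        exact (discf_A_ker hH hN hS a l hl hlN x).1 (h3 l h4) n)
      refine ⟨κ, Subtype.ext (funext fun n => ?_)⟩
      rw [hκ n]
      simp [hfdef]
    · rintro ⟨κ, rfl⟩
      have hE : EW N χ ((κ • f : S) : ℕ → ℂ) := discf_EW_smul hF hN χ _ hf hχf κ
      have hA0 : ∀ l : ℕ, l.Prime → ¬ l ∣ N → A l (κ • f) = 0 := by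
        intro l hl hlN
        rw [hAapp, discf_A_ker hH hN hS a l hl hlN]
        intro n
        have h4 := discf_Tf a ha l hl hlN n
        have h5 : Tl l ((κ • f : S) : ℕ → ℂ) n = κ * Tl l (fun k => (a k : ℂ)) n := by
          simp only [Tl, hfdef, SetLike.val_smul, Pi.smul_apply, smul_eq_mul]
          split_ifs <;> ring
        rw [h5, h4]
        simp only [hfdef, SetLike.val_smul, Pi.smul_apply, smul_eq_mul]
        ring
      refine ⟨⟨hE, fun l hl => ?_⟩, fun l hl => hA0 l (hFm l hl).1 (hFm l hl).2.1⟩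
      rw [Finset.mem_singleton] at hl
      rw [hl]
      exact hA0 p hp hpN
  -- its rank
  have hfinj : ∀ κ : ℂ, κ • f = 0 → κ = 0 := by
    intro κ h
    have h2 := congrArg (fun x : S => (x : ℕ → ℂ) 1) h
    simpa [hfdef, ha.one] using h2
  have hm2' : m2 = 2 := by
    let g : ℂ →ₗ[ℝ] S := (LinearMap.toSpanSingleton ℂ S f).restrictScalars ℝ
    have hgapp : ∀ κ, g κ = κ • f := fun κ => rfl
    have hginj : Function.Injective g := by
      rw [injective_iff_map_eq_zero]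
      intro κ h
      exact hfinj κ h
    have hr : LinearMap.range g = K2 := by
      ext x
      rw [LinearMap.mem_range, hK2']
      constructor
      · rintro ⟨κ, h⟩
        exact ⟨κ, h.symm⟩
      · rintro ⟨κ, h⟩
        exact ⟨κ, h.symm⟩
    have h1 : Module.finrank ℝ (LinearMap.range g) = 2 := by
      rw [LinearMap.finrank_range_of_inj hginj, Complex.finrank_real_complex]
    have h2 : Module.finrank ℝ (Submodule.span ℝ (Set.range e2)) = Fintype.card (Fin m2) :=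
      finrank_span_eq_card he2.li
    rw [he2.span, ← hr, h1, Fintype.card_fin] at h2
    exact h2.symm
  -- ranks
  have hx0 : 0 ≤ psi N / 2 ^ N.primeFactors.card := by
    have : 0 ≤ psi N := by
      unfold psi
      apply mul_nonneg (Nat.cast_nonneg N)
      apply Finset.prod_nonneg
      intro q _
      positivity
    positivity
  obtain ⟨S1, hS1⟩ := discf_UC hF hN χ _ hf hχf
  obtain ⟨S2, hS2⟩ := discf_UCp hF hN χ _ hf hχf p (a p : ℝ)
  have hr0 : (m0 : ℝ) ≤ 2 * (C0 * (psi N / 2 ^ N.primeFactors.card)) := by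
    have h1 : m0 ≤ 2 * Module.finrank ℂ S1 := by
      apply discf_rank S1 (fun b hb => (hS b).2 ((hS1 b).1 hb).1) m0 e0 he0.li
      intro i
      have h2 : e0 i ∈ U := by
        rw [← he0.span]; exact Submodule.subset_span ⟨i, rfl⟩
      exact (hS1 _).2 ⟨(hS _).1 (e0 i).2, h2⟩
    have h2 := (hD N p 0 χ hN hp hpN hχ.sign S1).1 hS1
    have h3 : (m0 : ℝ) ≤ 2 * (Module.finrank ℂ S1 : ℝ) := by exact_mod_cast h1
    linarith
  have hr1 : (m1 : ℝ) ≤ 2 * (C0 * (psi N / 2 ^ N.primeFactors.card) * Real.log p /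
      Real.log (N + 1)) := by
    have h1 : m1 ≤ 2 * Module.finrank ℂ S2 := by
      apply discf_rank S2 (fun b hb => (hS b).2 ((hS2 b).1 hb).1) m1 e1 he1.li
      intro i
      have h2 : e1 i ∈ K1 := by
        rw [← he1.span]; exact Submodule.subset_span ⟨i, rfl⟩
      rw [hK1] at h2
      refine (hS2 _).2 ⟨(hS _).1 (e1 i).2, h2.1, ?_⟩
      intro n
      have h3 := (discf_A_ker hH hN hS a p hp hpN (e1 i)).1 (h2.2 p (Finset.mem_singleton_self p)) n
      rw [h3]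
      push_cast
      rfl
    have h2 := (hD N p (a p : ℝ) χ hN hp hpN hχ.sign S2).2 hS2
    have h3 : (m1 : ℝ) ≤ 2 * (Module.finrank ℂ S2 : ℝ) := by exact_mod_cast h1
    linarith
  have hcard := hUD N hN
  rw [hcard] at hb0
  have hnum := discf_num C0 _ _ _ _ m0 m1 m2 N p N.primeFactors.card hC0 hx0 hp.two_le hN hb0 hb1
    hb2 hr0 hr1
  subst hm2'
  choose κ hκ using fun i => (hK2' (e2 i)).1 (by
    rw [← he2.span]; exact Submodule.subset_span ⟨i, rfl⟩)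
  have hcf : ∀ α : ℂ, ((α • f : S) : ℕ → ℂ) = fun n => α * (a n : ℂ) := by
    intro α
    funext n
    simp [hfdef]
  refine ⟨κ 0, κ 1, ?_, ?_, ?_⟩
  · -- independence
    intro h0
    have hli := he2.li
    rw [Fintype.linearIndependent_iff] at hli
    have h1 : ∑ i, (![Complex.normSq (κ 1), -(κ 0 * (starRingEnd ℂ) (κ 1)).re] : Fin 2 → ℝ) i •
        e2 i = 0 := by
      rw [Fin.sum_univ_two, hκ 0, hκ 1]
      apply Subtype.ext
      funext n
      have h2 : (κ 0 * (starRingEnd ℂ) (κ 1)) = (((κ 0 * (starRingEnd ℂ) (κ 1)).re : ℝ) : ℂ) := by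
        apply Complex.ext <;> simp [h0]
      have h3 : (Complex.normSq (κ 1) : ℂ) * κ 0 =
          (((κ 0 * (starRingEnd ℂ) (κ 1)).re : ℝ) : ℂ) * κ 1 := by
        rw [← h2, ← Complex.mul_conj]
        ring
      simp only [Matrix.cons_val_zero, Matrix.cons_val_one, Submodule.coe_add, discf_coe_smul,
        SetLike.val_smul, Pi.add_apply, Pi.smul_apply, smul_eq_mul, Submodule.coe_zero,
        Pi.zero_apply]
      push_cast
      linear_combination (a n : ℂ) * h3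
    have h2 := hli _ h1 0
    simp only [Matrix.cons_val_zero] at h2
    have h3 : κ 1 = 0 := Complex.normSq_eq_zero.1 h2
    have h4 : e2 1 = 0 := by rw [hκ 1, h3, zero_smul]
    exact he2.li.ne_zero 1 h4
  · -- the lattice
    intro α
    have h1 := he2.lat (α • f)
    have h2 : (α • f) ∈ K2 := (hK2' _).2 ⟨α, rfl⟩
    constructor
    · intro h
      have h3 : (α • f) ∈ (L : Set S) := by
        show ((α • f : S) : ℕ → ℂ) ∈ Lc N
        rw [hcf]; exact h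
      obtain ⟨k, hk⟩ := h1.1 ⟨h3, h2⟩
      refine ⟨k 0, k 1, ?_⟩
      rw [Fin.sum_univ_two, hκ 0, hκ 1] at hk
      have h4 := congrArg (fun x : S => (x : ℕ → ℂ) 1) hk
      simp only [Submodule.coe_add, discf_coe_smul, SetLike.val_smul, Pi.add_apply, Pi.smul_apply,
        smul_eq_mul, hfdef, ha.one] at h4
      push_cast at h4
      linear_combination h4
    · rintro ⟨k1, k2, hk⟩
      have h3 := (h1.2 ⟨![k1, k2], by
        rw [Fin.sum_univ_two, hκ 0, hκ 1]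
        apply Subtype.ext
        funext n
        simp only [Matrix.cons_val_zero, Matrix.cons_val_one, Submodule.coe_add, discf_coe_smul,
          SetLike.val_smul, Pi.add_apply, Pi.smul_apply, smul_eq_mul]
        push_cast
        rw [hk]
        ring⟩).1
      have h4 : ((α • f : S) : ℕ → ℂ) ∈ Lc N := h3
      rw [hcf] at h4
      exact h4
  · -- the determinant
    have hdet2 : (Matrix.of fun i j => B (e2 i) (e2 j)).det = B (e2 0) (e2 1) ^ 2 := by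
      rw [Matrix.det_fin_two]
      simp only [Matrix.of_apply]
      have hanti : ∀ x y : S, B y x = - B x y := by
        intro x y
        rw [hBapp, hBapp, discf_pet_conj hP hN W hW _ _ ((hS _).1 x.2) ((hS _).1 y.2),
          Complex.conj_im]
        ring
      have h1 := hanti (e2 0) (e2 1)
      have h2 := hanti (e2 0) (e2 0)
      have h3 := hanti (e2 1) (e2 1)
      have h2' : B (e2 0) (e2 0) = 0 := by linarith
      rw [h1, h2']
      ring
    rw [hdet2] at hnum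
    have hB01 : B (e2 0) (e2 1) = 2 * Bc N (fun n => κ 0 * (a n : ℂ)) (fun n => κ 1 * (a n : ℂ)) := by
      rw [hBc, hκ 0, hκ 1, hcf, hcf]
    rw [← hB01]
    set E := 44 * C0 * (psi N / 2 ^ N.primeFactors.card) * (1 + N.primeFactors.card + Real.log p)
      with hE
    have hE0 : 0 ≤ E := by
      have h1 : 0 ≤ Real.log p := Real.log_nonneg (by exact_mod_cast hp.one_lt.le)
      positivity
    have h1 : (1 : ℝ) ≤ Real.exp E := Real.one_le_exp hE0
    rw [abs_of_nonneg (sq_nonneg _)] at hnum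
    apply abs_le_of_sq_le_sq _ (Real.exp_pos E).le
    nlinarith

end Pool.Agent.Helper96.MP
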