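import Pool.Agent.Helper9.MP.Lat

/-!
# MP_bde085_nt, block D: `FC` is linear (module FCL)
-/

set_option autoImplicit false

namespace Pool.Agent.Helper96.MP

open Complex MeasureTheory Filter Topology
open scoped MatrixGroups

theorem fcl_qs_add (N : ℕ) (b b' : ℕ → ℂ) (hb : Cusp N b) (hb' : Cusp N b') (z : ℂ)
    (hz : z ∈ UH) : qs (fun n => b n + b' n) z = qs b z + qs b' z := by
  unfold qs
  rw [← (hb.sum z hz).tsum_add (hb'.sum z hz)]
  congr 1
  funext k
  ring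

theorem fcl_qs_smul (b : ℕ → ℂ) (c : ℂ) (z : ℂ) : qs (fun n => c * b n) z = c * qs b z := by
  unfold qs
  rw [← tsum_mul_left]
  congr 1
  funext k
  ring

theorem fcl_mo_mem (p q r s : ℤ) (h : p * s - q * r = 1) (z : ℂ) (hz : z ∈ UH) :
    mo p q r s z ∈ UH := by
  have hne : (r : ℂ) * z + (s : ℂ) ≠ 0 := by
    intro h0
    have him : ((r : ℂ) * z + (s : ℂ)).im = 0 := by rw [h0]; simp
    have hre : ((r : ℂ) * z + (s : ℂ)).re = 0 := by rw [h0]; simp
    simp at him hre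
    rcases him with h1 | h1
    · rw [h1] at hre
      simp at hre
      rw [h1, hre] at h
      simp at h
    · exact absurd h1 (ne_of_gt hz)
  show 0 < (mo p q r s z).im
  rw [Lib.mo_im p q r s z hne, h]
  have h2 : (0 : ℝ) < ‖(r : ℂ) * z + (s : ℂ)‖ := norm_pos_iff.2 hne
  have hz' : 0 < z.im := hz
  have h3 : (0 : ℝ) < z.im / ‖(r : ℂ) * z + (s : ℂ)‖ ^ 2 := by positivity
  simpa using h3

theorem fcl_cusp_add (N : ℕ) (b b' : ℕ → ℂ) (hb : Cusp N b) (hb' : Cusp N b') :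
    Cusp N (fun n => b n + b' n) := by
  refine ⟨fun τ hτ => ?_, fun τ hτ p q r s h1 h2 => ?_, ?_⟩
  · have h := (hb.sum τ hτ).add (hb'.sum τ hτ)
    refine h.congr fun k => ?_
    ring
  · have hm : mo p q r s τ ∈ UH := fcl_mo_mem p q r s h1 τ hτ
    have e1 := hb.inv τ hτ p q r s h1 h2
    have e2 := hb'.inv τ hτ p q r s h1 h2
    have e3 := fcl_qs_add N b b' hb hb' (mo p q r s τ) hm
    have e4 := fcl_qs_add N b b' hb hb' τ hτ
    unfold mo at e3
    rw [e3, e4, e1, e2]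
    ring
  · obtain ⟨B, hB⟩ := hb.bdd
    obtain ⟨B', hB'⟩ := hb'.bdd
    refine ⟨B + B', fun τ hτ => ?_⟩
    rw [fcl_qs_add N b b' hb hb' τ hτ]
    calc τ.im * ‖qs b τ + qs b' τ‖ ≤ τ.im * (‖qs b τ‖ + ‖qs b' τ‖) :=
          mul_le_mul_of_nonneg_left (norm_add_le _ _) hτ.le
      _ = τ.im * ‖qs b τ‖ + τ.im * ‖qs b' τ‖ := by ring
      _ ≤ B + B' := add_le_add (hB τ hτ) (hB' τ hτ)

theorem fcl_cusp_smul (N : ℕ) (b : ℕ → ℂ) (hb : Cusp N b) (c : ℂ) :
    Cusp N (fun n => c * b n) := by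
  refine ⟨fun τ hτ => ?_, fun τ hτ p q r s h1 h2 => ?_, ?_⟩
  · have h := (hb.sum τ hτ).mul_left c
    refine h.congr fun k => ?_
    ring
  · have e1 := hb.inv τ hτ p q r s h1 h2
    rw [fcl_qs_smul, fcl_qs_smul, e1]
    ring
  · obtain ⟨B, hB⟩ := hb.bdd
    refine ⟨‖c‖ * B, fun τ hτ => ?_⟩
    rw [fcl_qs_smul, norm_mul]
    calc τ.im * (‖c‖ * ‖qs b τ‖) = ‖c‖ * (τ.im * ‖qs b τ‖) := by ring
      _ ≤ ‖c‖ * B := mul_le_mul_of_nonneg_left (hB τ hτ) (norm_nonneg _)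

theorem fcl_neBot : (comap Complex.im (atTop : Filter ℝ)).NeBot := by
  apply Filter.NeBot.comap_of_surj inferInstance
  intro x
  exact ⟨⟨0, x⟩, rfl⟩

/-- uniqueness of the value at a cusp -/
theorem fcl_uniq (hL : ST_FLIM) (N : ℕ) (hN : 1 ≤ N) (b : ℕ → ℂ) (hb : Cusp N b) (p q : ℤ)
    (hq : q ≠ 0) (v : ℂ)
    (hv : Tendsto (fun z : ℂ => Fs b (mo p (-q) q 0 z)) (comap Complex.im atTop) (𝓝 v)) :
    FC b p q = v := by
  have h := (hL N b hN hb).1 p (-q) q 0 (by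
    have : 0 < q * q := mul_self_pos.2 hq
    nlinarith)
  have := fcl_neBot
  exact tendsto_nhds_unique h.1 hv

theorem fcl_mo_mem' (p q : ℤ) (hq : q ≠ 0) (z : ℂ) (hz : z ∈ UH) : mo p (-q) q 0 z ∈ UH := by
  have hq' : (q : ℂ) ≠ 0 := by exact_mod_cast hq
  have hz0 : z ≠ 0 := by
    intro h
    rw [h] at hz
    have h2 : (0 : ℝ) < (0 : ℂ).im := hz
    simp at h2
  have hne : (q : ℂ) * z + ((0 : ℤ) : ℂ) ≠ 0 := by
    simp [hq', hz0]
  show 0 < (mo p (-q) q 0 z).im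
  rw [Lib.mo_im p (-q) q 0 z hne]
  have h1 : (0 : ℝ) < ((p * 0 - -q * q : ℤ) : ℝ) := by
    have : 0 < p * 0 - -q * q := by
      have : 0 < q * q := mul_self_pos.2 hq
      linarith
    exact_mod_cast this
  have h2 : (0 : ℝ) < ‖(q : ℂ) * z + ((0 : ℤ) : ℂ)‖ := norm_pos_iff.2 hne
  have hz' : 0 < z.im := hz
  positivity

theorem fcl_UH_ev : ∀ᶠ z : ℂ in comap Complex.im (atTop : Filter ℝ), z ∈ UH := by
  have h : ∀ᶠ x : ℝ in atTop, 0 < x := eventually_gt_atTop 0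
  exact h.comap Complex.im

/-- FCL -/
theorem st_FCL (hL : ST_FLIM) (hQ : ST_QDIF) : ST_FCL := by
  intro N b b' c hN hb hb'
  have hadd := fcl_cusp_add N b b' hb hb'
  have hsm := fcl_cusp_smul N b hb c
  refine ⟨hadd, hsm, ?_, ?_, fun z hz => fcl_qs_add N b b' hb hb' z hz,
    fun z _ => fcl_qs_smul b c z⟩
  · intro p q
    by_cases hq : q = 0
    · simp [FC, hq]
    · apply fcl_uniq hL N hN _ hadd p q hq
      have h1 := ((hL N b hN hb).1 p (-q) q 0 (by
        have : 0 < q * q := mul_self_pos.2 hq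
        nlinarith)).1
      have h2 := ((hL N b' hN hb').1 p (-q) q 0 (by
        have : 0 < q * q := mul_self_pos.2 hq
        nlinarith)).1
      refine (h1.add h2).congr' ?_
      filter_upwards [fcl_UH_ev] with z hz
      have hm := fcl_mo_mem' p q hq z hz
      have s1 := (hQ N b hN hb).2.2.2.1 _ hm
      have s2 := (hQ N b' hN hb').2.2.2.1 _ hm
      unfold Fs
      rw [← s1.tsum_add s2]
      congr 1
      funext k
      ring
  · intro p q
    by_cases hq : q = 0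
    · simp [FC, hq]
    · apply fcl_uniq hL N hN _ hsm p q hq
      have h1 := ((hL N b hN hb).1 p (-q) q 0 (by
        have : 0 < q * q := mul_self_pos.2 hq
        nlinarith)).1
      refine (h1.const_mul c).congr' ?_
      filter_upwards with z
      unfold Fs
      rw [← tsum_mul_left]
      congr 1
      funext k
      ring

end Pool.Agent.Helper96.MP
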