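import Pool.Agent.Helper9.MP.Lat

/-!
# MP_bde085_nt, block D: integrality of twice the form (module HALF)
-/

set_option autoImplicit false

namespace Pool.Agent.Helper96.MP

open Complex MeasureTheory Filter Topology
open scoped MatrixGroups

theorem half_dvd (P : Type) [Fintype P] [DecidableEq P] (σ : P → P) (t : P → ℤ)
    (h3 : ∀ x, σ (σ (σ x)) = x) (ht : ∀ x, t (σ x) = t x) (h0 : ∀ x, σ x = x → t x = 0) :
    (3 : ℤ) ∣ ∑ x, t x := by
  classical
  have h := Finset.sum_comp (s := (Finset.univ : Finset P)) (fun k : ℤ => k) t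
  rw [h]
  apply Finset.dvd_sum
  intro k _
  by_cases hk : k = 0
  · rw [hk]; simp
  · have hcard : 3 ∣ (Finset.univ.filter (fun a => t a = k)).card := by
      let α := {x : P // t x = k}
      let f : Function.End α := fun x => ⟨σ x.1, by rw [ht, x.2]⟩
      have : Fact (Nat.Prime 3) := ⟨Nat.prime_three⟩
      have hf : f ^ 3 ^ 1 = 1 := by
        funext x
        apply Subtype.ext
        exact h3 x.1
      have h1 := Equiv.Perm.card_fixedPoints_modEq hf
      have h2 : Fintype.card (Function.fixedPoints f) = 0 := by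
        rw [Fintype.card_eq_zero_iff]
        refine ⟨fun x => ?_⟩
        have h4 : f x.1 = x.1 := x.2
        have h5 : σ x.1.1 = x.1.1 := congrArg Subtype.val h4
        exact hk (by rw [← x.1.2]; exact h0 _ h5)
      rw [h2] at h1
      have h6 : Fintype.card α = (Finset.univ.filter (fun a => t a = k)).card := by
        exact Fintype.card_subtype _
      rw [← h6]
      exact (Nat.modEq_zero_iff_dvd).1 h1
    obtain ⟨m, hm⟩ := hcard
    rw [hm]
    refine ⟨m * k, ?_⟩
    simp only [nsmul_eq_mul]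
    push_cast
    ring

theorem half_cls_neg (N : ℕ) (g h : SL(2, ℤ)) (h1 : h 1 0 = - g 1 0) (h2 : h 1 1 = - g 1 1) :
    cls N h = cls N g := by
  apply Quotient.sound
  show eqv N (h 1 0) (h 1 1) (g 1 0) (g 1 1)
  refine ⟨-1, ?_, ?_, ?_⟩
  · exact (isCoprime_one_left).neg_left
  · rw [h1]; simp
  · rw [h2]; simp

/-- HALF -/
theorem st_HALF (hM : ST_MVB) (hC : ST_COS) (hF : ST_PNF) : ST_HALF := by
  classical
  intro N w v hN hw hv
  have : Finite (PN N) := (hF N hN).1
  have hfin : Fintype (PN N) := Fintype.ofFinite _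
  have hmv := (hM N hN).1
  have hrep := (hC N hN).1
  have hmv2 : ∀ (x : PN N) (g h : SL(2, ℤ)), mv N (mv N x g) h = mv N x (g * h) := by
    intro x g h
    have e1 : mv N x g = cls N (rep N x * g) := rfl
    have e2 : mv N x (g * h) = cls N (rep N x * (g * h)) := rfl
    rw [e1, e2, hmv, mul_assoc]
  have hR3 : ∀ x : PN N, mv N x (mR * (mR * mR)) = x := by
    intro x
    have e2 : mv N x (mR * (mR * mR)) = cls N (rep N x * (mR * (mR * mR))) := rfl
    rw [e2]
    conv_rhs => rw [← hrep x]
    have a1 : mR 0 0 = 1 := rfl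
    have a2 : mR 0 1 = -1 := rfl
    have a3 : mR 1 0 = 1 := rfl
    have a4 : mR 1 1 = 0 := rfl
    apply half_cls_neg
    · simp only [Lib.mul00, Lib.mul01, Lib.mul10, Lib.mul11, a1, a2, a3, a4]
      ring
    · simp only [Lib.mul00, Lib.mul01, Lib.mul10, Lib.mul11, a1, a2, a3, a4]
      ring
  set σ : PN N → PN N := fun x => mv N x mR with hσ
  set t : PN N → ℤ := fun x => w x * v (σ x) - w (σ x) * v x with ht
  have hw3 : ∀ x, w x + w (σ x) + w (σ (σ x)) = 0 := by
    intro x
    have h := hw.three x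
    have e : σ (σ x) = mv N x (mR * mR) := hmv2 x mR mR
    rw [e]
    exact_mod_cast h
  have hv3 : ∀ x, v x + v (σ x) + v (σ (σ x)) = 0 := by
    intro x
    have h := hv.three x
    have e : σ (σ x) = mv N x (mR * mR) := hmv2 x mR mR
    rw [e]
    exact_mod_cast h
  have h3 : (3 : ℤ) ∣ ∑ x, t x := by
    apply half_dvd (PN N) σ t
    · intro x
      show mv N (mv N (mv N x mR) mR) mR = x
      rw [hmv2, hmv2]
      exact hR3 x
    · intro x
      show w (σ x) * v (σ (σ x)) - w (σ (σ x)) * v (σ x) = w x * v (σ x) - w (σ x) * v x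
      have e1 : v (σ (σ x)) = - v x - v (σ x) := by linarith [hv3 x]
      have e2 : w (σ (σ x)) = - w x - w (σ x) := by linarith [hw3 x]
      rw [e1, e2]
      ring
    · intro x hx
      show w x * v (σ x) - w (σ x) * v x = 0
      rw [hx]
      ring
  obtain ⟨k, hk⟩ := h3
  refine ⟨k, ?_⟩
  unfold Bs
  rw [finsum_eq_sum_of_fintype]
  have e : ∑ x : PN N, ((w x : ℝ) * (v (mv N x mR) : ℝ) - (w (mv N x mR) : ℝ) * (v x : ℝ)) =
      ((∑ x, t x : ℤ) : ℝ) := by
    rw [Int.cast_sum]
    apply Finset.sum_congr rfl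
    intro x _
    simp only [ht, hσ]
    push_cast
    rfl
  rw [e, hk]
  push_cast
  ring

end Pool.Agent.Helper96.MP
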