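import Pool.Agent.Helper9.MP.Lib

/-!
# MP_bde085_nt, block D: the bound `exp(C ψ(N) (1 + ω(N)) / 2 ^ ω(N))`

Exact statements `ST_X` of the modules.  Proofs: `/team-store/h9_lat.md`.
-/

set_option autoImplicit false

namespace Pool.Agent.Helper96.MP

open Complex MeasureTheory Filter Topology
open scoped MatrixGroups

/-! ## Part 1: Manin symbols, the intersection form, the lattice -/

/-- the matrix `(1,-1;1,0)` -/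
def mR : SL(2, ℤ) := ⟨!![1, -1; 1, 0], by norm_num [Matrix.det_fin_two_of]⟩

/-- right action of `SL₂(ℤ)` on the projective line -/
noncomputable def mv (N : ℕ) (x : PN N) (g : SL(2, ℤ)) : PN N := cls N (rep N x * g)

/-- real Manin symbols -/
structure Sym (N : ℕ) (w : PN N → ℝ) : Prop where
  two : ∀ x, w x + w (mv N x ModularGroup.S) = 0
  three : ∀ x, w x + w (mv N x mR) + w (mv N x (mR * mR)) = 0

/-- `C` is a potential of `w` -/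
structure Pot (N : ℕ) (w : PN N → ℝ) (C : ℤ → ℤ → ℝ) : Prop where
  hom : Hom0 C
  eqv : EqC N C
  dif : ∀ g : SL(2, ℤ), w (cls N g) = C (g 0 0) (g 1 0) - C (g 0 1) (g 1 1)

/-- functions on cusps invariant under `Γ₀(N)` -/
def InvC (N : ℕ) (D : ℤ → ℤ → ℝ) : Prop :=
  ∀ p q r s : ℤ, G0 N p q r s → ∀ x y : ℤ, (x ≠ 0 ∨ y ≠ 0) →
    D (p * x + q * y) (r * x + s * y) = D x y

/-- MVB: basic facts on symbols -/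
def ST_MVB : Prop := ∀ N : ℕ, 1 ≤ N →
  (∀ g h : SL(2, ℤ), mv N (cls N g) h = cls N (g * h)) ∧
  (∀ w : PN N → ℝ, Sym N w ↔
    ((∀ c d : ℤ, Uni N c d → ev w c d + ev w d (-c) = 0) ∧
     (∀ c d : ℤ, Uni N c d → ev w c d + ev w (c + d) (-c) + ev w d (-c - d) = 0))) ∧
  (∀ w : PN N → ℝ, Sym N w → ∃ C : ℤ → ℤ → ℝ, Pot N w C) ∧
  (∀ (w : PN N → ℝ) (C : ℤ → ℤ → ℝ), Pot N w C → Sym N w) ∧
  (∀ (C : ℤ → ℤ → ℝ), Hom0 C → EqC N C → ∃ w : PN N → ℝ, Pot N w C)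

/-- the intersection form on symbols -/
noncomputable def Bs (N : ℕ) (w v : PN N → ℝ) : ℝ :=
  (1 / 6) * ∑ᶠ x : PN N, (w x * v (mv N x mR) - w (mv N x mR) * v x)

/-- FORM: the intersection form in terms of a potential -/
def ST_FORM : Prop := ∀ (N : ℕ) (w v : PN N → ℝ) (C : ℤ → ℤ → ℝ), 1 ≤ N → Pot N w C → Sym N v →
  Bs N w v = (1 / 6) * ∑ᶠ x : PN N, v x *
    (C (rep N x 0 1 - rep N x 0 0) (rep N x 1 1 - rep N x 1 0) -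
     C (rep N x 0 0 + rep N x 0 1) (rep N x 1 0 + rep N x 1 1))

/-- DUAL: Poincaré duality -/
def ST_DUAL : Prop := ∀ N : ℕ, 1 ≤ N → ∀ γ ∈ CongruenceSubgroup.Gamma0 N, ∃ v : PN N → ℤ,
  Sym N (fun x => (v x : ℝ)) ∧ ∀ (w : PN N → ℝ) (C : ℤ → ℤ → ℝ), Pot N w C →
    Bs N w (fun x => (v x : ℝ)) = C (γ 0 0) (γ 1 0) - C 1 0

/-- RAD: boundary symbols are in the radical -/
def ST_RAD : Prop := ∀ (N : ℕ) (w v : PN N → ℝ) (D : ℤ → ℤ → ℝ), 1 ≤ N → Pot N w D → InvC N D →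
  Sym N v → Bs N w v = 0

/-- HALF: integrality of twice the form -/
def ST_HALF : Prop := ∀ (N : ℕ) (w v : PN N → ℤ), 1 ≤ N → Sym N (fun x => (w x : ℝ)) →
  Sym N (fun x => (v x : ℝ)) → ∃ k : ℤ, 2 * Bs N (fun x => (w x : ℝ)) (fun x => (v x : ℝ)) = k

/-- real symbol of a cusp form -/
noncomputable def sy (N : ℕ) (b : ℕ → ℂ) (x : PN N) : ℝ :=
  (FC b (rep N x 0 0) (rep N x 1 0) - FC b (rep N x 0 1) (rep N x 1 1)).re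

/-- the intersection form on cusp forms -/
noncomputable def Bc (N : ℕ) (b b' : ℕ → ℂ) : ℝ := Bs N (sy N b) (sy N b')

/-- cusp forms with integral real periods -/
def Lc (N : ℕ) : Set (ℕ → ℂ) :=
  {b | Cusp N b ∧ ∀ p q r s : ℤ, G0 N p q r s → ∃ k : ℤ, (FC b p r - FC b 1 0).re = k}

/-- FCL: `FC` is linear on cusp forms, cusp forms form a vector space -/
def ST_FCL : Prop := ∀ (N : ℕ) (b b' : ℕ → ℂ) (c : ℂ), 1 ≤ N → Cusp N b → Cusp N b' →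
  Cusp N (fun n => b n + b' n) ∧ Cusp N (fun n => c * b n) ∧
  (∀ p q : ℤ, FC (fun n => b n + b' n) p q = FC b p q + FC b' p q) ∧
  (∀ p q : ℤ, FC (fun n => c * b n) p q = c * FC b p q) ∧
  (∀ z ∈ UH, qs (fun n => b n + b' n) z = qs b z + qs b' z) ∧
  (∀ z ∈ UH, qs (fun n => c * b n) z = c * qs b z)

/-- SYB: the symbol of a cusp form has the potential `Re FC` -/
def ST_SYB : Prop := ∀ (N : ℕ) (b : ℕ → ℂ), 1 ≤ N → Cusp N b →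
  Pot N (sy N b) (fun p q => (FC b p q).re)

/-- INT: integrality and perfectness of the form on the lattice -/
def ST_INT : Prop := ∀ N : ℕ, 1 ≤ N →
  (∀ b ∈ Lc N, ∀ b' ∈ Lc N, ∃ k : ℤ, 2 * Bc N b b' = k) ∧
  (∀ y : ℕ → ℂ, Cusp N y → (∀ b ∈ Lc N, ∃ k : ℤ, 2 * Bc N y b = k) → (fun n => 2 * y n) ∈ Lc N)

/-! ## Part 2: integral linear algebra -/

/-- `e` is a basis over `ℤ` of `L ∩ U`, and over `ℝ` of `U` -/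
structure ZB {V : Type} [AddCommGroup V] [Module ℝ V] (L : Set V) (U : Submodule ℝ V) (m : ℕ)
    (e : Fin m → V) : Prop where
  li : LinearIndependent ℝ e
  span : Submodule.span ℝ (Set.range e) = U
  lat : ∀ v : V, (v ∈ L ∧ v ∈ U) ↔ ∃ k : Fin m → ℤ, v = ∑ i, (k i : ℝ) • e i

/-- KERN: discriminant of the kernel of a self-adjoint integral operator -/
def ST_KERN : Prop := ∀ (V : Type) [AddCommGroup V] [Module ℝ V] [FiniteDimensional ℝ V]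
  (ip B : V →ₗ[ℝ] V →ₗ[ℝ] ℝ) (L : AddSubgroup V) (A : V →ₗ[ℝ] V) (U K : Submodule ℝ V) (m : ℕ)
  (e : Fin m → V) (c : ℝ), 1 ≤ c → ZB (L : Set V) U m e →
  (∀ x y, ip x y = ip y x) → (∀ x, x ≠ 0 → 0 < ip x x) →
  (∀ x ∈ L, A x ∈ L) → (∀ x ∈ U, A x ∈ U) →
  (∀ x ∈ U, ∀ y ∈ U, ip (A x) y = ip x (A y)) → (∀ x ∈ U, ∀ y ∈ U, B (A x) y = B x (A y)) →
  (∀ x ∈ U, ip (A x) (A x) ≤ c ^ 2 * ip x x) → (∀ x ∈ L, ∀ y ∈ L, ∃ k : ℤ, B x y = k) →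
  (Matrix.of fun i j => B (e i) (e j)).det ≠ 0 → (∀ v, v ∈ K ↔ v ∈ U ∧ A v = 0) →
  ∃ (m' : ℕ) (e' : Fin m' → V), m' ≤ m ∧ ZB (L : Set V) K m' e' ∧
    (Matrix.of fun i j => B (e' i) (e' j)).det ≠ 0 ∧
    |(Matrix.of fun i j => B (e' i) (e' j)).det| ≤
      |(Matrix.of fun i j => B (e i) (e j)).det| * c ^ (2 * (m - m'))

/-- CHI: discriminant of an isotypic sublattice -/
def ST_CHI : Prop := ∀ (V : Type) [AddCommGroup V] [Module ℝ V] [FiniteDimensional ℝ V]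
  (B : V →ₗ[ℝ] V →ₗ[ℝ] ℝ) (L : AddSubgroup V) (P : V →ₗ[ℝ] V) (U : Submodule ℝ V) (n m0 : ℕ)
  (e0 : Fin m0 → V), 1 ≤ n → ZB (L : Set V) ⊤ m0 e0 →
  (∀ x ∈ L, P x ∈ L) → (∀ x, P x ∈ U) → (∀ x ∈ U, P x = (n : ℝ) • x) →
  (∀ x y, B (P x) y = B x (P y)) → (∀ x ∈ L, ∀ y ∈ L, ∃ k : ℤ, B x y = k) →
  (∀ y, (∀ x ∈ L, ∃ k : ℤ, B y x = k) → (2 : ℝ) • y ∈ L) →
  ∃ (m : ℕ) (e : Fin m → V), ZB (L : Set V) U m e ∧
    (Matrix.of fun i j => B (e i) (e j)).det ≠ 0 ∧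
    |(Matrix.of fun i j => B (e i) (e j)).det| ≤ (2 * (n : ℝ)) ^ m

/-- LATC: the cusp forms with integral real periods form a lattice -/
def ST_LATC : Prop := ∀ (N : ℕ) (S : Submodule ℂ (ℕ → ℂ)), 1 ≤ N → (∀ b, b ∈ S ↔ Cusp N b) →
  ∃ (m : ℕ) (e : Fin m → S), ZB {b : S | (b : ℕ → ℂ) ∈ Lc N} (⊤ : Submodule ℝ S) m e

/-! ## Part 3: Atkin-Lehner matrices and operators -/

/-- exact divisors -/
def UD (N : ℕ) : Finset ℕ := N.divisors.filter (fun Q => Nat.Coprime Q (N / Q))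

/-- matrices of type `Q` and determinant `n Q` -/
def TQ (N Q : ℕ) (n A B C D : ℤ) : Prop :=
  A * D - B * C = n * Q ∧ (Q : ℤ) ∣ A ∧ (Q : ℤ) ∣ D ∧ (N : ℤ) ∣ C

/-- composition of exact divisors -/
def cx (Q Q' : ℕ) : ℕ := Q * Q' / (Nat.gcd Q Q') ^ 2

/-- TQM: calculus of matrices of type `Q` -/
def ST_TQM : Prop := ∀ N : ℕ, 1 ≤ N →
  (1 ∈ UD N ∧ ∀ Q ∈ UD N, ∀ Q' ∈ UD N, cx Q Q' ∈ UD N ∧ cx (cx Q Q') Q' = Q ∧ cx Q Q = 1 ∧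
    cx Q Q' = cx Q' Q ∧ cx Q 1 = Q) ∧
  (∀ Q ∈ UD N, ∃ A B C D : ℤ, TQ N Q 1 A B C D) ∧
  (∀ Q : ℕ, ∀ n A B C D : ℤ, TQ N Q n A B C D → TQ N Q n D (-B) (-C) A) ∧
  (∀ Q ∈ UD N, ∀ Q' ∈ UD N, ∀ n A B C D n' A' B' C' D' : ℤ, TQ N Q n A B C D →
    TQ N Q' n' A' B' C' D' → ∃ A'' B'' C'' D'' : ℤ, TQ N (cx Q Q') (n * n') A'' B'' C'' D'' ∧
      A * A' + B * C' = Nat.gcd Q Q' * A'' ∧ A * B' + B * D' = Nat.gcd Q Q' * B'' ∧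
      C * A' + D * C' = Nat.gcd Q Q' * C'' ∧ C * B' + D * D' = Nat.gcd Q Q' * D'') ∧
  (∀ A B C D : ℤ, TQ N 1 1 A B C D ↔ G0 N A B C D)

/-- UDC: number of exact divisors -/
def ST_UDC : Prop := ∀ N : ℕ, 1 ≤ N → (UD N).card = 2 ^ N.primeFactors.card

/-- `c` is the image of `b` under the Atkin-Lehner operator of `Q` -/
def AL0 (N Q : ℕ) (b c : ℕ → ℂ) : Prop := ∀ A B C D : ℤ, TQ N Q 1 A B C D → ∀ z ∈ UH,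
  qs c z = (Q : ℂ) / ((C : ℂ) * z + (D : ℂ)) ^ 2 * qs b (mo A B C D z)

/-- WEX: existence of the Atkin-Lehner operators -/
def ST_WEX : Prop := ∀ (N Q : ℕ) (b : ℕ → ℂ), 1 ≤ N → Q ∈ UD N → Cusp N b →
  ∃ c : ℕ → ℂ, Cusp N c ∧ AL0 N Q b c

/-- WMUL: composition of the Atkin-Lehner operators, uniqueness -/
def ST_WMUL : Prop := ∀ (N Q Q' : ℕ) (b c d : ℕ → ℂ), 1 ≤ N → Q ∈ UD N → Q' ∈ UD N → Cusp N b →
  Cusp N c → Cusp N d → AL0 N Q b c →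
  (AL0 N Q' c d → AL0 N (cx Q Q') b d) ∧ (AL0 N Q b d → c = d) ∧ AL0 N Q c b ∧ AL0 N 1 b b

/-- WTL: Atkin-Lehner operators commute with Hecke operators -/
def ST_WTL : Prop := ∀ (N Q l : ℕ) (b c : ℕ → ℂ), 1 ≤ N → Q ∈ UD N → l.Prime → ¬ l ∣ N → Cusp N b →
  Cusp N c → AL0 N Q b c → AL0 N Q (Tl l b) (Tl l c)

/-- WFC: Atkin-Lehner operators and the primitive -/
def ST_WFC : Prop := ∀ (N Q : ℕ) (b c : ℕ → ℂ), 1 ≤ N → Q ∈ UD N → Cusp N b → Cusp N c →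
  AL0 N Q b c → ∀ A B C D : ℤ, TQ N Q 1 A B C D → ∀ x y : ℤ, (x ≠ 0 ∨ y ≠ 0) →
  FC c x y = FC b (A * x + B * y) (C * x + D * y) - FC b A C

/-- WLC: the lattice is stable under Atkin-Lehner and Hecke operators -/
def ST_WLC : Prop := (∀ (N Q : ℕ) (b c : ℕ → ℂ), 1 ≤ N → Q ∈ UD N → Cusp N c → AL0 N Q b c →
    b ∈ Lc N → c ∈ Lc N) ∧
  (∀ (N l : ℕ) (b : ℕ → ℂ), 1 ≤ N → l.Prime → ¬ l ∣ N → b ∈ Lc N → Tl l b ∈ Lc N)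

/-- multiplicative characters of the group of exact divisors -/
structure MulChi (N : ℕ) (χ : ℕ → ℝ) : Prop where
  sign : ∀ Q ∈ UD N, χ Q = 1 ∨ χ Q = -1
  mul : ∀ Q ∈ UD N, ∀ Q' ∈ UD N, χ (cx Q Q') = χ Q * χ Q'

/-- simultaneous eigenforms of the Atkin-Lehner operators -/
def EW (N : ℕ) (χ : ℕ → ℝ) (b : ℕ → ℂ) : Prop := ∀ Q ∈ UD N, AL0 N Q b (fun n => (χ Q : ℂ) * b n)

/-- SGN: newforms are eigenforms of the Atkin-Lehner operators -/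
def ST_SGN : Prop := ∀ (N : ℕ) (a : ℕ → ℤ), 1 ≤ N → Newform N a →
  ∃ χ : ℕ → ℝ, MulChi N χ ∧ EW N χ (fun k => (a k : ℂ))

/-! ## Part 4: the Petersson product -/

/-- Petersson product, with a weight function -/
noncomputable def pet (W : ℂ → ℝ) (b b' : ℕ → ℂ) : ℂ :=
  ∫ z in UH, (W z : ℂ) * (qs b z * (starRingEnd ℂ) (qs b' z))

/-- PET: basic properties -/
def ST_PET : Prop := ∃ C0 : ℝ, 0 < C0 ∧ ∀ (N : ℕ) (W : ℂ → ℝ), 1 ≤ N → WOK N W →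
  ∀ b b' b'' : ℕ → ℂ, Cusp N b → Cusp N b' → Cusp N b'' →
  IntegrableOn (fun z => (W z : ℂ) * (qs b z * (starRingEnd ℂ) (qs b' z))) UH ∧
  pet W (fun n => b n + b' n) b'' = pet W b b'' + pet W b' b'' ∧
  (∀ c : ℂ, pet W (fun n => c * b n) b' = c * pet W b b') ∧
  pet W b' b = (starRingEnd ℂ) (pet W b b') ∧ (pet W b b).im = 0 ∧ 0 ≤ (pet W b b).re ∧
  ((pet W b b).re = 0 → ∀ n, b n = 0) ∧ nrm N b ≤ C0 * (pet W b b).re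

/-- PADJ: Hecke operators are self-adjoint, and bounded -/
def ST_PADJ : Prop := ∀ (N l : ℕ) (W : ℂ → ℝ), 1 ≤ N → WOK N W → l.Prime → ¬ l ∣ N →
  ∀ b b' : ℕ → ℂ, Cusp N b → Cusp N b' →
  pet W (Tl l b) b' = pet W b (Tl l b') ∧
  (pet W (Tl l b) (Tl l b)).re ≤ ((l : ℝ) + 1) ^ 2 * (pet W b b).re

/-- PWQ: Atkin-Lehner operators are unitary -/
def ST_PWQ : Prop := ∀ (N Q : ℕ) (W : ℂ → ℝ), 1 ≤ N → WOK N W → Q ∈ UD N →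
  ∀ b b' c c' : ℕ → ℂ, Cusp N b → Cusp N b' → Cusp N c → Cusp N c' → AL0 N Q b c → AL0 N Q b' c' →
  pet W c c' = pet W b b'

/-- HAB: the intersection form is the imaginary part of the Petersson product -/
def ST_HAB : Prop := ∃ c : ℝ, ∀ (N : ℕ) (W : ℂ → ℝ), 1 ≤ N → WOK N W →
  ∀ b b' : ℕ → ℂ, Cusp N b → Cusp N b' → Bc N b b' = c * (pet W b b').im

/-- Jacobian determinant of `(u, v)` -/
noncomputable def JJ (u v : ℂ → ℝ) (z : ℂ) : ℝ := ux u z * uy v z - uy u z * ux v z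

/-- HAB1: harmonic functions are orthogonal to admissible invariant functions -/
def ST_HAB1 : Prop := ∀ (N : ℕ) (W : ℂ → ℝ) (b : ℕ → ℂ), 1 ≤ N → WOK N W → Cusp N b →
  Adm N W (fun g => (FC b (g 0 0) (g 1 0) - FC b 1 0).re) (fun z => (Fs b z).re) ∧
  ∀ φ : ℂ → ℝ, Adm N W (fun _ => 0) φ → ∫ z in UH, W z * DD (fun z => (Fs b z).re) φ z = 0

/-- HAB2: Stokes for an invariant function and a function constant near the cusps -/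
def ST_HAB2 : Prop := ∀ (N : ℕ) (W : ℂ → ℝ) (ρ : SL(2, ℤ) → ℝ) (φ v : ℂ → ℝ) (K : Set ℂ), 1 ≤ N →
  WOK N W → Adm N W (fun _ => 0) φ → Adm N W ρ v → IsCompact K → K ⊆ UH →
  (∀ z ∈ UH, (∀ g ∈ CongruenceSubgroup.Gamma0 N, mob g z ∉ K) → ux v z = 0 ∧ uy v z = 0) →
  IntegrableOn (fun z => W z * JJ φ v z) UH ∧ ∫ z in UH, W z * JJ φ v z = 0

/-- the closed ideal triangle with vertices `0, 1, ∞` -/
def D0 : Set ℂ := {z | 0 < z.im ∧ 0 ≤ z.re ∧ z.re ≤ 1 ∧ 1 / 2 ≤ ‖z - 1 / 2‖}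

/-- HAB3: explicit potentials: on the ideal triangle they are given by universal barycentric
coordinates -/
def ST_HAB3 : Prop := ∃ lam : Fin 3 → ℂ → ℝ, (∀ i, ContDiffOn ℝ (⊤ : ℕ∞) (lam i) (interior D0)) ∧
  ∀ (N : ℕ) (W : ℂ → ℝ) (C : ℤ → ℤ → ℝ), 1 ≤ N → WOK N W → Hom0 C → EqC N C →
  ∃ u : ℂ → ℝ, Adm N W (fun g => C (g 0 0) (g 1 0) - C 1 0) u ∧
    (∃ K : Set ℂ, IsCompact K ∧ K ⊆ UH ∧
      ∀ z ∈ UH, (∀ g ∈ CongruenceSubgroup.Gamma0 N, mob g z ∉ K) → ux u z = 0 ∧ uy u z = 0) ∧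
    ∀ g : SL(2, ℤ), ∀ z ∈ interior D0, lam 0 z + lam 1 z + lam 2 z = 1 ∧
      u (mob g z) = C (g 0 1) (g 1 1) * lam 0 z + C (g 0 0 + g 0 1) (g 1 0 + g 1 1) * lam 1 z +
        C (g 0 0) (g 1 0) * lam 2 z

/-- HAB4: integrals over the quotient as sums over ideal triangles -/
def ST_HAB4 : Prop := ∀ (N : ℕ) (W : ℂ → ℝ) (Ψ : ℂ → ℝ), 1 ≤ N → WOK N W → ContinuousOn Ψ UH →
  (∀ g ∈ CongruenceSubgroup.Gamma0 N, ∀ z ∈ UH, Ψ (mob g z) = ‖jj g z‖ ^ 4 * Ψ z) →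
  IntegrableOn (fun z => W z * Ψ z) UH →
  (∀ g : SL(2, ℤ), IntegrableOn (fun z => Ψ (mob g z) * (‖jj g z‖ ^ 4)⁻¹) D0) ∧
  ∫ z in UH, W z * Ψ z =
    (1 / 6) * ∑ᶠ x : PN N, ∫ z in D0, Ψ (mob (rep N x) z) * (‖jj (rep N x) z‖ ^ 4)⁻¹

/-- PIW: the projector on the Atkin-Lehner eigenspace -/
def ST_PIW : Prop := ∀ (N : ℕ) (χ : ℕ → ℝ) (S : Submodule ℂ (ℕ → ℂ)), 1 ≤ N → MulChi N χ →
  (∀ b, b ∈ S ↔ Cusp N b) → ∃ P : S →ₗ[ℂ] S,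
  (∀ b : S, EW N χ (P b : ℕ → ℂ)) ∧
  (∀ b : S, EW N χ (b : ℕ → ℂ) → P b = ((UD N).card : ℂ) • b) ∧
  (∀ b : S, (b : ℕ → ℂ) ∈ Lc N → (P b : ℕ → ℂ) ∈ Lc N) ∧
  (∀ W : ℂ → ℝ, WOK N W → ∀ b b' : S,
    pet W (P b : ℕ → ℂ) (b' : ℕ → ℂ) = pet W (b : ℕ → ℂ) (P b' : ℕ → ℂ))

/-! ## Part 5: amplification with Atkin-Lehner matrices -/

/-- bad points -/
def Badw (N p J : ℕ) (z0 : ℂ) : Prop := ∃ i : ℕ, i ≤ 2 * J ∧ ∃ Q ∈ UD N, ∃ A B C D : ℤ,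
  TQ N Q ((p : ℤ) ^ i) A B C D ∧ ¬ (B = 0 ∧ C = 0 ∧ A = D) ∧
  ∃ ξ ∈ Metric.ball z0 (z0.im / 8), ∃ ξ' ∈ Metric.ball z0 (z0.im / 8), mo A B C D ξ = ξ'

/-- SEPW: separation of Hecke and Atkin-Lehner points of a good point -/
def ST_SEPW : Prop := ∀ N p J : ℕ, 1 ≤ N → p.Prime → ¬ p ∣ N → ∀ A B C D : ℕ → ℤ,
  (∀ Q ∈ UD N, TQ N Q 1 (A Q) (B Q) (C Q) (D Q)) → ∀ z0 ∈ UH, ¬ Badw N p J z0 → ∀ ζ ∈ UH,
  {u : SL(2, ℤ) × (ℕ × ℕ × ℕ) × ℕ | u.1 ∈ CongruenceSubgroup.Gamma0 N ∧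
    (∃ j ≤ J, u.2.1 ∈ Pj p j) ∧ u.2.2 ∈ UD N ∧
    mob u.1 ζ ∈ Metric.ball (act u.2.1 (mo (A u.2.2) (B u.2.2) (C u.2.2) (D u.2.2) z0))
      ((act u.2.1 (mo (A u.2.2) (B u.2.2) (C u.2.2) (D u.2.2) z0)).im / 10)}.Finite ∧
  {u : SL(2, ℤ) × (ℕ × ℕ × ℕ) × ℕ | u.1 ∈ CongruenceSubgroup.Gamma0 N ∧
    (∃ j ≤ J, u.2.1 ∈ Pj p j) ∧ u.2.2 ∈ UD N ∧
    mob u.1 ζ ∈ Metric.ball (act u.2.1 (mo (A u.2.2) (B u.2.2) (C u.2.2) (D u.2.2) z0))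
      ((act u.2.1 (mo (A u.2.2) (B u.2.2) (C u.2.2) (D u.2.2) z0)).im / 10)}.ncard ≤ 2

/-- AMPW: amplified pointwise bound at good points -/
def ST_AMPW : Prop := ∃ C : ℝ, 0 < C ∧ ∀ (N p J : ℕ) (b : ℕ → ℂ) (α : ℝ) (χ : ℕ → ℝ), 1 ≤ N →
  p.Prime → ¬ p ∣ N → Cusp N b → (∀ Q ∈ UD N, χ Q = 1 ∨ χ Q = -1) → EW N χ b →
  (J = 0 ∨ ∀ n, Tl p b n = (α : ℂ) * b n) → ∀ z0 ∈ UH, ¬ Badw N p J z0 →
  ((J : ℝ) + 1) * ((UD N).card : ℝ) * (z0.im ^ 2 * ‖qs b z0‖ ^ 2) ≤ C * nrm N b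

/-- points of the projective line which are eigenvectors with eigenvalue divisible by `Q` -/
def Fx (N Q : ℕ) (a b c d : ℤ) : Set (PN N) := {x | ∃ (s t μ : ℤ) (h : Uni N s t),
  x = Quotient.mk (sPN N) ⟨(s, t), h⟩ ∧ (Q : ℤ) ∣ μ ∧ (N : ℤ) ∣ s * a + t * c - μ * s ∧
  (N : ℤ) ∣ s * b + t * d - μ * t}

/-- CNTA: number of eigenvectors, crude -/
def ST_CNTA : Prop := ∀ (N Q A : ℕ) (n a b c d : ℤ), 1 ≤ N → Q ∈ UD N → IsCoprime n (N : ℤ) →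
  a * d - b * c = n * Q → |a| ≤ A → |b| ≤ A → |c| ≤ A → |d| ≤ A → ¬ (b = 0 ∧ c = 0 ∧ a = d) →
  ((Fx N Q a b c d).ncard : ℝ) ≤ 2 * A * (N.divisors.card : ℝ) ^ 3 * Real.sqrt N * Q

/-- CNTB: number of eigenvectors of a matrix of trace zero -/
def ST_CNTB : Prop := ∀ (N Q : ℕ) (n a b c : ℤ), 1 ≤ N → Q ∈ UD N → IsCoprime n (N : ℤ) →
  -(a * a) - b * c = n * Q → (Fx N Q a b c (-a)).ncard ≤ 12 * N.divisors.card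

/-- NBW: number of bad cosets above a point of the box -/
def ST_NBW : Prop := ∃ C : ℝ, 0 < C ∧ ∀ (N p J : ℕ) (Y : ℝ), 1 ≤ N → p.Prime → ¬ p ∣ N → 1 ≤ Y →
  ∀ z ∈ SB, z.im ≤ Y →
  ({x : PN N | Badw N p J (mob (rep N x) z)}.ncard : ℝ) ≤
    C * ((p : ℝ) ^ J * Y) ^ 12 * (N : ℝ) ^ (3 / 4 : ℝ)

/-- OMB: there are few exact divisors -/
def ST_OMB : Prop := ∃ C : ℝ, 0 < C ∧ ∀ N : ℕ, 1 ≤ N →
  (2 : ℝ) ^ N.primeFactors.card ≤ C * (N : ℝ) ^ (1 / 400 : ℝ)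

/-- AMDW: dimension bounds -/
def ST_AMDW : Prop := ∃ C : ℝ, 0 < C ∧ ∀ (N p : ℕ) (α : ℝ) (χ : ℕ → ℝ), 1 ≤ N → p.Prime → ¬ p ∣ N →
  (∀ Q ∈ UD N, χ Q = 1 ∨ χ Q = -1) → ∀ S : Submodule ℂ (ℕ → ℂ),
  ((∀ b, b ∈ S ↔ (Cusp N b ∧ EW N χ b)) →
    (Module.finrank ℂ S : ℝ) ≤ C * (psi N / 2 ^ N.primeFactors.card)) ∧
  ((∀ b, b ∈ S ↔ (Cusp N b ∧ EW N χ b ∧ ∀ n, Tl p b n = (α : ℂ) * b n)) →
    (Module.finrank ℂ S : ℝ) ≤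
      C * (psi N / 2 ^ N.primeFactors.card) * Real.log p / Real.log (N + 1))

/-! ## Part 6: assembly -/

/-- DISCF: the lattice of a newform -/
def ST_DISCF : Prop := ∃ C : ℝ, 0 < C ∧ ∀ (N p : ℕ) (a : ℕ → ℤ), 1 ≤ N → p.Prime → ¬ p ∣ N →
  Newform N a → ∃ e1 e2 : ℂ, (e1 * (starRingEnd ℂ) e2).im ≠ 0 ∧
  (∀ α : ℂ, (fun n => α * (a n : ℂ)) ∈ Lc N ↔ ∃ k1 k2 : ℤ, α = k1 * e1 + k2 * e2) ∧
  |2 * Bc N (fun n => e1 * (a n : ℂ)) (fun n => e2 * (a n : ℂ))| ≤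
    Real.exp (C * (psi N / 2 ^ N.primeFactors.card) * (1 + N.primeFactors.card + Real.log p))

/-- HB: bound for periods -/
def ST_HB : Prop := ∃ C : ℝ, 0 < C ∧ ∀ (N : ℕ) (b : ℕ → ℂ), 1 ≤ N → Cusp N b →
  ∀ p q r s : ℤ, G0 N p q r s →
  ‖FC b p r - FC b 1 0‖ ≤ C * Real.sqrt (nrm N b) * (1 + Real.log (1 + |(r : ℝ)|))

/-- GEN: small generators -/
def ST_GEN : Prop := ∀ N : ℕ, 1 ≤ N →
  Subgroup.closure {γ : SL(2, ℤ) | γ ∈ CongruenceSubgroup.Gamma0 N ∧ |γ 1 0| ≤ 100 * (N : ℤ) ^ 10} =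
    CongruenceSubgroup.Gamma0 N

/-- SMP: a small prime not dividing `N` -/
def ST_SMP : Prop := ∀ N : ℕ, 1 ≤ N → ∃ p : ℕ, p.Prime ∧ ¬ p ∣ N ∧ p ≤ 2 ^ (N.primeFactors.card + 1)

/-- MAIND: the main theorem in terms of cusps -/
def ST_MAIND : Prop := ∃ C : ℝ, 0 < C ∧ ∀ (N : ℕ) (a : ℕ → ℤ), 1 ≤ N → Newform N a →
  ∀ (p1 r1 p2 r2 : ℤ) (q1 s1 q2 s2 : ℤ) (Ω₁ Ω₂ : ℂ), G0 N p1 q1 r1 s1 → G0 N p2 q2 r2 s2 →
  Ω₁ = FC (fun k => (a k : ℂ)) p1 r1 → Ω₂ = FC (fun k => (a k : ℂ)) p2 r2 →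
  Ω₁.im = 0 → 0 < Ω₁.re → 0 < Ω₂.im → 0 ≤ Ω₂.re → Ω₂.re < Ω₁.re →
  ∀ p q r s : ℤ, G0 N p q r s → ∀ m n : ℤ,
    FC (fun k => (a k : ℂ)) p r = (m : ℂ) * Ω₁ + (n : ℂ) * Ω₂ →
    |(m : ℝ)| ≤ (1 + Real.log (1 + |(r : ℝ)|)) *
      Real.exp (C * (psi N / 2 ^ N.primeFactors.card) * (1 + N.primeFactors.card)) ∧
    |(n : ℝ)| ≤ (1 + Real.log (1 + |(r : ℝ)|)) *
      Real.exp (C * (psi N / 2 ^ N.primeFactors.card) * (1 + N.primeFactors.card))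

end Pool.Agent.Helper96.MP
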