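import Pool.Agent.Helper9.MP.Amp

/-!
# MP_bde085_nt: small library on `mob`, `jj`, `mo`, `gsq`
-/

set_option autoImplicit false

namespace Pool.Agent.Helper96.MP

open Complex MeasureTheory Filter Topology
open scoped MatrixGroups

namespace Lib

theorem det1 (g : SL(2, ℤ)) : g 0 0 * g 1 1 - g 0 1 * g 1 0 = 1 := by
  have := g.2
  rw [Matrix.det_fin_two] at this
  exact this

theorem det1C (g : SL(2, ℤ)) : ((g 0 0 : ℤ) : ℂ) * ((g 1 1 : ℤ) : ℂ) - ((g 0 1 : ℤ) : ℂ) * ((g 1 0 : ℤ) : ℂ) = 1 := by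
  exact_mod_cast congrArg (fun n : ℤ => (n : ℂ)) (det1 g)

theorem jj_ne (g : SL(2, ℤ)) {z : ℂ} (hz : z ∈ UH) : jj g z ≠ 0 := by
  intro h
  have him : (jj g z).im = 0 := by rw [h]; simp
  have hre : (jj g z).re = 0 := by rw [h]; simp
  have h1 : ((g 1 0 : ℤ) : ℝ) * z.im = 0 := by
    simpa [jj] using him
  have hc : ((g 1 0 : ℤ) : ℝ) = 0 := by
    rcases mul_eq_zero.mp h1 with h2 | h2
    · exact h2
    · exact absurd h2 (ne_of_gt hz)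
  have hd : ((g 1 1 : ℤ) : ℝ) = 0 := by
    have : ((g 1 0 : ℤ) : ℝ) * z.re + ((g 1 1 : ℤ) : ℝ) = 0 := by simpa [jj] using hre
    rw [hc] at this; linarith
  have hc' : g 1 0 = 0 := by exact_mod_cast hc
  have hd' : g 1 1 = 0 := by exact_mod_cast hd
  have := det1 g
  rw [hc', hd'] at this
  norm_num at this

theorem mob_eq (g : SL(2, ℤ)) (z : ℂ) :
    mob g z = (((g 0 0 : ℤ) : ℂ) * z + ((g 0 1 : ℤ) : ℂ)) / jj g z := rfl

theorem mo_im (p q r s : ℤ) (z : ℂ) (h : (r : ℂ) * z + s ≠ 0) :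
    (mo p q r s z).im = ((p * s - q * r : ℤ) : ℝ) * z.im / ‖(r : ℂ) * z + s‖ ^ 2 := by
  have hn : Complex.normSq ((r : ℂ) * z + s) ≠ 0 := by
    simpa [Complex.normSq_eq_zero] using h
  have hn2 : Complex.normSq ((r : ℂ) * z + s) = ‖(r : ℂ) * z + s‖ ^ 2 := Complex.normSq_eq_norm_sq _
  rw [← hn2, mo, Complex.div_im, ← sub_div]
  congr 1
  simp only [Complex.add_im, Complex.mul_im, Complex.intCast_re, Complex.intCast_im, Complex.add_re,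
    Complex.mul_re, zero_mul, add_zero, sub_zero]
  push_cast
  ring

theorem mob_im (g : SL(2, ℤ)) {z : ℂ} (hz : z ∈ UH) : (mob g z).im = z.im / ‖jj g z‖ ^ 2 := by
  have h := mo_im (g 0 0) (g 0 1) (g 1 0) (g 1 1) z (jj_ne g hz)
  rw [det1 g] at h
  simpa [mob, jj] using h

theorem mob_mem (g : SL(2, ℤ)) {z : ℂ} (hz : z ∈ UH) : mob g z ∈ UH := by
  show 0 < (mob g z).im
  rw [mob_im g hz]
  exact div_pos hz (by have := jj_ne g hz; positivity)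

theorem mul00 (g h : SL(2, ℤ)) : (g * h) 0 0 = g 0 0 * h 0 0 + g 0 1 * h 1 0 := by
  simp [Matrix.SpecialLinearGroup.coe_mul, Matrix.mul_apply, Fin.sum_univ_two]
theorem mul01 (g h : SL(2, ℤ)) : (g * h) 0 1 = g 0 0 * h 0 1 + g 0 1 * h 1 1 := by
  simp [Matrix.SpecialLinearGroup.coe_mul, Matrix.mul_apply, Fin.sum_univ_two]
theorem mul10 (g h : SL(2, ℤ)) : (g * h) 1 0 = g 1 0 * h 0 0 + g 1 1 * h 1 0 := by
  simp [Matrix.SpecialLinearGroup.coe_mul, Matrix.mul_apply, Fin.sum_univ_two]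
theorem mul11 (g h : SL(2, ℤ)) : (g * h) 1 1 = g 1 0 * h 0 1 + g 1 1 * h 1 1 := by
  simp [Matrix.SpecialLinearGroup.coe_mul, Matrix.mul_apply, Fin.sum_univ_two]

theorem jj_mul (g h : SL(2, ℤ)) {z : ℂ} (hz : z ∈ UH) :
    jj (g * h) z = jj g (mob h z) * jj h z := by
  have hne := jj_ne h hz
  have e : jj g (mob h z) * jj h z = ((g 1 0 : ℤ) : ℂ) * (mob h z * jj h z) + ((g 1 1 : ℤ) : ℂ) * jj h z := by
    simp only [jj]; ring
  have e2 : mob h z * jj h z = ((h 0 0 : ℤ) : ℂ) * z + ((h 0 1 : ℤ) : ℂ) := by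
    rw [mob_eq, div_mul_cancel₀ _ hne]
  rw [e, e2]
  simp only [jj]
  rw [mul10, mul11]
  push_cast
  ring

theorem mob_mul (g h : SL(2, ℤ)) {z : ℂ} (hz : z ∈ UH) :
    mob (g * h) z = mob g (mob h z) := by
  have hne := jj_ne h hz
  have hne2 := jj_ne g (mob_mem h hz)
  have hne3 := jj_ne (g * h) hz
  have e2 : mob h z * jj h z = ((h 0 0 : ℤ) : ℂ) * z + ((h 0 1 : ℤ) : ℂ) := by
    rw [mob_eq h z, div_mul_cancel₀ _ hne]
  rw [mob_eq (g * h), mob_eq g (mob h z), div_eq_div_iff hne3 hne2, jj_mul g h hz]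
  have e3 : (((g 0 0 : ℤ) : ℂ) * mob h z + ((g 0 1 : ℤ) : ℂ)) * jj h z =
      ((g * h) 0 0 : ℤ) * z + ((g * h) 0 1 : ℤ) := by
    have : (((g 0 0 : ℤ) : ℂ) * mob h z + ((g 0 1 : ℤ) : ℂ)) * jj h z =
      ((g 0 0 : ℤ) : ℂ) * (mob h z * jj h z) + ((g 0 1 : ℤ) : ℂ) * jj h z := by ring
    rw [this, e2]
    simp only [jj]
    rw [mul00, mul01]
    push_cast
    ring
  rw [← e3]
  ring

theorem mob_one (z : ℂ) : mob 1 z = z := by
  simp [mob, mo]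

theorem mob_inv_mob (g : SL(2, ℤ)) {z : ℂ} (hz : z ∈ UH) : mob g⁻¹ (mob g z) = z := by
  rw [← mob_mul g⁻¹ g hz, inv_mul_cancel, mob_one]

theorem mob_mob_inv (g : SL(2, ℤ)) {z : ℂ} (hz : z ∈ UH) : mob g (mob g⁻¹ z) = z := by
  rw [← mob_mul g g⁻¹ hz, mul_inv_cancel, mob_one]

theorem mob_neg (g : SL(2, ℤ)) (z : ℂ) : mob (-g) z = mob g z := by
  simp only [mob, mo, Matrix.SpecialLinearGroup.coe_neg, Matrix.neg_apply]
  push_cast
  rw [show -((g 0 0 : ℤ) : ℂ) * z + -((g 0 1 : ℤ) : ℂ) = -(((g 0 0 : ℤ) : ℂ) * z + ((g 0 1 : ℤ) : ℂ)) by ring,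
    show -((g 1 0 : ℤ) : ℂ) * z + -((g 1 1 : ℤ) : ℂ) = -(((g 1 0 : ℤ) : ℂ) * z + ((g 1 1 : ℤ) : ℂ)) by ring,
    neg_div_neg_eq]

theorem mob_sub (g : SL(2, ℤ)) {z w : ℂ} (hz : z ∈ UH) (hw : w ∈ UH) :
    mob g z - mob g w = (z - w) / (jj g z * jj g w) := by
  have h1 := jj_ne g hz
  have h2 := jj_ne g hw
  rw [mob_eq, mob_eq, div_sub_div _ _ h1 h2]
  congr 1
  simp only [jj]
  linear_combination (z - w) * det1C g

theorem hasDerivAt_mob (g : SL(2, ℤ)) {z : ℂ} (hz : z ∈ UH) :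
    HasDerivAt (mob g) ((jj g z ^ 2)⁻¹) z := by
  have h1 := jj_ne g hz
  have hnum : HasDerivAt (fun z : ℂ => ((g 0 0 : ℤ) : ℂ) * z + ((g 0 1 : ℤ) : ℂ)) ((g 0 0 : ℤ) : ℂ) z := by
    simpa using ((hasDerivAt_id z).const_mul ((g 0 0 : ℤ) : ℂ)).add_const ((g 0 1 : ℤ) : ℂ)
  have hden : HasDerivAt (fun z : ℂ => jj g z) ((g 1 0 : ℤ) : ℂ) z := by
    simpa [jj] using ((hasDerivAt_id z).const_mul ((g 1 0 : ℤ) : ℂ)).add_const ((g 1 1 : ℤ) : ℂ)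
  have h := hnum.div hden h1
  have e : (((g 0 0 : ℤ) : ℂ) * jj g z - (((g 0 0 : ℤ) : ℂ) * z + ((g 0 1 : ℤ) : ℂ)) * ((g 1 0 : ℤ) : ℂ)) /
      jj g z ^ 2 = (jj g z ^ 2)⁻¹ := by
    rw [div_eq_mul_inv]
    have : (((g 0 0 : ℤ) : ℂ) * jj g z - (((g 0 0 : ℤ) : ℂ) * z + ((g 0 1 : ℤ) : ℂ)) * ((g 1 0 : ℤ) : ℂ)) = 1 := by
      simp only [jj]
      linear_combination det1C g
    rw [this, one_mul]
  rw [e] at h
  exact h

theorem g0_of_mem {N : ℕ} {g : SL(2, ℤ)} (h : g ∈ CongruenceSubgroup.Gamma0 N) :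
    G0 N (g 0 0) (g 0 1) (g 1 0) (g 1 1) := by
  refine ⟨det1 g, ?_⟩
  have := CongruenceSubgroup.Gamma0_mem.mp h
  exact (ZMod.intCast_zmod_eq_zero_iff_dvd _ _).mp (by simpa using this)

theorem mem_of_dvd {N : ℕ} {g : SL(2, ℤ)} (h : (N : ℤ) ∣ g 1 0) :
    g ∈ CongruenceSubgroup.Gamma0 N := by
  rw [CongruenceSubgroup.Gamma0_mem]
  exact (ZMod.intCast_zmod_eq_zero_iff_dvd _ _).mpr h

theorem qs_mob {N : ℕ} {b : ℕ → ℂ} (hb : Cusp N b) {g : SL(2, ℤ)}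
    (hg : g ∈ CongruenceSubgroup.Gamma0 N) {z : ℂ} (hz : z ∈ UH) :
    qs b (mob g z) = jj g z ^ 2 * qs b z := by
  obtain ⟨h1, h2⟩ := g0_of_mem hg
  exact hb.inv z hz _ _ _ _ h1 h2

theorem gsq_inv {N : ℕ} {b : ℕ → ℂ} (hb : Cusp N b) {g : SL(2, ℤ)}
    (hg : g ∈ CongruenceSubgroup.Gamma0 N) (h : SL(2, ℤ)) {z : ℂ} (hz : z ∈ UH) :
    gsq b (g * h) z = gsq b h z := by
  have hz2 := mob_mem h hz
  have h1 := jj_ne h hz
  have h2 := jj_ne g hz2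
  unfold gsq
  rw [mob_mul g h hz, jj_mul g h hz, qs_mob hb hg hz2, norm_mul, norm_mul, norm_pow]
  have h3 : ‖jj g (mob h z)‖ ≠ 0 := norm_ne_zero_iff.mpr h2
  have h4 : ‖jj h z‖ ≠ 0 := norm_ne_zero_iff.mpr h1
  field_simp

theorem gsq_im (b : ℕ → ℂ) (h : SL(2, ℤ)) {z : ℂ} (hz : z ∈ UH) :
    gsq b h z * z.im ^ 2 = (mob h z).im ^ 2 * ‖qs b (mob h z)‖ ^ 2 := by
  have h4 : ‖jj h z‖ ≠ 0 := norm_ne_zero_iff.mpr (jj_ne h hz)
  unfold gsq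
  rw [mob_im h hz]
  field_simp

theorem gsq_nonneg (b : ℕ → ℂ) (h : SL(2, ℤ)) (z : ℂ) : 0 ≤ gsq b h z := by
  unfold gsq; positivity

/-- hyperbolic distance is invariant -/
theorem dist_mob (g : SL(2, ℤ)) {z w : ℂ} (hz : z ∈ UH) (hw : w ∈ UH) :
    ‖mob g z - mob g w‖ ^ 2 / ((mob g z).im * (mob g w).im) = ‖z - w‖ ^ 2 / (z.im * w.im) := by
  have h1 : ‖jj g z‖ ≠ 0 := norm_ne_zero_iff.mpr (jj_ne g hz)
  have h2 : ‖jj g w‖ ≠ 0 := norm_ne_zero_iff.mpr (jj_ne g hw)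
  have hz' : z.im ≠ 0 := ne_of_gt hz
  have hw' : w.im ≠ 0 := ne_of_gt hw
  rw [mob_sub g hz hw, mob_im g hz, mob_im g hw, norm_div, norm_mul]
  field_simp

theorem SB_sub_UH : SB ⊆ UH := by
  intro z hz
  have := hz.2
  show 0 < z.im
  linarith

theorem T_pow_coe (k : ℤ) : ((ModularGroup.T ^ k : SL(2, ℤ)) : Matrix (Fin 2) (Fin 2) ℤ) = !![1, k; 0, 1] :=
  ModularGroup.coe_T_zpow k

theorem mob_T_zpow (k : ℤ) (z : ℂ) : mob (ModularGroup.T ^ k) z = z + k := by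
  simp [mob, mo, ModularGroup.coe_T_zpow]

theorem jj_T_zpow (k : ℤ) (z : ℂ) : jj (ModularGroup.T ^ k) z = 1 := by
  simp [jj, ModularGroup.coe_T_zpow]

theorem isOpen_UH : IsOpen UH := isOpen_lt continuous_const Complex.continuous_im

theorem continuousOn_mob (g : SL(2, ℤ)) : ContinuousOn (mob g) UH :=
  fun _ hz => (hasDerivAt_mob g hz).continuousAt.continuousWithinAt

theorem injOn_mob (g : SL(2, ℤ)) : Set.InjOn (mob g) UH := by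
  intro z hz w hw h
  have := congrArg (mob g⁻¹) h
  simpa [mob_inv_mob g hz, mob_inv_mob g hw] using this

/-- every point of the upper half plane is equivalent to a point of the box -/
theorem exists_mob_SB {z : ℂ} (hz : z ∈ UH) : ∃ g : SL(2, ℤ), mob g z ∈ SB := by
  obtain ⟨g, hg⟩ := ModularGroup.exists_smul_mem_fd (⟨z, hz⟩ : UpperHalfPlane)
  have hco : ((g • (⟨z, hz⟩ : UpperHalfPlane) : UpperHalfPlane) : ℂ) = mob g z := by
    rw [UpperHalfPlane.specialLinearGroup_apply]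
    simp [mob, mo]
  have h1 : 1 ≤ Complex.normSq (mob g z) := by rw [← hco]; exact hg.1
  have h2 : |(mob g z).re| ≤ 1 / 2 := by rw [← hco]; exact hg.2
  refine ⟨g, h2, ?_⟩
  have h3 : 0 < (mob g z).im := mob_mem g hz
  rw [Complex.normSq_apply] at h1
  have h4 : (mob g z).re * (mob g z).re ≤ 1 / 4 := by
    have := abs_le.mp h2
    nlinarith
  nlinarith

end Lib

end Pool.Agent.Helper96.MP
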