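import Pool.Agent.Helper9.MP.Lib

set_option autoImplicit false

namespace Pool.Agent.Helper96.MP

open Complex MeasureTheory Filter Topology
open scoped MatrixGroups

theorem nrm_Ici {Y : ℝ} (hY : 0 < Y) : IntegrableOn (fun y : ℝ => (y ^ 2)⁻¹) (Set.Ici Y) ∧
    ∫ y in Set.Ici Y, (y ^ 2)⁻¹ = Y⁻¹ := by
  have h1 : ∀ y ∈ Set.Ioi Y, y ^ (-2 : ℝ) = (y ^ 2)⁻¹ := by
    intro y hy
    have : 0 < y := lt_trans hY hy
    rw [Real.rpow_neg this.le]
    norm_num
  constructor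
  · rw [integrableOn_Ici_iff_integrableOn_Ioi]
    have := integrableOn_Ioi_rpow_of_lt (show (-2 : ℝ) < -1 by norm_num) hY
    exact this.congr_fun h1 measurableSet_Ioi
  · rw [integral_Ici_eq_integral_Ioi, ← setIntegral_congr_fun measurableSet_Ioi h1,
      integral_Ioi_rpow_of_lt (by norm_num) hY]
    norm_num
    rw [Real.rpow_neg hY.le, Real.rpow_one]

theorem nrm_set {Y : ℝ} (hY : 4 / 5 ≤ Y) : SB ∩ {z : ℂ | Y ≤ z.im} =
    Complex.measurableEquivRealProd ⁻¹' (Set.Icc (-1 / 2 : ℝ) (1 / 2) ×ˢ Set.Ici Y) := by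
  ext z
  simp only [SB, Set.mem_inter_iff, Set.mem_ofPred_eq, Set.mem_preimage, Set.mem_prod,
    Complex.measurableEquivRealProd_apply, Set.mem_Icc, Set.mem_Ici]
  constructor
  · rintro ⟨⟨h1, h2⟩, h3⟩
    have := abs_le.mp h1
    exact ⟨⟨by linarith [this.1], this.2⟩, h3⟩
  · rintro ⟨⟨h1, h2⟩, h3⟩
    exact ⟨⟨abs_le.mpr ⟨by linarith, h2⟩, by linarith⟩, h3⟩

theorem nrm_box {Y : ℝ} (hY : 4 / 5 ≤ Y) :
    IntegrableOn (fun z : ℂ => (z.im ^ 2)⁻¹) (SB ∩ {z | Y ≤ z.im}) ∧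
    ∫ z in SB ∩ {z : ℂ | Y ≤ z.im}, (z.im ^ 2)⁻¹ = Y⁻¹ := by
  have hY0 : 0 < Y := by linarith
  obtain ⟨hi, he⟩ := nrm_Ici hY0
  have hmp := Complex.volume_preserving_equiv_real_prod
  have hemb := Complex.measurableEquivRealProd.measurableEmbedding
  rw [nrm_set hY]
  have hprod : (volume : Measure (ℝ × ℝ)).restrict (Set.Icc (-1 / 2 : ℝ) (1 / 2) ×ˢ Set.Ici Y) =
      (volume.restrict (Set.Icc (-1 / 2 : ℝ) (1 / 2))).prod (volume.restrict (Set.Ici Y)) := by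
    rw [Measure.prod_restrict]; rfl
  have hfun : ∀ z : ℂ, (z.im ^ 2)⁻¹ =
      (fun u : ℝ × ℝ => (fun _ : ℝ => (1 : ℝ)) u.1 * (fun y : ℝ => (y ^ 2)⁻¹) u.2)
        (Complex.measurableEquivRealProd z) := by
    intro z; simp [Complex.measurableEquivRealProd_apply]
  constructor
  · have : IntegrableOn (fun u : ℝ × ℝ => (fun _ : ℝ => (1 : ℝ)) u.1 * (fun y : ℝ => (y ^ 2)⁻¹) u.2)
        (Set.Icc (-1 / 2 : ℝ) (1 / 2) ×ˢ Set.Ici Y) := by
      unfold IntegrableOn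
      rw [hprod]
      exact Integrable.mul_prod (integrable_const (1 : ℝ)) hi
    have h2 := (hmp.integrableOn_comp_preimage hemb).mpr this
    exact h2.congr (Eventually.of_forall fun z => (hfun z).symm)
  · have h2 := hmp.setIntegral_preimage_emb hemb
      (fun u : ℝ × ℝ => (fun _ : ℝ => (1 : ℝ)) u.1 * (fun y : ℝ => (y ^ 2)⁻¹) u.2)
      (Set.Icc (-1 / 2 : ℝ) (1 / 2) ×ˢ Set.Ici Y)
    have h3 : ∫ z in Complex.measurableEquivRealProd ⁻¹' (Set.Icc (-1 / 2 : ℝ) (1 / 2) ×ˢ Set.Ici Y),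
        (z.im ^ 2)⁻¹ = ∫ z in Complex.measurableEquivRealProd ⁻¹'
          (Set.Icc (-1 / 2 : ℝ) (1 / 2) ×ˢ Set.Ici Y),
          (fun u : ℝ × ℝ => (fun _ : ℝ => (1 : ℝ)) u.1 * (fun y : ℝ => (y ^ 2)⁻¹) u.2)
          (Complex.measurableEquivRealProd z) :=
      integral_congr_ae (Eventually.of_forall fun z => hfun z)
    rw [h3, h2, ← he, hprod]
    have h4 := integral_prod_mul (μ := volume.restrict (Set.Icc (-1 / 2 : ℝ) (1 / 2)))
      (ν := volume.restrict (Set.Ici Y)) (fun _ : ℝ => (1 : ℝ)) (fun y : ℝ => (y ^ 2)⁻¹)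
    refine h4.trans ?_
    have h5 : ∫ _ : ℝ in Set.Icc (-1 / 2 : ℝ) (1 / 2), (1 : ℝ) = 1 := by
      rw [setIntegral_const]
      norm_num [Measure.real, Real.volume_Icc]
    rw [h5, one_mul]

theorem st_NRM (hQ : ST_QDIF) : ST_NRM := by
  refine ⟨?_, fun z hz => Lib.exists_mob_SB hz, fun Y hY => nrm_box hY⟩
  intro N b hN hb h
  obtain ⟨_, hd, _⟩ := hQ N b hN hb
  have hcont : ContinuousOn (gsq b h) UH := by
    have h1 : ContinuousOn (fun z => qs b (mob h z)) UH :=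
      hd.continuousOn.comp (Lib.continuousOn_mob h) (fun z hz => Lib.mob_mem h hz)
    have h2 : Continuous (fun z => jj h z) := by unfold jj; fun_prop
    unfold gsq
    refine (h1.norm.pow 2).div (h2.norm.pow 4).continuousOn ?_
    intro z hz
    have := Lib.jj_ne h hz
    positivity
  have hmeas : MeasurableSet SB := by
    have h1 : IsClosed SB := by
      have : SB = {z : ℂ | |z.re| ≤ 1 / 2} ∩ {z : ℂ | 4 / 5 ≤ z.im} := rfl
      rw [this]
      exact (isClosed_le (by fun_prop) continuous_const).inter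
        (isClosed_le continuous_const Complex.continuous_im)
    exact h1.measurableSet
  refine ⟨hcont, ?_, ?_, fun γ hγ z hz => Lib.gsq_inv hb hγ h hz⟩
  · obtain ⟨B, hB⟩ := hb.bdd
    have hbox := (nrm_box (le_refl (4 / 5 : ℝ))).1
    have hse : SB ∩ {z : ℂ | 4 / 5 ≤ z.im} = SB := by
      ext z; exact ⟨fun h => h.1, fun h => ⟨h, h.2⟩⟩
    rw [hse] at hbox
    refine Integrable.mono' (hbox.const_mul (B ^ 2)) ?_ ?_
    · exact (hcont.mono Lib.SB_sub_UH).aestronglyMeasurable hmeas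
    · refine (ae_restrict_iff' hmeas).mpr (Eventually.of_forall fun z hz => ?_)
      have hz' := Lib.SB_sub_UH hz
      have hy : 0 < z.im := hz'
      rw [Real.norm_of_nonneg (Lib.gsq_nonneg b h z), ← div_eq_mul_inv, le_div_iff₀ (by positivity),
        Lib.gsq_im b h hz', ← mul_pow]
      have h1 := hB (mob h z) (Lib.mob_mem h hz')
      have h2 : 0 ≤ (mob h z).im * ‖qs b (mob h z)‖ :=
        mul_nonneg (le_of_lt (Lib.mob_mem h hz')) (norm_nonneg _)
      exact pow_le_pow_left₀ h2 h1 2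
  · exact setIntegral_nonneg hmeas fun z _ => Lib.gsq_nonneg b h z

end Pool.Agent.Helper96.MP
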