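import Pool.Agent.Helper9.MP.Lat

/-!
# MP_bde085_nt, block D: newforms are eigenforms of the Atkin-Lehner operators (module SGN)
-/

set_option autoImplicit false

namespace Pool.Agent.Helper96.MP

open Complex MeasureTheory Filter Topology
open scoped MatrixGroups

theorem sgn_qs_smul (b : ℕ → ℂ) (c : ℂ) (z : ℂ) : qs (fun n => c * b n) z = c * qs b z := by
  unfold qs
  rw [← tsum_mul_left]
  congr 1
  funext k
  ring

theorem sgn_AL_smul (N Q : ℕ) (b c : ℕ → ℂ) (κ : ℂ) (h : AL0 N Q b c) :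
    AL0 N Q (fun n => κ * b n) (fun n => κ * c n) := by
  intro A B C D hM z hz
  rw [sgn_qs_smul, sgn_qs_smul, h A B C D hM z hz]
  ring

theorem sgn_cusp_smul (N : ℕ) (b : ℕ → ℂ) (hb : Cusp N b) (c : ℂ) :
    Cusp N (fun n => c * b n) := by
  refine ⟨fun τ hτ => ?_, fun τ hτ p q r s h1 h2 => ?_, ?_⟩
  · have h := (hb.sum τ hτ).mul_left c
    refine h.congr fun k => ?_
    ring
  · have e1 := hb.inv τ hτ p q r s h1 h2
    rw [sgn_qs_smul, sgn_qs_smul, e1]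
    ring
  · obtain ⟨B, hB⟩ := hb.bdd
    refine ⟨‖c‖ * B, fun τ hτ => ?_⟩
    rw [sgn_qs_smul, norm_mul]
    calc τ.im * (‖c‖ * ‖qs b τ‖) = ‖c‖ * (τ.im * ‖qs b τ‖) := by ring
      _ ≤ ‖c‖ * B := mul_le_mul_of_nonneg_left (hB τ hτ) (norm_nonneg _)

theorem sgn_Tf (N : ℕ) (a : ℕ → ℤ) (ha : Newform N a) (l : ℕ) (h1 : l.Prime) (h2 : ¬ l ∣ N) :
    Tl l (fun k => (a k : ℂ)) = fun n => (a l : ℂ) * (a n : ℂ) := by
  funext n
  have h := ha.hecke l h1 h2 n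
  have h3 := congrArg (fun z : ℤ => (z : ℂ)) h
  simp only [Tl]
  push_cast at h3
  rw [← h3]

/-- SGN -/
theorem st_SGN (hE : ST_WEX) (hM : ST_WMUL) (hT : ST_WTL) (hO : ST_MONE) (hQ : ST_TQM)
    (hH : ST_HECKE) : ST_SGN := by
  classical
  intro N a hN ha
  have hf := ha.cusp
  set f : ℕ → ℂ := fun k => (a k : ℂ) with hfdef
  have hf1 : f 1 = 1 := by simp [hfdef, ha.one]
  have key : ∀ Q ∈ UD N, ∃ ε : ℝ, (ε = 1 ∨ ε = -1) ∧ AL0 N Q f (fun n => (ε : ℂ) * f n) := by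
    intro Q hQN
    obtain ⟨c, hc, hfc⟩ := hE N Q f hN hQN hf
    obtain ⟨κ, hκ⟩ := hO N a hN ha c hc (by
      intro l hl hlN _ n
      have h1 := hT N Q l f c hN hQN hl hlN hf hc hfc
      rw [hfdef, sgn_Tf N a ha l hl hlN] at h1
      have h2 := sgn_AL_smul N Q f c (a l : ℂ) hfc
      have hTc := hH N l c hN hl hlN hc
      have h3 := (hM N Q Q (fun n => (a l : ℂ) * f n) (Tl l c) (fun n => (a l : ℂ) * c n) hN hQN hQN
        (sgn_cusp_smul N f hf _) hTc (sgn_cusp_smul N c hc _) h1).2.1 h2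
      exact congrFun h3 n)
    have hcf : c = fun n => κ * f n := funext hκ
    -- `κ ^ 2 = 1`
    have h4 := (hM N Q Q f c c hN hQN hQN hf hc hc hfc).2.2.1
    have h5 := sgn_AL_smul N Q f c κ hfc
    rw [← hcf] at h5
    have h6 := (hM N Q Q c f (fun n => κ * c n) hN hQN hQN hc hf (sgn_cusp_smul N c hc _) h4).2.1 h5
    have h7 := congrFun h6 1
    rw [hcf] at h7
    simp only [hf1, mul_one] at h7
    have h8 : (κ - 1) * (κ + 1) = 0 := by linear_combination -h7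
    rcases mul_eq_zero.1 h8 with h9 | h9
    · refine ⟨1, Or.inl rfl, ?_⟩
      have : κ = 1 := by linear_combination h9
      rw [hcf, this] at hfc
      simpa using hfc
    · refine ⟨-1, Or.inr rfl, ?_⟩
      have : κ = -1 := by linear_combination h9
      rw [hcf, this] at hfc
      simpa using hfc
  choose! χ hχ1 hχ2 using key
  refine ⟨χ, ⟨hχ1, ?_⟩, hχ2⟩
  intro Q hQN Q' hQN'
  obtain ⟨⟨_, hcx⟩, _⟩ := hQ N hN
  have hcxm := (hcx Q hQN Q' hQN').1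
  have h1 := hχ2 Q hQN
  have h2 := sgn_AL_smul N Q' f (fun n => (χ Q' : ℂ) * f n) (χ Q : ℂ) (hχ2 Q' hQN')
  have hc1 := sgn_cusp_smul N f hf (χ Q : ℂ)
  have hc2 := sgn_cusp_smul N f hf (χ Q' : ℂ)
  have hc3 := sgn_cusp_smul N _ hc2 (χ Q : ℂ)
  have h3 := (hM N Q Q' f _ _ hN hQN hQN' hf hc1 hc3 h1).1 h2
  have h4 := hχ2 _ hcxm
  have hc4 := sgn_cusp_smul N f hf (χ (cx Q Q') : ℂ)
  have h5 := (hM N (cx Q Q') Q f _ _ hN hcxm hQN hf hc3 hc4 h3).2.1 h4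
  have h6 := congrFun h5 1
  simp only [hf1, mul_one] at h6
  have h7 : ((χ Q * χ Q' : ℝ) : ℂ) = (χ (cx Q Q') : ℂ) := by
    push_cast
    exact h6
  exact (Complex.ofReal_injective h7).symm

end Pool.Agent.Helper96.MP
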