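import Pool.Agent.Helper9.MP.Lib

set_option autoImplicit false

namespace Pool.Agent.Helper96.MP

theorem sumb_neg (p : ℕ) (α : ℝ) : ∀ j : ℕ, bet p (-α) j = (-1) ^ j * bet p α j
  | 0 => by simp [bet]
  | 1 => by simp [bet]
  | 2 => by simp [bet]
  | (j + 3) => by
    rw [bet, bet, sumb_neg p α (j + 2), sumb_neg p α (j + 1)]
    ring

theorem sumb_D (p : ℕ) (α : ℝ) (j : ℕ) :
    (p : ℝ) * bet p α (j + 1) ^ 2 + bet p α (j + 2) ^ 2 - α * bet p α (j + 1) * bet p α (j + 2) =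
      (p : ℝ) ^ j * (((p : ℝ) + 1) ^ 2 - α ^ 2) := by
  induction j with
  | zero => simp only [bet]; ring
  | succ j ih =>
    rw [show j + 1 + 2 = j + 3 from rfl, show j + 1 + 1 = j + 2 from rfl, bet]
    linear_combination (p : ℝ) * ih

theorem sumb_small (p : ℕ) (α : ℝ) (hp : 2 ≤ p) (h : α ^ 2 ≤ 4 * p) (j : ℕ) :
    1 / 8 ≤ bet p α (j + 1) ^ 2 / (p : ℝ) ^ (j + 1) + bet p α (j + 2) ^ 2 / (p : ℝ) ^ (j + 2) := by
  have hp' : (2 : ℝ) ≤ p := by exact_mod_cast hp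
  have hpp : (0 : ℝ) < p := by linarith
  have hD := sumb_D p α j
  set a := bet p α (j + 1)
  set b := bet p α (j + 2)
  have h1 : 0 ≤ (p : ℝ) * a ^ 2 + b ^ 2 + α * a * b := by
    have : 0 ≤ 4 * (p : ℝ) * ((p : ℝ) * a ^ 2 + b ^ 2 + α * a * b) := by
      have e : 4 * (p : ℝ) * ((p : ℝ) * a ^ 2 + b ^ 2 + α * a * b) =
        (2 * p * a + α * b) ^ 2 + (4 * p - α ^ 2) * b ^ 2 := by ring
      rw [e]
      have : 0 ≤ (4 * (p : ℝ) - α ^ 2) := by linarith
      positivity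
    by_contra hc
    push Not at hc
    have : 4 * (p : ℝ) * ((p : ℝ) * a ^ 2 + b ^ 2 + α * a * b) < 0 :=
      mul_neg_of_pos_of_neg (by linarith) hc
    linarith
  have h2 : (p : ℝ) ^ j * (((p : ℝ) + 1) ^ 2 - α ^ 2) ≤ 2 * ((p : ℝ) * a ^ 2 + b ^ 2) := by
    rw [← hD]; linarith
  have h3 : (p : ℝ) ^ 2 / 4 ≤ ((p : ℝ) + 1) ^ 2 - α ^ 2 := by nlinarith
  have hpj : 0 < (p : ℝ) ^ j := by positivity
  have h4 : (p : ℝ) ^ j * ((p : ℝ) ^ 2 / 4) ≤ 2 * ((p : ℝ) * a ^ 2 + b ^ 2) :=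
    le_trans (mul_le_mul_of_nonneg_left h3 hpj.le) h2
  have e : a ^ 2 / (p : ℝ) ^ (j + 1) + b ^ 2 / (p : ℝ) ^ (j + 2) =
      ((p : ℝ) * a ^ 2 + b ^ 2) / (p : ℝ) ^ (j + 2) := by
    have hp1 : (p : ℝ) ^ (j + 1) ≠ 0 := by positivity
    have hp2 : (p : ℝ) ^ (j + 2) ≠ 0 := by positivity
    rw [div_add_div _ _ hp1 hp2, div_eq_div_iff (mul_ne_zero hp1 hp2) hp2]
    ring
  rw [e, le_div_iff₀ (by positivity)]
  have e2 : (p : ℝ) ^ (j + 2) = (p : ℝ) ^ j * (p : ℝ) ^ 2 := by ring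
  rw [e2]
  linarith

theorem sumb_big (p : ℕ) (r x : ℝ) (hp : 2 ≤ p) (hr : 0 < r) (hr2 : r ^ 2 = p) (hx : 2 < x) :
    ∀ j : ℕ, r ^ j ≤ bet p (x * r) j ∧ r * bet p (x * r) j ≤ bet p (x * r) (j + 1) := by
  have hp' : (2 : ℝ) ≤ p := by exact_mod_cast hp
  intro j
  induction j with
  | zero =>
    simp only [bet, pow_zero, le_refl, true_and]
    nlinarith
  | succ j ih =>
    obtain ⟨h1, h2⟩ := ih
    have h3 : r ^ (j + 1) ≤ bet p (x * r) (j + 1) := by
      rw [pow_succ]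
      nlinarith
    refine ⟨h3, ?_⟩
    have hpos : 0 < r ^ (j + 1) := by positivity
    have hb : 0 < bet p (x * r) (j + 1) := lt_of_lt_of_le hpos h3
    rcases j with _ | j
    · simp only [bet]
      have : (p : ℝ) + 1 ≤ (3 / 2) * r ^ 2 := by rw [hr2]; linarith
      have h5 : r * (x * r) = x * r ^ 2 := by ring
      rw [h5]
      have h6 : (x * r) ^ 2 = x ^ 2 * r ^ 2 := by ring
      rw [h6]
      have h7 : 0 < r ^ 2 := by positivity
      have h8 : 0 ≤ (x ^ 2 - x - 3 / 2) * r ^ 2 := by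
        apply mul_nonneg _ h7.le
        nlinarith
      nlinarith
    · rw [show j + 1 + 1 + 1 = j + 3 from rfl, bet]
      rw [← hr2]
      have h6 : r ^ 2 * bet p (x * r) (j + 1) ≤ r * bet p (x * r) (j + 2) := by
        have : r * (r * bet p (x * r) (j + 1)) ≤ r * bet p (x * r) (j + 2) :=
          mul_le_mul_of_nonneg_left h2 hr.le
        calc r ^ 2 * bet p (x * r) (j + 1) = r * (r * bet p (x * r) (j + 1)) := by ring
          _ ≤ _ := this
      have h7 : 2 * (r * bet p (x * r) (j + 2)) ≤ x * (r * bet p (x * r) (j + 2)) :=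
        mul_le_mul_of_nonneg_right hx.le (by positivity)
      have e : x * r * bet p (x * r) (j + 2) = x * (r * bet p (x * r) (j + 2)) := by ring
      rw [e]
      show r * bet p (x * r) (j + 2) ≤ _
      linarith

theorem sumb_big1 (p : ℕ) (α : ℝ) (hp : 2 ≤ p) (h : 4 * (p : ℝ) < α ^ 2) (j : ℕ) :
    1 ≤ bet p α j ^ 2 / (p : ℝ) ^ j := by
  have hp' : (2 : ℝ) ≤ p := by exact_mod_cast hp
  have hpp : (0 : ℝ) < p := by linarith
  have key : ∀ β : ℝ, 0 < β → 4 * (p : ℝ) < β ^ 2 → 1 ≤ bet p β j ^ 2 / (p : ℝ) ^ j := by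
    intro β hβ hβ2
    set r := Real.sqrt p with hr
    have hr0 : 0 < r := Real.sqrt_pos.mpr hpp
    have hr2 : r ^ 2 = p := Real.sq_sqrt hpp.le
    have hx : 2 < β / r := by
      rw [lt_div_iff₀ hr0]
      have : (2 * r) ^ 2 < β ^ 2 := by rw [mul_pow, hr2]; linarith
      exact lt_of_pow_lt_pow_left₀ 2 hβ.le this
    have h1 := (sumb_big p r (β / r) hp hr0 hr2 hx j).1
    rw [div_mul_cancel₀ _ hr0.ne'] at h1
    rw [le_div_iff₀ (by positivity), one_mul, ← hr2, ← pow_mul, mul_comm 2 j, pow_mul]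
    exact pow_le_pow_left₀ (by positivity) h1 2
  rcases lt_trichotomy α 0 with hα | hα | hα
  · have := key (-α) (by linarith) (by rw [neg_sq]; exact h)
    rw [sumb_neg, mul_pow, ← pow_mul, mul_comm j 2, pow_mul] at this
    simpa using this
  · rw [hα] at h
    exfalso
    nlinarith
  · exact key α hα h

theorem st_SUMB : ST_SUMB := by
  intro p J α hp
  have hp' : (2 : ℝ) ≤ p := by exact_mod_cast hp
  have hpp : (0 : ℝ) < p := by linarith
  by_cases h : α ^ 2 ≤ 4 * p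
  · induction J using Nat.twoStepInduction with
    | zero => simp [bet]
    | one =>
      rw [Finset.sum_range_succ, Finset.sum_range_one]
      simp only [bet]
      have : 0 ≤ α ^ 2 / (p : ℝ) ^ 1 := by positivity
      simp only [pow_zero, div_one, Nat.cast_one, one_pow]
      linarith
    | more J ih _ =>
      rw [Finset.sum_range_succ, Finset.sum_range_succ]
      have h1 := sumb_small p α hp h J
      push_cast
      have e1 : J + 1 + 1 = J + 2 := rfl
      rw [e1]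
      linarith
  · push Not at h
    have h1 : ∀ j ∈ Finset.range (J + 1), (1 : ℝ) ≤ bet p α j ^ 2 / (p : ℝ) ^ j :=
      fun j _ => sumb_big1 p α hp h j
    have h2 := Finset.sum_le_sum h1
    simp only [Finset.sum_const, Finset.card_range, nsmul_eq_mul, mul_one] at h2
    push_cast at h2
    have hJ : (0 : ℝ) ≤ J := Nat.cast_nonneg J
    linarith

end Pool.Agent.Helper96.MP
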