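import Pool.Agent.Helper9.MP.Lat

/-!
# MP_bde085_nt, block D: potential of the symbol of a cusp form (module SYB)
-/

set_option autoImplicit false

namespace Pool.Agent.Helper96.MP

open Complex MeasureTheory Filter Topology
open scoped MatrixGroups

/-- SYB -/
theorem st_SYB (hL : ST_FLIM) (hC : ST_COS) : ST_SYB := by
  intro N b hN hb
  obtain ⟨_, hhom, heq, _, _⟩ := hL N b hN hb
  refine ⟨?_, ?_, ?_⟩
  · intro k p q hk
    show (FC b (k * p) (k * q)).re = (FC b p q).re
    rw [hhom k p q hk]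
  · intro p q r s hG x y hxy
    have h := heq p q r s hG x y hxy
    show (FC b (p * x + q * y) (r * x + s * y)).re = (FC b x y).re + ((FC b p r).re - (FC b 1 0).re)
    rw [h]
    simp
  · intro g
    set h := rep N (cls N g) with hh
    have h1 : cls N g = cls N h := ((hC N hN).1 (cls N g)).symm
    have h2 : h * g⁻¹ ∈ CongruenceSubgroup.Gamma0 N := ((hC N hN).2 g h).1 h1
    set γ := h * g⁻¹ with hγ
    have h3 : h = γ * g := by rw [hγ]; group
    have hG : G0 N (γ 0 0) (γ 0 1) (γ 1 0) (γ 1 1) := by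
      refine ⟨Lib.det1 γ, ?_⟩
      have h4 := CongruenceSubgroup.Gamma0_mem.1 h2
      exact (ZMod.intCast_zmod_eq_zero_iff_dvd _ _).1 h4
    have hdet := Lib.det1 g
    have n1 : g 0 0 ≠ 0 ∨ g 1 0 ≠ 0 := by
      by_contra hc
      push Not at hc
      rw [hc.1, hc.2] at hdet
      simp at hdet
    have n2 : g 0 1 ≠ 0 ∨ g 1 1 ≠ 0 := by
      by_contra hc
      push Not at hc
      rw [hc.1, hc.2] at hdet
      simp at hdet
    have e1 := heq _ _ _ _ hG (g 0 0) (g 1 0) n1
    have e2 := heq _ _ _ _ hG (g 0 1) (g 1 1) n2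
    show (FC b (h 0 0) (h 1 0) - FC b (h 0 1) (h 1 1)).re = _
    clear_value γ h
    rw [h3, Lib.mul00, Lib.mul10, Lib.mul01, Lib.mul11, e1, e2]
    simp

end Pool.Agent.Helper96.MP
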