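import Pool.Agent.Helper9.MP.Lat

/-!
# MP_bde085_nt, block D: Atkin-Lehner operators and the primitive (module WFC)
-/

set_option autoImplicit false

namespace Pool.Agent.Helper96.MP

open Complex MeasureTheory Filter Topology
open scoped MatrixGroups

theorem wfc_den (A B C D : ℤ) (h : 0 < A * D - B * C) (z : ℂ) (hz : z ∈ UH) :
    (C : ℂ) * z + (D : ℂ) ≠ 0 := by
  intro h0
  have him : ((C : ℂ) * z + (D : ℂ)).im = 0 := by rw [h0]; simp
  have hre : ((C : ℂ) * z + (D : ℂ)).re = 0 := by rw [h0]; simp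
  simp at him hre
  rcases him with h1 | h1
  · rw [h1] at hre
    simp at hre
    rw [h1, hre] at h
    simp at h
  · exact absurd h1 (ne_of_gt hz)

theorem wfc_mem (A B C D : ℤ) (h : 0 < A * D - B * C) (z : ℂ) (hz : z ∈ UH) :
    mo A B C D z ∈ UH := by
  have hne := wfc_den A B C D h z hz
  show 0 < (mo A B C D z).im
  rw [Lib.mo_im A B C D z hne]
  have h1 : (0 : ℝ) < ((A * D - B * C : ℤ) : ℝ) := by exact_mod_cast h
  have h2 : (0 : ℝ) < ‖(C : ℂ) * z + (D : ℂ)‖ := norm_pos_iff.2 hne
  have hz' : 0 < z.im := hz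
  positivity

theorem wfc_comp (A B C D p q r s : ℤ) (z : ℂ) (h : (r : ℂ) * z + (s : ℂ) ≠ 0) :
    mo A B C D (mo p q r s z) =
      mo (A * p + B * r) (A * q + B * s) (C * p + D * r) (C * q + D * s) z := by
  unfold mo
  push_cast
  have e1 : (A : ℂ) * (((p : ℂ) * z + (q : ℂ)) / ((r : ℂ) * z + (s : ℂ))) + (B : ℂ) =
      (((A : ℂ) * p + B * r) * z + (A * q + B * s)) / ((r : ℂ) * z + (s : ℂ)) := by
    rw [eq_div_iff h, add_mul, mul_assoc, div_mul_cancel₀ _ h]
    ring
  have e2 : (C : ℂ) * (((p : ℂ) * z + (q : ℂ)) / ((r : ℂ) * z + (s : ℂ))) + (D : ℂ) =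
      (((C : ℂ) * p + D * r) * z + (C * q + D * s)) / ((r : ℂ) * z + (s : ℂ)) := by
    rw [eq_div_iff h, add_mul, mul_assoc, div_mul_cancel₀ _ h]
    ring
  rw [e1, e2, div_div_div_cancel_right₀ h]

theorem wfc_deriv (A B C D : ℤ) (h : 0 < A * D - B * C) (z : ℂ) (hz : z ∈ UH) :
    HasDerivAt (mo A B C D) (((A * D - B * C : ℤ) : ℂ) / ((C : ℂ) * z + (D : ℂ)) ^ 2) z := by
  have hne := wfc_den A B C D h z hz
  have h1 : HasDerivAt (fun z : ℂ => (A : ℂ) * z + (B : ℂ)) (A : ℂ) z := by
    simpa using ((hasDerivAt_id z).const_mul (A : ℂ)).add_const (B : ℂ)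
  have h2 : HasDerivAt (fun z : ℂ => (C : ℂ) * z + (D : ℂ)) (C : ℂ) z := by
    simpa using ((hasDerivAt_id z).const_mul (C : ℂ)).add_const (D : ℂ)
  have h3 := h1.div h2 hne
  refine h3.congr_deriv ?_
  push_cast
  congr 1
  ring

theorem wfc_UH_open : IsOpen UH := isOpen_lt continuous_const Complex.continuous_im

theorem wfc_UH_preconn : IsPreconnected UH := (convex_halfSpace_im_gt 0).isPreconnected

theorem wfc_neBot : (comap Complex.im (atTop : Filter ℝ)).NeBot := by
  apply Filter.NeBot.comap_of_surj inferInstance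
  intro x
  exact ⟨⟨0, x⟩, rfl⟩

theorem wfc_UH_ev : ∀ᶠ z : ℂ in comap Complex.im (atTop : Filter ℝ), z ∈ UH := by
  have h : ∀ᶠ x : ℝ in atTop, 0 < x := eventually_gt_atTop 0
  exact h.comap Complex.im

/-- WFC -/
theorem st_WFC (hL : ST_FLIM) (hQ : ST_QDIF) : ST_WFC := by
  intro N Q b c hN hQN hb hc hAL A B C D hT x y hxy
  have hQ1 : 1 ≤ Q := by
    have h1 : Q ∣ N := (Nat.mem_divisors.1 (Finset.mem_filter.1 hQN).1).1
    exact Nat.pos_of_dvd_of_pos h1 hN
  have hdet : A * D - B * C = Q := by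
    have := hT.1
    linarith
  have hpos : 0 < A * D - B * C := by
    rw [hdet]
    exact_mod_cast hQ1
  -- the difference is constant
  have hder : ∀ z ∈ UH, HasDerivAt (fun z => Fs c z - Fs b (mo A B C D z)) 0 z := by
    intro z hz
    have h1 := (hQ N c hN hc).2.2.1 z hz
    have h2 := (hQ N b hN hb).2.2.1 _ (wfc_mem A B C D hpos z hz)
    have h3 := h2.comp z (wfc_deriv A B C D hpos z hz)
    have h4 := h1.sub h3
    refine h4.congr_deriv ?_
    rw [hAL A B C D hT z hz, hdet]
    push_cast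
    ring
  have hI : Complex.I ∈ UH := by
    show 0 < Complex.I.im
    simp
  set K := Fs c I - Fs b (mo A B C D I) with hK
  have hconst : ∀ z ∈ UH, Fs c z - Fs b (mo A B C D z) = K := by
    intro z hz
    have h1 : DifferentiableOn ℂ (fun z => Fs c z - Fs b (mo A B C D z)) UH :=
      fun z hz => (hder z hz).differentiableAt.differentiableWithinAt
    have h2 : Set.EqOn (deriv (fun z => Fs c z - Fs b (mo A B C D z))) 0 UH :=
      fun z hz => (hder z hz).deriv
    exact wfc_UH_open.is_const_of_deriv_eq_zero wfc_UH_preconn h1 h2 hz hI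
  have hnb := wfc_neBot
  -- general statement on limits
  have hlim : ∀ u v : ℤ, (u ≠ 0 ∨ v ≠ 0) →
      FC c u v - FC b (A * u + B * v) (C * u + D * v) = K := by
    intro u v huv
    have hs : 0 < u * u - (-v) * v := by
      rcases huv with h | h
      · have := mul_self_pos.2 h
        nlinarith [mul_self_nonneg v]
      · have := mul_self_pos.2 h
        nlinarith [mul_self_nonneg u]
    have h1 := ((hL N c hN hc).1 u (-v) v u hs).1
    have hs2 : 0 < (A * u + B * v) * (C * (-v) + D * u) - (A * (-v) + B * u) * (C * u + D * v) := by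
      have : (A * u + B * v) * (C * (-v) + D * u) - (A * (-v) + B * u) * (C * u + D * v) =
          (A * D - B * C) * (u * u - (-v) * v) := by ring
      rw [this]
      exact mul_pos hpos hs
    have h2 := ((hL N b hN hb).1 _ _ _ _ hs2).1
    refine tendsto_nhds_unique (h1.sub h2) ?_
    refine tendsto_const_nhds.congr' ?_
    filter_upwards [wfc_UH_ev] with z hz
    rw [← wfc_comp A B C D u (-v) v u z (wfc_den u (-v) v u hs z hz)]
    exact (hconst _ (wfc_mem u (-v) v u hs z hz)).symm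
  have e1 := hlim 1 0 (Or.inl one_ne_zero)
  have e2 := hlim x y hxy
  have e3 : FC c 1 0 = 0 := by simp [FC]
  rw [e3] at e1
  simp only [mul_one, mul_zero, add_zero] at e1
  rw [← e1] at e2
  linear_combination e2

end Pool.Agent.Helper96.MP
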