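import Pool.Agent.Helper9.MP.Lat

/-!
# MP_bde085_nt, block D: composition of Atkin-Lehner operators (module WMUL)
-/

set_option autoImplicit false

namespace Pool.Agent.Helper96.MP

open Complex MeasureTheory Filter Topology
open scoped MatrixGroups

theorem wmul_den (A B C D : ℤ) (h : 0 < A * D - B * C) (z : ℂ) (hz : z ∈ UH) :
    (C : ℂ) * z + (D : ℂ) ≠ 0 := by
  intro h0
  have him : ((C : ℂ) * z + (D : ℂ)).im = 0 := by rw [h0]; simp
  have hre : ((C : ℂ) * z + (D : ℂ)).re = 0 := by rw [h0]; simp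
  simp at him hre
  rcases him with h1 | h1
  · rw [h1] at hre
    simp at hre
    rw [h1, hre] at h
    simp at h
  · exact absurd h1 (ne_of_gt hz)

theorem wmul_mem (A B C D : ℤ) (h : 0 < A * D - B * C) (z : ℂ) (hz : z ∈ UH) :
    mo A B C D z ∈ UH := by
  have hne := wmul_den A B C D h z hz
  show 0 < (mo A B C D z).im
  rw [Lib.mo_im A B C D z hne]
  have h1 : (0 : ℝ) < ((A * D - B * C : ℤ) : ℝ) := by exact_mod_cast h
  have h2 : (0 : ℝ) < ‖(C : ℂ) * z + (D : ℂ)‖ := norm_pos_iff.2 hne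
  have hz' : 0 < z.im := hz
  positivity

theorem wmul_pos (N Q : ℕ) (hN : 1 ≤ N) (hQ : Q ∈ UD N) : 0 < Q := by
  have h1 : Q ∣ N := (Nat.mem_divisors.1 (Finset.mem_filter.1 hQ).1).1
  exact Nat.pos_of_dvd_of_pos h1 hN

theorem wmul_det (N Q : ℕ) (hQ : 0 < Q) (A B C D : ℤ) (h : TQ N Q 1 A B C D) :
    0 < A * D - B * C := by
  rw [h.1]
  have : (0 : ℤ) < Q := by exact_mod_cast hQ
  linarith

/-- a multiple `g * (entries) = product`: points and automorphy factors -/
theorem wmul_comp (A B C D p q r s A' B' C' D' : ℤ) (g k : ℤ) (hg : g ≠ 0) (hk : k ≠ 0)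
    (h1 : g * (A * p + B * r) = k * A') (h2 : g * (A * q + B * s) = k * B')
    (h3 : g * (C * p + D * r) = k * C') (h4 : g * (C * q + D * s) = k * D') (z : ℂ)
    (h : (r : ℂ) * z + (s : ℂ) ≠ 0) :
    mo A B C D (mo p q r s z) = mo A' B' C' D' z ∧
      (g : ℂ) * (((C : ℂ) * mo p q r s z + D) * ((r : ℂ) * z + s)) = k * ((C' : ℂ) * z + D') := by
  have hg' : (g : ℂ) ≠ 0 := by exact_mod_cast hg
  have hk' : (k : ℂ) ≠ 0 := by exact_mod_cast hk
  have c1 : (g : ℂ) * (A * p + B * r) = k * A' := by exact_mod_cast h1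
  have c2 : (g : ℂ) * (A * q + B * s) = k * B' := by exact_mod_cast h2
  have c3 : (g : ℂ) * (C * p + D * r) = k * C' := by exact_mod_cast h3
  have c4 : (g : ℂ) * (C * q + D * s) = k * D' := by exact_mod_cast h4
  have e1 : ((A : ℂ) * mo p q r s z + B) * ((r : ℂ) * z + s) =
      (A * p + B * r) * z + (A * q + B * s) := by
    unfold mo
    rw [add_mul, mul_assoc, div_mul_cancel₀ _ h]
    ring
  have e2 : ((C : ℂ) * mo p q r s z + D) * ((r : ℂ) * z + s) =
      (C * p + D * r) * z + (C * q + D * s) := by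
    unfold mo
    rw [add_mul, mul_assoc, div_mul_cancel₀ _ h]
    ring
  have e3 : (g : ℂ) * (((C : ℂ) * mo p q r s z + D) * ((r : ℂ) * z + s)) =
      k * ((C' : ℂ) * z + D') := by
    rw [e2]
    linear_combination z * c3 + c4
  have e4 : (g : ℂ) * (((A : ℂ) * mo p q r s z + B) * ((r : ℂ) * z + s)) =
      k * ((A' : ℂ) * z + B') := by
    rw [e1]
    linear_combination z * c1 + c2
  refine ⟨?_, e3⟩
  show ((A : ℂ) * mo p q r s z + B) / ((C : ℂ) * mo p q r s z + D) =
    ((A' : ℂ) * z + B') / ((C' : ℂ) * z + D')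
  have e5 : ((A : ℂ) * mo p q r s z + B) / ((C : ℂ) * mo p q r s z + D) =
      ((g : ℂ) * (((A : ℂ) * mo p q r s z + B) * ((r : ℂ) * z + s))) /
        ((g : ℂ) * (((C : ℂ) * mo p q r s z + D) * ((r : ℂ) * z + s))) := by
    rw [mul_div_mul_left _ _ hg', mul_div_mul_right _ _ h]
  rw [e5, e3, e4, mul_div_mul_left _ _ hk']

/-- WMUL -/
theorem st_WMUL (hT : ST_TQM) (hU : ST_QUNI) : ST_WMUL := by
  intro N Q Q' b c d hN hQ hQ' hb hc hd hbc
  obtain ⟨⟨h1N, hcx⟩, hex, hadj, hmul, hone⟩ := hT N hN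
  have hQp := wmul_pos N Q hN hQ
  have hQp' := wmul_pos N Q' hN hQ'
  refine ⟨?_, ?_, ?_, ?_⟩
  · intro hcd A B C D hM z hz
    obtain ⟨hQ''m, hback, _, _, _⟩ := hcx Q hQ Q' hQ'
    set Q'' := cx Q Q' with hQ''
    have hQp'' := wmul_pos N Q'' hN hQ''m
    obtain ⟨A', B', C', D', hM'⟩ := hex Q' hQ'
    have hadjM := hadj Q' 1 A' B' C' D' hM'
    obtain ⟨a, e, f, g, hM0, m1, m2, m3, m4⟩ := hmul Q'' hQ''m Q' hQ' 1 A B C D 1 D' (-B') (-C') A' hM
      hadjM
    rw [hback, one_mul] at hM0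
    set k := Nat.gcd Q'' Q' with hk
    have hkp : 0 < k := Nat.gcd_pos_of_pos_left _ hQp''
    have hdet' := wmul_det N Q' hQp' A' B' C' D' hM'
    have hdet := wmul_det N Q'' hQp'' A B C D hM
    have hdet0 := wmul_det N Q hQp a e f g hM0
    have hne := wmul_den A' B' C' D' hdet' z hz
    have hz' := wmul_mem A' B' C' D' hdet' z hz
    have hd' : A' * D' - B' * C' = Q' := by
      have := hM'.1; linarith
    have hdQ : a * g - e * f = Q := by
      have := hM0.1; linarith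
    have hdQ'' : A * D - B * C = Q'' := by
      have := hM.1; linarith
    -- gcd ^ 2 * Q = Q'' * Q'
    have hrel : (k : ℤ) ^ 2 * Q = Q'' * Q' := by
      rw [← hdQ, ← hdQ'', ← hd']
      have : (k : ℤ) ^ 2 * (a * g - e * f) = (k * a) * (k * g) - (k * e) * (k * f) := by ring
      rw [this, ← m1, ← m2, ← m3, ← m4]
      ring
    obtain ⟨w1, w2⟩ := wmul_comp a e f g A' B' C' D' A B C D k Q' (by exact_mod_cast hkp.ne')
      (by exact_mod_cast hQp'.ne')
      (by
        have : (k : ℤ) * (a * A' + e * C') = (k * a) * A' + (k * e) * C' := by ring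
        rw [this, ← m1, ← m2, ← hd']; ring)
      (by
        have : (k : ℤ) * (a * B' + e * D') = (k * a) * B' + (k * e) * D' := by ring
        rw [this, ← m1, ← m2, ← hd']; ring)
      (by
        have : (k : ℤ) * (f * A' + g * C') = (k * f) * A' + (k * g) * C' := by ring
        rw [this, ← m3, ← m4, ← hd']; ring)
      (by
        have : (k : ℤ) * (f * B' + g * D') = (k * f) * B' + (k * g) * D' := by ring
        rw [this, ← m3, ← m4, ← hd']; ring) z hne
    have e1 := hcd A' B' C' D' hM' z hz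
    have e2 := hbc a e f g hM0 _ hz'
    rw [e1, e2, w1]
    have hne0 := wmul_den a e f g hdet0 _ hz'
    have hne'' := wmul_den A B C D hdet z hz
    have hkC : (k : ℂ) ≠ 0 := by exact_mod_cast hkp.ne'
    have hQ'C : (Q' : ℂ) ≠ 0 := by exact_mod_cast hQp'.ne'
    have hrelC : (k : ℂ) ^ 2 * Q = Q'' * Q' := by exact_mod_cast hrel
    have w3 : (k : ℂ) * (((f : ℂ) * mo A' B' C' D' z + g) * ((C' : ℂ) * z + D')) =
        Q' * ((C : ℂ) * z + D) := by exact_mod_cast w2
    have key : (Q' : ℂ) / ((C' : ℂ) * z + (D' : ℂ)) ^ 2 *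
        ((Q : ℂ) / ((f : ℂ) * mo A' B' C' D' z + (g : ℂ)) ^ 2) =
        (Q'' : ℂ) / ((C : ℂ) * z + (D : ℂ)) ^ 2 := by
      rw [div_mul_div_comm, div_eq_div_iff (by positivity) (by positivity)]
      have w4 : (k : ℂ) ^ 2 * (((f : ℂ) * mo A' B' C' D' z + g) * ((C' : ℂ) * z + D')) ^ 2 =
          (Q' : ℂ) ^ 2 * ((C : ℂ) * z + D) ^ 2 := by
        rw [← mul_pow, w3, mul_pow]
      have hk2 : (k : ℂ) ^ 2 ≠ 0 := pow_ne_zero _ hkC
      apply mul_left_cancel₀ hk2
      linear_combination ((Q' : ℂ) * ((C : ℂ) * z + D) ^ 2) * hrelC - (Q'' : ℂ) * w4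
    rw [← mul_assoc, key]
  · intro hbd
    obtain ⟨A, B, C, D, hM⟩ := hex Q hQ
    apply hU c d (fun τ hτ => hc.sum τ hτ) (fun τ hτ => hd.sum τ hτ)
    intro z hz
    rw [hbc A B C D hM z hz, hbd A B C D hM z hz]
  · intro A B C D hM z hz
    have hdet := wmul_det N Q hQp A B C D hM
    have hM2 := hadj Q 1 A B C D hM
    have hz' := wmul_mem A B C D hdet z hz
    have e1 := hbc D (-B) (-C) A hM2 _ hz'
    have hne := wmul_den A B C D hdet z hz
    have hdQ : A * D - B * C = Q := by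
      have := hM.1; linarith
    obtain ⟨w1, w2⟩ := wmul_comp D (-B) (-C) A A B C D 1 0 0 1 1 Q (by norm_num)
      (by exact_mod_cast hQp.ne')
      (by rw [← hdQ]; ring) (by ring) (by ring) (by rw [← hdQ]; ring) z hne
    rw [e1, w1]
    have e3 : mo 1 0 0 1 z = z := by simp [mo]
    rw [e3]
    have hQC : (Q : ℂ) ≠ 0 := by exact_mod_cast hQp.ne'
    have w3 : (((-C : ℤ) : ℂ) * mo A B C D z + A) * ((C : ℂ) * z + D) = Q := by
      have := w2
      push_cast at this ⊢
      linear_combination this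
    have hne2 : ((-C : ℤ) : ℂ) * mo A B C D z + (A : ℂ) ≠ 0 := by
      intro h
      rw [h, zero_mul] at w3
      exact hQC w3.symm
    have key : (Q : ℂ) / ((C : ℂ) * z + (D : ℂ)) ^ 2 *
        ((Q : ℂ) / (((-C : ℤ) : ℂ) * mo A B C D z + (A : ℂ)) ^ 2) = 1 := by
      rw [div_mul_div_comm, div_eq_one_iff_eq (by positivity)]
      rw [← mul_pow, mul_comm ((C : ℂ) * z + (D : ℂ)), w3]
      ring
    rw [← mul_assoc, key, one_mul]
  · intro A B C D hM z hz
    have hG := (hone A B C D).1 hM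
    have hdet : 0 < A * D - B * C := by rw [hG.1]; norm_num
    have hne := wmul_den A B C D hdet z hz
    have e1 := hb.inv z hz A B C D hG.1 hG.2
    unfold mo
    rw [e1]
    push_cast
    field_simp

end Pool.Agent.Helper96.MP
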